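import Pool.Agent.Lib_helper73.SV.Coord

/-!
# The nodes of a step with elementary abelian factor
-/

set_option autoImplicit false
set_option linter.unusedSectionVars false

namespace Pool.Agent.SV

variable {G : Type} [Group G] {X : Type} [MulAction G X]

/-- The hypotheses of a step from `A` to `N` with elementary abelian factor. -/
structure AbStep (p : ℕ) (N A : Subgroup G) (X : Type) [MulAction G X] : Prop where
  nA : A.Normal
  le : N ≤ A
  comm : ∀ x ∈ A, ∀ y ∈ A, x * y * x⁻¹ * y⁻¹ ∈ N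
  pow : ∀ x ∈ A, x ^ p ∈ N
  triv : ∀ n ∈ N, ∀ x : X, n • x = x

/-- subgroups of index `p` of `A` which contain the stabilizer of `x` in `A` -/
def Mx (p : ℕ) (A : Subgroup G) (x : X) (M : Subgroup G) : Prop :=
  (∀ n ∈ A, n • x = x → n ∈ M) ∧ M ≤ A ∧ M.relIndex A = p

/-- the node of a hyperplane -/
def hv (M : Subgroup G) (x : X) : Nd G X := ⟨M, orb M x, ∅⟩

/-- the node of a direction -/
def dv (A M : Subgroup G) (x : X) : Nd G X := ⟨M, orb A x, ∅⟩

/-- the node of an orbit -/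
def ov (A : Subgroup G) (x : X) : Nd G X := ⟨⊤, orb A x, ∅⟩

/-- the node of a point -/
def pv (x : X) : Nd G X := ⟨⊤, {x}, ∅⟩

/-- the node of a hyperplane with a class modulo squares -/
def sv {p : ℕ} (A M : Subgroup G) (x : X) (l : G → ZMod p) : Nd G X :=
  ⟨M, orb M x, {n | n ∈ A ∧ l n ≠ 0 ∧ IsSquare (l n)}⟩

theorem smul_hv (g : G) (M : Subgroup G) (x : X) : g • hv M x = hv (cj g M) (g • x) :=
  smul_mk g M M x

theorem smul_dv (g : G) (A M : Subgroup G) [A.Normal] (x : X) :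
    g • dv A M x = dv A (cj g M) (g • x) := by
  have := smul_mk g M A x
  rwa [cj_normal g A] at this

theorem smul_ov (g : G) (A : Subgroup G) [A.Normal] (x : X) : g • ov A x = ov A (g • x) := by
  have := smul_mk g ⊤ A x
  rwa [cj_normal g A, cj_top] at this

theorem smul_pv (g : G) (x : X) : g • (pv x : Nd G X) = pv (g • x) := smul_mk_single g x

theorem smul_sv {p : ℕ} (g : G) (A M : Subgroup G) [hA : A.Normal] (x : X) (l : G → ZMod p) :
    g • sv A M x l = sv A (cj g M) (g • x) fun n => l (g⁻¹ * n * g) := by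
  apply Nd.ext
  · rfl
  · exact (congrArg Nd.A (smul_mk g M M x) : _)
  · ext n
    rw [mem_smul_E]
    show (g⁻¹ * n * g ∈ A ∧ _) ↔ (n ∈ A ∧ _)
    have h1 : g⁻¹ * n * g ∈ A ↔ n ∈ A := by
      rw [← mem_cj, cj_normal]
    rw [h1]

theorem pv_inj {x y : X} (h : (pv x : Nd G X) = pv y) : x = y :=
  Set.singleton_injective (congrArg Nd.A h)

section

variable {p : ℕ} {N A : Subgroup G} (hs : AbStep p N A X)

include hs

theorem AbStep.cj_mem {n m : G} (hn : n ∈ A) (hm : m ∈ A) {M : Subgroup G} (hM : N ≤ M) :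
    n * m * n⁻¹ ∈ M ↔ m ∈ M := by
  have h1 := hM (hs.comm n hn m hm)
  constructor
  · intro h2
    have h3 := M.mul_mem (M.inv_mem h1) h2
    have e : (n * m * n⁻¹ * m⁻¹)⁻¹ * (n * m * n⁻¹) = m := by group
    rwa [e] at h3
  · intro h2
    have h3 := M.mul_mem h1 h2
    have e : n * m * n⁻¹ * m⁻¹ * m = n * m * n⁻¹ := by group
    rwa [e] at h3

theorem AbStep.cj_eq {n : G} (hn : n ∈ A) {M : Subgroup G} (hM : N ≤ M) (hM' : M ≤ A) :
    cj n M = M := by
  ext m
  rw [mem_cj]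
  constructor
  · intro h
    have h1 := (hs.cj_mem hn (hM' h) hM).2 h
    have e : n * (n⁻¹ * m * n) * n⁻¹ = m := by group
    rwa [e] at h1
  · intro h
    have h1 := (hs.cj_mem (A.inv_mem hn) (hM' h) hM).2 h
    rwa [inv_inv] at h1

/-- elements of the stabilizer of `x` in `A` fix all points of the orbit -/
theorem AbStep.fix {n : G} (hn : n ∈ A) {x y : X} (h : n • x = x) (hy : y ∈ orb A x) :
    n • y = y := by
  obtain ⟨m, hm, rfl⟩ := hy
  have h1 := hs.triv _ (hs.comm n hn m hm) (m • n • x)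
  have e : (n * m * n⁻¹ * m⁻¹) • m • n • x = n • m • x := by
    simp only [← mul_smul]
    congr 1
    group
  rw [e, h] at h1
  exact h1

theorem Mx.N_le {x : X} {M : Subgroup G} (h : Mx p A x M) : N ≤ M :=
  fun n hn => h.1 n (hs.le hn) (hs.triv n hn x)

theorem Mx.smul {x : X} {M : Subgroup G} (h : Mx p A x M) (g : G) :
    Mx p A (g • x) (cj g M) := by
  have := hs.nA
  refine ⟨fun n hn hx => ?_, ?_, ?_⟩
  · rw [mem_cj]
    apply h.1
    · rw [← mem_cj, cj_normal]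
      exact hn
    · rw [mul_smul, mul_smul, hx, inv_smul_smul]
  · have h1 := cj_mono (g := g) h.2.1
    rwa [cj_normal g A] at h1
  · have h1 := h.2.2
    unfold cj
    rw [Subgroup.relIndex_comap]
    have h2 : A.map (MulAut.conj g⁻¹).toMonoidHom = A := by
      have h3 : A.comap (MulAut.conj g⁻¹).toMonoidHom = A := cj_normal g A
      conv_lhs => rw [← h3]
      exact Subgroup.map_comap_eq_self_of_surjective (MulAut.conj g⁻¹).surjective A
    rw [h2]
    exact h1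

theorem Mx.orb {x y : X} {M : Subgroup G} (h : Mx p A x M) (hy : y ∈ orb A x) :
    Mx p A y M := by
  refine ⟨fun n hn hx => ?_, h.2.1, h.2.2⟩
  exact h.1 n hn (hs.fix hn hx (mem_orb_symm hy))

theorem Mx.cj {x : X} {M : Subgroup G} (h : Mx p A x M) {n : G} (hn : n ∈ A) :
    Pool.Agent.SV.cj n M = M := hs.cj_eq hn (h.N_le hs) h.2.1

theorem Mx.mem {x : X} {M : Subgroup G} (h : Mx p A x M) {n : G} (hn : n ∈ A)
    (hx : n • x ∈ Pool.Agent.SV.orb M x) : n ∈ M := by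
  obtain ⟨m, hm, hmx⟩ := hx
  have h1 := h.1 (m⁻¹ * n) (A.mul_mem (A.inv_mem (h.2.1 hm)) hn) (by
    rw [mul_smul, ← hmx, inv_smul_smul])
  have := M.mul_mem hm h1
  rwa [mul_inv_cancel_left] at this

theorem Mx.coord [Finite G] [hp : Fact p.Prime] {x : X} {M : Subgroup G} (h : Mx p A x M) :
    ∃ l, Coord p A M l :=
  Coord.exists_coord h.2.2 (fun y hy z hz => h.N_le hs (hs.comm y hy z hz))
    fun y hy => h.N_le hs (hs.pow y hy)

/-- hyperplanes in coordinates -/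
theorem Mx.mem_iff {x : X} {M : Subgroup G} (h : Mx p A x M) {l : G → ZMod p}
    (hl : Coord p A M l) {n n' : G} (hn : n ∈ A) (hn' : n' ∈ A) :
    n' • x ∈ Pool.Agent.SV.orb M (n • x) ↔ l n = l n' := by
  rw [hl.eq_iff' hn hn']
  constructor
  · intro h1
    have h2 := h.orb hs (smul_mem_orb hn x)
    apply h2.mem hs (A.mul_mem hn' (A.inv_mem hn))
    rwa [mul_smul, inv_smul_smul]
  · intro h1
    refine ⟨_, h1, ?_⟩
    rw [mul_smul, inv_smul_smul]

theorem Mx.hv_eq {x : X} {M : Subgroup G} (h : Mx p A x M) {l : G → ZMod p}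
    (hl : Coord p A M l) {n n' : G} (hn : n ∈ A) (hn' : n' ∈ A) :
    hv M (n • x) = hv M (n' • x) ↔ l n = l n' := by
  rw [← h.mem_iff hs hl hn hn']
  constructor
  · intro h1
    have h2 : Pool.Agent.SV.orb M (n • x) = Pool.Agent.SV.orb M (n' • x) := congrArg Nd.A h1
    exact orb_eq_iff.1 h2.symm
  · intro h1
    unfold hv
    rw [orb_eq h1]

theorem Mx.moved [hp : Fact p.Prime] {x : X} {M : Subgroup G} (h : Mx p A x M) :
    ∃ n ∈ A, n • x ≠ x := by
  by_contra h1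
  push Not at h1
  have h2 : A ≤ M := fun n hn => h.1 n hn (h1 n hn)
  have h3 := h.2.2
  rw [Subgroup.relIndex_eq_one.2 h2] at h3
  exact hp.out.one_lt.ne h3

end

/-- the kinds of nodes -/
inductive Kd : Type
  | pt | dr | hy | sh
  deriving DecidableEq

instance : Fintype Kd := ⟨{.pt, .dr, .hy, .sh}, fun k => by cases k <;> simp⟩

/-- the nodes of the different kinds -/
def vd (p : ℕ) (A : Subgroup G) : Kd → Nd G X → Prop
  | .pt, v => ∃ x, (∃ n ∈ A, n • x ≠ x) ∧ v = pv x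
  | .dr, v => ∃ x M, Mx p A x M ∧ v = dv A M x
  | .hy, v => ∃ x M, Mx p A x M ∧ v = hv M x
  | .sh, v => ∃ x M, Mx p A x M ∧ ∃ l : G → ZMod p, Coord p A M l ∧ v = sv A M x l

theorem moved_smul {A : Subgroup G} [hA : A.Normal] {x : X} (h : ∃ n ∈ A, n • x ≠ x) (g : G) :
    ∃ n ∈ A, n • g • x ≠ g • x := by
  obtain ⟨n, hn, h1⟩ := h
  refine ⟨g * n * g⁻¹, hA.conj_mem n hn g, fun h2 => h1 ?_⟩
  rw [mul_smul, inv_smul_smul, mul_smul] at h2
  exact MulAction.injective g h2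

theorem vd_smul {p : ℕ} {N A : Subgroup G} (hs : AbStep p N A X) (g : G) (k : Kd) (v : Nd G X)
    (h : vd p A k v) : vd p A k (g • v) := by
  have := hs.nA
  cases k with
  | pt =>
    obtain ⟨x, h1, rfl⟩ := h
    exact ⟨g • x, moved_smul h1 g, smul_pv g x⟩
  | dr =>
    obtain ⟨x, M, h1, rfl⟩ := h
    exact ⟨g • x, cj g M, h1.smul hs g, smul_dv g A M x⟩
  | hy =>
    obtain ⟨x, M, h1, rfl⟩ := h
    exact ⟨g • x, cj g M, h1.smul hs g, smul_hv g M x⟩
  | sh =>
    obtain ⟨x, M, h1, l, hl, rfl⟩ := h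
    exact ⟨g • x, cj g M, h1.smul hs g, _, hl.conj g, smul_sv g A M x l⟩

/-- the nodes of the smaller set: orbits, and directions on one side -/
def vX (p : ℕ) (A : Subgroup G) (side : X → Bool) (v : Nd G X) : Prop :=
  (∃ x, v = ov A x) ∨ ∃ x M, side x = true ∧ Mx p A x M ∧ v = dv A M x

theorem vX_smul {p : ℕ} {N A : Subgroup G} (hs : AbStep p N A X) {side : X → Bool}
    (hside : ∀ (g : G) x, side (g • x) = side x) (g : G) (v : Nd G X)
    (h : vX p A side v) : vX p A side (g • v) := by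
  have := hs.nA
  rcases h with ⟨x, rfl⟩ | ⟨x, M, h0, h1, rfl⟩
  · exact .inl ⟨g • x, smul_ov g A x⟩
  · exact .inr ⟨g • x, cj g M, by rw [hside]; exact h0, h1.smul hs g, smul_dv g A M x⟩

/-- the relations between nodes -/
def Qr (Mk : ℕ → Nd G X → Nd G X → Prop) : ℕ → Kd → Kd → Nd G X → Nd G X → Prop
  | 0, .hy, .dr, v, w => w.M = v.M ∧ v.A ⊆ w.A
  | 0, .sh, .hy, v, w => w.M = v.M ∧ w.A = v.A
  | 0, .pt, .hy, v, w => v.A ⊆ w.A
  | 0, .dr, .dr, v, w => v.M = w.M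
  | 1, .sh, .hy, v, w => w.M = v.M ∧ ∃ n ∈ v.E, ∀ x, x ∈ w.A ↔ n⁻¹ • x ∈ v.A
  | 0, .hy, .hy, v, w => Mk 0 v w
  | 1, .hy, .hy, v, w => Mk 1 v w
  | _, _, _, _, _ => False

theorem smul_sub {g : G} {v w : Nd G X} : (g • v).A ⊆ (g • w).A ↔ v.A ⊆ w.A := by
  constructor
  · intro h x hx
    have := h (smul_mem_smul_A.2 hx : g • x ∈ (g • v).A)
    exact smul_mem_smul_A.1 this
  · intro h x hx
    exact h hx

theorem smul_M_eq {g : G} {v w : Nd G X} : (g • v).M = (g • w).M ↔ v.M = w.M :=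
  ⟨fun h => cj_inj h, fun h => by rw [smul_M, smul_M, h]⟩

theorem smul_A_eq {g : G} {v w : Nd G X} : (g • v).A = (g • w).A ↔ v.A = w.A := by
  rw [Set.Subset.antisymm_iff, smul_sub, smul_sub, ← Set.Subset.antisymm_iff]

theorem Qr_smul {Mk : ℕ → Nd G X → Nd G X → Prop}
    (hMk : ∀ (g : G) i v w, Mk i v w → Mk i (g • v) (g • w)) (g : G) (i : ℕ) (k k' : Kd)
    (v w : Nd G X) (h : Qr Mk i k k' v w) : Qr Mk i k k' (g • v) (g • w) := by
  match i, k, k', h with
  | 0, .hy, .dr, h => exact ⟨smul_M_eq.2 h.1, smul_sub.2 h.2⟩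
  | 0, .sh, .hy, h => exact ⟨smul_M_eq.2 h.1, smul_A_eq.2 h.2⟩
  | 0, .pt, .hy, h => exact smul_sub.2 h
  | 0, .dr, .dr, h => exact smul_M_eq.2 h
  | 1, .sh, .hy, h =>
    obtain ⟨h1, n, hn, h2⟩ := h
    refine ⟨smul_M_eq.2 h1, g * n * g⁻¹, conj_mem_smul_E.2 hn, fun x => ?_⟩
    rw [mem_smul_A, mem_smul_A, h2, ← mul_smul, ← mul_smul]
    have e : n⁻¹ * g⁻¹ = g⁻¹ * (g * n * g⁻¹)⁻¹ := by group
    rw [e]
  | 0, .hy, .hy, h => exact hMk g 0 v w h
  | 1, .hy, .hy, h => exact hMk g 1 v w h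

end Pool.Agent.SV
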