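import Pool.Agent.Lib_helper73.SV.Marks

/-!
# Marks by bits
-/

set_option autoImplicit false
set_option linter.unusedSectionVars false

namespace Pool.Agent.SV

/-- the orbits of pairs are determined by `b` marks, if the fibres have at most `2 ^ b` elements:
the marks are the bits of the least number of a point of the orbit in the representative fibre -/
theorem exists_bits {G P Q T : Type} [Group G] [MulAction G P] [MulAction G Q] [MulAction G T]
    [Finite P] (π : P → Q) (hπ : ∀ (g : G) x, π (g • x) = g • π x) {b : ℕ}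
    (hb : ∀ q, Nat.card {x // π x = q} ≤ 2 ^ b) :
    ∃ Mk : Fin b → P → T → Prop, (∀ (g : G) k x t, Mk k x t → Mk k (g • x) (g • t)) ∧
      ∀ x x' t t', (∃ g : G, g • π x = π x' ∧ g • t = t') → (∀ k, Mk k x t ↔ Mk k x' t') →
        ∃ g : G, g • x = x' ∧ g • t = t' := by
  classical
  -- enumerate the fibres
  have h1 : ∀ q, ∃ f : {x // π x = q} → Fin (2 ^ b), Function.Injective f := by
    intro q
    have := Fintype.ofFinite {x // π x = q}
    have h2 : Fintype.card {x // π x = q} ≤ Fintype.card (Fin (2 ^ b)) := by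
      rw [Fintype.card_fin, ← Nat.card_eq_fintype_card]
      exact hb q
    obtain ⟨f⟩ := Function.Embedding.nonempty_of_card_le h2
    exact ⟨f, f.injective⟩
  choose f hf using h1
  -- the numbers of a pair
  let Nm : P → T → Fin (2 ^ b) → Prop := fun x t k =>
    ∃ g : G, g • (π x, t) = rep (G := G) (π x, t) ∧
      ∃ h : π (g • x) = (rep (G := G) (π x, t)).1, f _ ⟨g • x, h⟩ = k
  have hNm : ∀ (u : G) x t k, Nm x t k → Nm (u • x) (u • t) k := by
    rintro u x t k ⟨g, h1, h2, h3⟩
    have e : ((π (u • x), u • t) : Q × T) = u • (π x, t) := by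
      rw [hπ]
      rfl
    show ∃ g' : G, g' • (π (u • x), u • t) = rep (G := G) (π (u • x), u • t) ∧
      ∃ h : π (g' • u • x) = (rep (G := G) (π (u • x), u • t)).1, f _ ⟨g' • u • x, h⟩ = k
    rw [e, rep_smul]
    refine ⟨g * u⁻¹, ?_, ?_, ?_⟩
    · rw [mul_smul, inv_smul_smul, h1]
    · rw [mul_smul, inv_smul_smul, h2]
    · have e2 : (g * u⁻¹) • u • x = g • x := by rw [mul_smul, inv_smul_smul]
      rw [← h3]
      congr 1
      exact Subtype.ext e2
  have hNm' : ∀ (u : G) x t k, Nm (u • x) (u • t) k ↔ Nm x t k := by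
    intro u x t k
    refine ⟨fun h => ?_, hNm u x t k⟩
    have := hNm u⁻¹ _ _ _ h
    rwa [inv_smul_smul, inv_smul_smul] at this
  have hex : ∀ x t, ∃ n : ℕ, ∃ h : n < 2 ^ b, Nm x t ⟨n, h⟩ := by
    intro x t
    obtain ⟨g, hg⟩ := exists_rep (G := G) (π x, t)
    have hg1 : π (g • x) = (rep (G := G) (π x, t)).1 := by
      rw [hπ, ← hg]
      rfl
    exact ⟨(f _ ⟨g • x, hg1⟩).1, (f _ ⟨g • x, hg1⟩).2, g, hg, hg1, rfl⟩
  let mn : P → T → ℕ := fun x t => Nat.find (hex x t)
  have hmn : ∀ (u : G) x t, mn (u • x) (u • t) = mn x t := by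
    intro u x t
    show Nat.find (hex (u • x) (u • t)) = Nat.find (hex x t)
    apply le_antisymm
    · apply Nat.find_min'
      obtain ⟨h2, h3⟩ := Nat.find_spec (hex x t)
      exact ⟨h2, (hNm' u x t _).2 h3⟩
    · apply Nat.find_min'
      obtain ⟨h2, h3⟩ := Nat.find_spec (hex (u • x) (u • t))
      exact ⟨h2, (hNm' u x t _).1 h3⟩
  have hmn2 : ∀ x t, mn x t < 2 ^ b := by
    intro x t
    obtain ⟨h2, -⟩ := Nat.find_spec (hex x t)
    exact h2
  refine ⟨fun k x t => (mn x t).testBit k = true, ?_, ?_⟩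
  · intro u k x t h
    rw [hmn]
    exact h
  · rintro x x' t t' ⟨u, hu1, hu2⟩ hk
    have hbit : mn x t = mn x' t' := by
      apply Nat.eq_of_testBit_eq
      intro i
      by_cases hi : i < b
      · have := hk ⟨i, hi⟩
        exact Bool.eq_iff_iff.2 this
      · have h2 : ∀ m : ℕ, m < 2 ^ b → m.testBit i = false := by
          intro m hm
          apply Nat.testBit_eq_false_of_lt
          exact hm.trans_le (Nat.pow_le_pow_right (by norm_num) (not_lt.1 hi))
        rw [h2 _ (hmn2 x t), h2 _ (hmn2 x' t')]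
    obtain ⟨q1, g, hg, hg1, hg2⟩ := Nat.find_spec (hex x t)
    obtain ⟨q2, g', hg', hg1', hg2'⟩ := Nat.find_spec (hex x' t')
    have e : ((π x', t') : Q × T) = u • (π x, t) := by
      rw [← hu1, ← hu2]
      rfl
    have e' : rep (G := G) (π x', t') = rep (G := G) (π x, t) := by
      rw [e, rep_smul]
    have h3 : f _ ⟨g' • x', hg1'⟩ = f _ ⟨g • x, hg1⟩ := by
      rw [hg2, hg2']
      exact Fin.ext hbit.symm
    have h4 : g' • x' = g • x := by
      have key : ∀ (q : Q) (y : P) (hy : π y = q) (q' : Q) (y' : P) (hy' : π y' = q'),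
          q = q' → f q ⟨y, hy⟩ = f q' ⟨y', hy'⟩ → y = y' := by
        intro q y hy q' y' hy' hqq h
        subst hqq
        exact congrArg Subtype.val (hf _ h)
      exact key _ _ _ _ _ _ (congrArg Prod.fst e') h3
    refine ⟨g'⁻¹ * g, ?_, ?_⟩
    · rw [mul_smul, ← h4, inv_smul_smul]
    · have h5 : g • t = (rep (G := G) (π x, t)).2 := congrArg Prod.snd hg
      have h6 : g' • t' = (rep (G := G) (π x', t')).2 := congrArg Prod.snd hg'
      rw [mul_smul, h5, inv_smul_eq_iff, h6, e']

end Pool.Agent.SV
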