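import Pool.Agent.Lib_helper73.SV.Base

/-!
# The number of nodes
-/

set_option autoImplicit false
set_option linter.unusedSectionVars false

namespace Pool.Agent.SV

variable {G : Type} [Group G] {X : Type} [MulAction G X] {p : ℕ} {N A : Subgroup G}

theorem isSquare_mul_iff [hp : Fact p.Prime] {a x : ZMod p} (ha : a ≠ 0) (hx : x ≠ 0) :
    IsSquare (a * x) ↔ (IsSquare a ↔ IsSquare x) := by
  rw [← quadraticChar_one_iff_isSquare (mul_ne_zero ha hx), ← quadraticChar_one_iff_isSquare ha,
    ← quadraticChar_one_iff_isSquare hx, map_mul]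
  rcases quadraticChar_dichotomy ha with h1 | h1 <;>
    rcases quadraticChar_dichotomy hx with h2 | h2 <;> rw [h1, h2] <;> decide

variable [Finite G] [Finite X] [hp : Fact p.Prime] (hs : AbStep p N A X)

include hs

/-- the number of directions of an orbit -/
theorem card_Mx (x : X) :
    (p - 1) * Nat.card {M : Subgroup G // Mx p A x M} + 1 = Nat.card (orb A x) := by
  have hE : Elem p (MulAction.stabilizer A x) := by
    refine ⟨fun y z => ?_, fun y => ?_⟩
    · rw [MulAction.mem_stabilizer_iff]
      exact hs.triv _ (hs.comm y y.2 z z.2) x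
    · rw [MulAction.mem_stabilizer_iff]
      exact hs.triv _ (hs.pow y y.2) x
  have h1 := card_max hE
  rw [MulAction.index_stabilizer] at h1
  have h2 : MulAction.orbit A x = orb A x := by
    ext w
    constructor
    · rintro ⟨n, rfl⟩
      exact ⟨n, n.2, rfl⟩
    · rintro ⟨n, hn, rfl⟩
      exact ⟨⟨n, hn⟩, rfl⟩
  rw [h2] at h1
  have e : {M : Subgroup G // Mx p A x M} ≃
      {M : Subgroup A // MulAction.stabilizer A x ≤ M ∧ M.index = p} :=
    { toFun := fun M => ⟨M.1.subgroupOf A, by
          intro n hn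
          rw [Subgroup.mem_subgroupOf]
          exact M.2.1 n n.2 hn, M.2.2.2⟩
      invFun := fun M => ⟨M.1.map A.subtype, by
          intro n hn hx
          exact ⟨⟨n, hn⟩, M.2.1 hx, rfl⟩, by
          rintro n ⟨m, -, rfl⟩
          exact m.2, by
          have h3 : (M.1.map A.subtype).subgroupOf A = M.1 :=
            Subgroup.comap_map_eq_self_of_injective A.subtype_injective M.1
          show ((M.1.map A.subtype).subgroupOf A).index = p
          rw [h3]
          exact M.2.2⟩
      left_inv := fun M => Subtype.ext (Subgroup.map_subgroupOf_eq_of_le M.2.2.1)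
      right_inv := fun M => Subtype.ext
        (Subgroup.comap_map_eq_self_of_injective A.subtype_injective M.1) }
  rw [Nat.card_congr e, h1]
  rfl

theorem card_Mx_le (x : X) : Nat.card {M : Subgroup G // Mx p A x M} + 1 ≤ Nat.card (orb A x) := by
  rw [← card_Mx hs x]
  have h1 : 1 ≤ p - 1 := by
    have := hp.out.two_le
    omega
  have := Nat.mul_le_mul_right (Nat.card {M : Subgroup G // Mx p A x M}) h1
  omega

theorem two_le_orb {x : X} (h : ∃ n ∈ A, n • x ≠ x) : 2 ≤ Nat.card (orb A x) := by
  obtain ⟨n, hn, h1⟩ := h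
  have : Nontrivial (orb A x) := ⟨⟨x, mem_orb_self A x⟩, ⟨n • x, smul_mem_orb hn x⟩, fun e =>
    h1 (congrArg Subtype.val e).symm⟩
  exact Finite.one_lt_card

open Classical in
/-- **The number of nodes of the smaller set.** -/
theorem card_vX {side : X → Bool} (hside : ∀ (g : G) x, side (g • x) = side x) :
    32 * Nat.card {v : Nd G X // vX p A side v} +
      16 * Nat.card {x : X // side x = false ∧ ∃ n ∈ A, n • x ≠ x} ≤ 32 * Nat.card X := by
  have := Fintype.ofFinite X
  have := Fintype.ofFinite (Nd G X)
  rw [Nat.card_eq_fintype_card, Fintype.card_subtype, Nat.card_eq_fintype_card,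
    Fintype.card_subtype, Nat.card_eq_fintype_card, ← Finset.card_univ]
  have ho : ∀ x : X, orb A x ∈ Finset.univ.image (orb A : X → Set X) := fun x =>
    Finset.mem_image_of_mem _ (Finset.mem_univ x)
  rw [Finset.card_eq_sum_card_fiberwise (f := (orb A : X → Set X))
      (s := (Finset.univ : Finset X)) (t := Finset.univ.image (orb A : X → Set X))
      (fun x _ => ho x),
    Finset.card_eq_sum_card_fiberwise (f := (orb A : X → Set X))
      (s := Finset.univ.filter fun x : X => side x = false ∧ ∃ n ∈ A, n • x ≠ x)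
      (t := Finset.univ.image (orb A : X → Set X)) (fun x _ => ho x),
    Finset.card_eq_sum_card_fiberwise (f := (Nd.A : Nd G X → Set X))
      (s := Finset.univ.filter fun v : Nd G X => vX p A side v)
      (t := Finset.univ.image (orb A : X → Set X)) (by
        intro v hv
        have hv' := (Finset.mem_filter.1 hv).2
        rcases hv' with ⟨x, rfl⟩ | ⟨x, M, -, -, rfl⟩
        · exact ho x
        · exact ho x)]
  rw [Finset.mul_sum, Finset.mul_sum, Finset.mul_sum, ← Finset.sum_add_distrib]
  refine Finset.sum_le_sum fun B hB => ?_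
  obtain ⟨x, -, rfl⟩ := Finset.mem_image.1 hB
  have hq : (Finset.univ.filter fun y : X => orb A y = orb A x).card = Nat.card (orb A x) := by
    rw [Nat.card_eq_fintype_card, ← Set.toFinset_card]
    congr 1
    ext y
    simp only [Finset.mem_filter, Finset.mem_univ, true_and, Set.mem_toFinset, orb_eq_iff]
  have hq' : (Finset.filter (fun a : X => orb A a = orb A x) Finset.univ).card =
    Nat.card (orb A x) := hq
  rw [hq']
  have hm := card_Mx_le hs x
  by_cases hx : side x = true
  · -- directions occur, no moved points are counted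
    have h1 : ((Finset.univ.filter fun x : X => side x = false ∧ ∃ n ∈ A, n • x ≠ x).filter
        fun y => orb A y = orb A x) = ∅ := by
      rw [Finset.eq_empty_iff_forall_notMem]
      intro y hy
      rw [Finset.mem_filter, Finset.mem_filter] at hy
      obtain ⟨⟨-, h2, -⟩, h3⟩ := hy
      obtain ⟨n, -, rfl⟩ := orb_eq_iff.1 h3
      rw [hside, hx] at h2
      exact absurd h2 (by simp)
    have h2 : ((Finset.univ.filter fun v : Nd G X => vX p A side v).filter
        fun v => v.A = orb A x).card ≤ Nat.card {M : Subgroup G // Mx p A x M} + 1 := by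
      have := Fintype.ofFinite (Subgroup G)
      have h3 : ((Finset.univ.filter fun v : Nd G X => vX p A side v).filter
        fun v => v.A = orb A x) ⊆ insert (ov A x)
          ((Finset.univ.filter fun M : Subgroup G => Mx p A x M).image fun M => dv A M x) := by
        intro v hv
        rw [Finset.mem_filter, Finset.mem_filter] at hv
        obtain ⟨⟨-, h4⟩, h5⟩ := hv
        rw [Finset.mem_insert, Finset.mem_image]
        rcases h4 with ⟨y, rfl⟩ | ⟨y, M, -, h6, rfl⟩
        · left
          have h5' : orb A y = orb A x := h5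
          unfold ov
          rw [h5']
        · right
          have h5' : orb A y = orb A x := h5
          refine ⟨M, ?_, ?_⟩
          · rw [Finset.mem_filter]
            exact ⟨Finset.mem_univ _, h6.orb hs (orb_eq_iff.1 h5'.symm)⟩
          · unfold dv
            rw [h5']
      refine (Finset.card_le_card h3).trans ((Finset.card_insert_le _ _).trans ?_)
      rw [Nat.card_eq_fintype_card, Fintype.card_subtype]
      exact Nat.add_le_add_right Finset.card_image_le 1
    rw [h1, Finset.card_empty]
    omega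
  · have hx' : side x = false := by simpa using hx
    have h2 : ((Finset.univ.filter fun v : Nd G X => vX p A side v).filter
        fun v => v.A = orb A x).card ≤ 1 := by
      rw [Finset.card_le_one]
      have h3 : ∀ v ∈ ((Finset.univ.filter fun v : Nd G X => vX p A side v).filter
          fun v => v.A = orb A x), v = ov A x := by
        intro v hv
        rw [Finset.mem_filter, Finset.mem_filter] at hv
        obtain ⟨⟨-, h4⟩, h5⟩ := hv
        rcases h4 with ⟨y, rfl⟩ | ⟨y, M, h0, h6, rfl⟩
        · have h5' : orb A y = orb A x := h5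
          unfold ov
          rw [h5']
        · exfalso
          have h5' : orb A y = orb A x := h5
          obtain ⟨n, -, rfl⟩ := orb_eq_iff.1 h5'
          rw [hside, hx'] at h0
          exact absurd h0 (by simp)
      intro v hv w hw
      rw [h3 v hv, h3 w hw]
    have h4 : ((Finset.univ.filter fun x : X => side x = false ∧ ∃ n ∈ A, n • x ≠ x).filter
        fun y => orb A y = orb A x).card ≤ Nat.card (orb A x) := by
      rw [← hq]
      apply Finset.card_le_card
      intro y hy
      rw [Finset.mem_filter] at hy ⊢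
      exact ⟨Finset.mem_univ _, hy.2⟩
    by_cases hmv : ∃ n ∈ A, n • x ≠ x
    · have := two_le_orb hs hmv
      omega
    · have h5 : ((Finset.univ.filter fun x : X => side x = false ∧ ∃ n ∈ A, n • x ≠ x).filter
          fun y => orb A y = orb A x) = ∅ := by
        rw [Finset.eq_empty_iff_forall_notMem]
        intro y hy
        rw [Finset.mem_filter, Finset.mem_filter] at hy
        obtain ⟨⟨-, -, n, hn, h2⟩, h3⟩ := hy
        push Not at hmv
        exact h2 (hs.fix hn (hmv n hn) (orb_eq_iff.1 h3))
      rw [h5, Finset.card_empty]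
      omega

open Classical in
theorem card_dr : (p - 1) * Nat.card {v : Nd G X // vd p A .dr v} ≤
    Nat.card {x : X // ∃ n ∈ A, n • x ≠ x} := by
  have := Fintype.ofFinite X
  have := Fintype.ofFinite (Nd G X)
  have := Fintype.ofFinite (Subgroup G)
  rw [Nat.card_eq_fintype_card, Fintype.card_subtype, Nat.card_eq_fintype_card,
    Fintype.card_subtype]
  have ho : ∀ x : X, orb A x ∈ Finset.univ.image (orb A : X → Set X) := fun x =>
    Finset.mem_image_of_mem _ (Finset.mem_univ x)
  rw [Finset.card_eq_sum_card_fiberwise (f := (orb A : X → Set X))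
      (s := Finset.univ.filter fun x : X => ∃ n ∈ A, n • x ≠ x)
      (t := Finset.univ.image (orb A : X → Set X)) (fun x _ => ho x),
    Finset.card_eq_sum_card_fiberwise (f := (Nd.A : Nd G X → Set X))
      (s := Finset.univ.filter fun v : Nd G X => vd p A .dr v)
      (t := Finset.univ.image (orb A : X → Set X)) (by
        intro v hv
        obtain ⟨x, M, -, rfl⟩ := (Finset.mem_filter.1 hv).2
        exact ho x), Finset.mul_sum]
  refine Finset.sum_le_sum fun B hB => ?_
  obtain ⟨x, -, rfl⟩ := Finset.mem_image.1 hB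
  have h2 : ((Finset.univ.filter fun v : Nd G X => vd p A .dr v).filter
      fun v => v.A = orb A x).card ≤ Nat.card {M : Subgroup G // Mx p A x M} := by
    have h3 : ((Finset.univ.filter fun v : Nd G X => vd p A .dr v).filter
      fun v => v.A = orb A x) ⊆
        ((Finset.univ.filter fun M : Subgroup G => Mx p A x M).image fun M => dv A M x) := by
      intro v hv
      rw [Finset.mem_filter, Finset.mem_filter] at hv
      obtain ⟨⟨-, y, M, h6, rfl⟩, h5⟩ := hv
      have h5' : orb A y = orb A x := h5
      rw [Finset.mem_image]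
      refine ⟨M, ?_, ?_⟩
      · rw [Finset.mem_filter]
        exact ⟨Finset.mem_univ _, h6.orb hs (orb_eq_iff.1 h5'.symm)⟩
      · unfold dv
        rw [h5']
    refine (Finset.card_le_card h3).trans ?_
    rw [Nat.card_eq_fintype_card, Fintype.card_subtype]
    exact Finset.card_image_le
  by_cases hmv : ∃ n ∈ A, n • x ≠ x
  · have hq : Nat.card (orb A x) ≤ ((Finset.univ.filter fun x : X => ∃ n ∈ A, n • x ≠ x).filter
        fun y => orb A y = orb A x).card := by
      rw [Nat.card_eq_fintype_card, ← Set.toFinset_card]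
      apply Finset.card_le_card
      intro y hy
      rw [Set.mem_toFinset] at hy
      rw [Finset.mem_filter, Finset.mem_filter]
      refine ⟨⟨Finset.mem_univ _, ?_⟩, orb_eq hy⟩
      by_contra h3
      push Not at h3
      obtain ⟨n, hn, h4⟩ := hmv
      exact h4 (hs.fix hn (h3 n hn) (mem_orb_symm hy))
    have h3 := card_Mx hs x
    have h4 := Nat.mul_le_mul_left (p - 1) h2
    omega
  · have h3 : ((Finset.univ.filter fun v : Nd G X => vd p A .dr v).filter
      fun v => v.A = orb A x) = ∅ := by
      rw [Finset.eq_empty_iff_forall_notMem]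
      intro v hv
      rw [Finset.mem_filter, Finset.mem_filter] at hv
      obtain ⟨⟨-, y, M, h6, rfl⟩, h5⟩ := hv
      have h5' : orb A y = orb A x := h5
      exact hmv ((h6.orb hs (orb_eq_iff.1 h5'.symm)).moved hs)
    rw [h3, Finset.card_empty]
    omega

/-- the direction of a hyperplane -/
def par (A : Subgroup G) (v : Nd G X) : Nd G X := ⟨v.M, {x | ∃ y ∈ v.A, x ∈ orb A y}, ∅⟩

omit hs [Finite G] [Finite X] hp in
theorem par_hv {M : Subgroup G} (hM : M ≤ A) (x : X) : par A (hv M x) = dv A M x := by
  apply Nd.ext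
  · rfl
  · ext w
    constructor
    · rintro ⟨y, hy, hw⟩
      have h1 := orb_mono hM x hy
      rw [orb_eq h1] at hw
      exact hw
    · intro hw
      exact ⟨x, mem_orb_self M x, hw⟩
  · rfl

omit hs [Finite G] [Finite X] hp in
theorem par_smul [A.Normal] (g : G) (v : Nd G X) : par A (g • v) = g • par A v := by
  apply Nd.ext
  · rfl
  · ext w
    rw [mem_smul_A]
    constructor
    · rintro ⟨y, hy, n, hn, rfl⟩
      refine ⟨g⁻¹ • y, hy, g⁻¹ * n * g, ?_, ?_⟩
      · rw [← mem_cj, cj_normal]
        exact hn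
      · rw [mul_smul, smul_inv_smul, mul_smul]
    · rintro ⟨y, hy, n, hn, h⟩
      refine ⟨g • y, smul_mem_smul_A.2 hy, g * n * g⁻¹, ?_, ?_⟩
      · have h1 := (conj_mem_cj (g := g)).2 hn
        rwa [cj_normal] at h1
      · rw [mul_smul, inv_smul_smul, mul_smul, h, smul_inv_smul]
  · ext n
    rw [mem_smul_E]
    show n ∈ (∅ : Set G) ↔ g⁻¹ * n * g ∈ (∅ : Set G)
    simp

open Classical in
theorem card_hy : Nat.card {v : Nd G X // vd p A .hy v} ≤
    p * Nat.card {v : Nd G X // vd p A .dr v} := by
  have := Fintype.ofFinite (Nd G X)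
  have : NeZero p := ⟨hp.out.ne_zero⟩
  rw [Nat.card_eq_fintype_card, Fintype.card_subtype, Nat.card_eq_fintype_card,
    Fintype.card_subtype]
  refine Finset.card_le_mul_card_image_of_maps_to (f := par A) ?_ p ?_
  · intro v hv
    obtain ⟨x, M, h1, rfl⟩ := (Finset.mem_filter.1 hv).2
    rw [par_hv h1.2.1]
    rw [Finset.mem_filter]
    exact ⟨Finset.mem_univ _, x, M, h1, rfl⟩
  · intro b hb
    obtain ⟨x, M, h1, rfl⟩ := (Finset.mem_filter.1 hb).2
    obtain ⟨l, hl⟩ := h1.coord hs
    choose e he he2 using hl.surj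
    have h2 : (Finset.univ.filter fun v : Nd G X => vd p A .hy v).filter
        (fun v => par A v = dv A M x) ⊆
        (Finset.univ : Finset (ZMod p)).image fun i => hv M (e i • x) := by
      intro v hv
      rw [Finset.mem_filter, Finset.mem_filter] at hv
      obtain ⟨⟨-, y, M', h3, rfl⟩, h4⟩ := hv
      rw [par_hv h3.2.1] at h4
      have h5 : M' = M := congrArg Nd.M h4
      subst h5
      have h6 : orb A y = orb A x := congrArg Nd.A h4
      obtain ⟨n, hn, rfl⟩ := orb_eq_iff.1 h6
      rw [Finset.mem_image]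
      refine ⟨l n, Finset.mem_univ _, ?_⟩
      rw [h1.hv_eq hs hl (he _) hn, he2]
    refine (Finset.card_le_card h2).trans (Finset.card_image_le.trans ?_)
    rw [Finset.card_univ, ZMod.card]

open Classical in
theorem card_sh : Nat.card {v : Nd G X // vd p A .sh v} ≤
    2 * Nat.card {v : Nd G X // vd p A .hy v} := by
  have := Fintype.ofFinite (Nd G X)
  rw [Nat.card_eq_fintype_card, Fintype.card_subtype, Nat.card_eq_fintype_card,
    Fintype.card_subtype]
  refine Finset.card_le_mul_card_image_of_maps_to
    (f := fun v : Nd G X => (⟨v.M, v.A, ∅⟩ : Nd G X)) ?_ 2 ?_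
  · intro v hv
    obtain ⟨x, M, h1, l, hl, rfl⟩ := (Finset.mem_filter.1 hv).2
    rw [Finset.mem_filter]
    exact ⟨Finset.mem_univ _, x, M, h1, rfl⟩
  · intro b hb
    obtain ⟨x, M, h1, rfl⟩ := (Finset.mem_filter.1 hb).2
    obtain ⟨l, hl⟩ := h1.coord hs
    obtain ⟨n, hn, hn1⟩ := hl.surj 1
    have key : ∀ v ∈ (Finset.univ.filter fun v : Nd G X => vd p A .sh v).filter
        (fun v => (⟨v.M, v.A, ∅⟩ : Nd G X) = hv M x), ∃ a : ZMod p, a ≠ 0 ∧
          v = sv A M x fun n => a * l n := by
      intro v hv
      rw [Finset.mem_filter, Finset.mem_filter] at hv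
      obtain ⟨⟨-, y, M', h3, l', hl', rfl⟩, h4⟩ := hv
      have h5 : M' = M := congrArg Nd.M h4
      subst h5
      have h6 : orb M' y = orb M' x := congrArg Nd.A h4
      obtain ⟨a, ha, ha2⟩ := hl.unique hl'
      refine ⟨a, ha, ?_⟩
      unfold sv
      rw [h6]
      congr 1
      ext m
      show (m ∈ A ∧ l' m ≠ 0 ∧ IsSquare (l' m)) ↔ (m ∈ A ∧ a * l m ≠ 0 ∧ IsSquare (a * l m))
      constructor
      · rintro ⟨h7, h8⟩
        rw [ha2 m h7] at h8
        exact ⟨h7, h8⟩
      · rintro ⟨h7, h8⟩
        rw [← ha2 m h7] at h8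
        exact ⟨h7, h8⟩
    have h7 : ∀ a : ZMod p, a ≠ 0 → (n ∈ (sv A M x fun n => a * l n).E ↔ IsSquare a) := by
      intro a ha
      show (n ∈ A ∧ a * l n ≠ 0 ∧ IsSquare (a * l n)) ↔ _
      rw [hn1, mul_one]
      exact ⟨fun h => h.2.2, fun h => ⟨hn, ha, h⟩⟩
    rw [← Fintype.card_bool, ← Finset.card_univ]
    apply Finset.card_le_card_of_injOn (fun v => decide (n ∈ v.E)) (fun _ _ => Finset.mem_univ _)
    intro v hv w hw h8
    obtain ⟨a, ha, rfl⟩ := key v hv
    obtain ⟨a', ha', rfl⟩ := key w hw
    have h9 : decide (n ∈ (sv A M x fun n => a * l n).E) =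
      decide (n ∈ (sv A M x fun n => a' * l n).E) := h8
    rw [decide_eq_decide, h7 a ha, h7 a' ha'] at h9
    unfold sv
    congr 1
    ext m
    show (m ∈ A ∧ a * l m ≠ 0 ∧ IsSquare (a * l m)) ↔ (m ∈ A ∧ a' * l m ≠ 0 ∧ IsSquare (a' * l m))
    constructor
    · rintro ⟨b1, b2, b3⟩
      have b4 : l m ≠ 0 := right_ne_zero_of_mul b2
      rw [isSquare_mul_iff ha b4] at b3
      refine ⟨b1, mul_ne_zero ha' b4, ?_⟩
      rw [isSquare_mul_iff ha' b4, ← h9]
      exact b3
    · rintro ⟨b1, b2, b3⟩
      have b4 : l m ≠ 0 := right_ne_zero_of_mul b2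
      rw [isSquare_mul_iff ha' b4] at b3
      refine ⟨b1, mul_ne_zero ha b4, ?_⟩
      rw [isSquare_mul_iff ha b4, h9]
      exact b3

omit hs [Finite G] [Finite X] hp in
theorem card_pt : Nat.card {v : Nd G X // vd p A .pt v} =
    Nat.card {x : X // ∃ n ∈ A, n • x ≠ x} := by
  symm
  apply Nat.card_congr
  refine Equiv.ofBijective (fun x => ⟨pv x.1, x.1, x.2, rfl⟩) ⟨?_, ?_⟩
  · intro x y h
    exact Subtype.ext (pv_inj (congrArg Subtype.val h))
  · rintro ⟨v, x, hx, rfl⟩
    exact ⟨⟨x, hx⟩, rfl⟩

/-- **The number of new nodes.** -/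
theorem card_new : Nat.card {t : Kd × Nd G X // vd p A t.1 t.2} ≤
    8 * Nat.card {x : X // ∃ n ∈ A, n • x ≠ x} := by
  rw [Nat.card_congr (Equiv.subtypeProdEquivSigmaSubtype fun (k : Kd) (v : Nd G X) => vd p A k v),
    Nat.card_sigma]
  have e : (Finset.univ : Finset Kd) = {.pt, .dr, .hy, .sh} := rfl
  rw [e, Finset.sum_insert (by decide), Finset.sum_insert (by decide),
    Finset.sum_insert (by decide), Finset.sum_singleton, card_pt]
  have h1 := card_dr hs
  have h2 := card_hy hs
  have h3 := card_sh hs
  have h4 := hp.out.two_le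
  set m := Nat.card {x : X // ∃ n ∈ A, n • x ≠ x}
  set a := Nat.card {v : Nd G X // vd p A .dr v}
  have h5 : 1 * a ≤ (p - 1) * a := Nat.mul_le_mul_right a (by omega)
  have h6 : p * a ≤ (2 * (p - 1)) * a := Nat.mul_le_mul_right a (by omega)
  have h7 : (2 * (p - 1)) * a = 2 * ((p - 1) * a) := by ring
  omega

end Pool.Agent.SV
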