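import Pool.Agent.Lib_helper73.SV.Nodes

/-!
# Coordinates modulo a subgroup of index `p`
-/

set_option autoImplicit false
set_option linter.unusedSectionVars false

namespace Pool.Agent.SV

variable {G : Type} [Group G] {p : ℕ} {A M : Subgroup G}

/-- `l` is a coordinate on `A` with kernel `M` and values in `ZMod p` -/
structure Coord (p : ℕ) (A M : Subgroup G) (l : G → ZMod p) : Prop where
  mul : ∀ n ∈ A, ∀ n' ∈ A, l (n * n') = l n + l n'
  ker : ∀ n ∈ A, l n = 0 ↔ n ∈ M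
  surj : ∀ i, ∃ n ∈ A, l n = i

namespace Coord

variable {l l' : G → ZMod p}

theorem one (h : Coord p A M l) : l 1 = 0 := by
  have h1 := h.mul 1 A.one_mem 1 A.one_mem
  rw [mul_one] at h1
  exact left_eq_add.1 h1

theorem inv (h : Coord p A M l) {n : G} (hn : n ∈ A) : l n⁻¹ = -l n := by
  have h1 := h.mul n hn n⁻¹ (A.inv_mem hn)
  rw [mul_inv_cancel, h.one] at h1
  exact (neg_eq_of_add_eq_zero_right h1.symm).symm

theorem pow (h : Coord p A M l) {n : G} (hn : n ∈ A) (k : ℕ) : l (n ^ k) = k * l n := by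
  induction k with
  | zero => simp [h.one]
  | succ k ih =>
    rw [pow_succ, h.mul _ (A.pow_mem hn k) _ hn, ih]
    push_cast
    ring

theorem eq_iff (h : Coord p A M l) {n n' : G} (hn : n ∈ A) (hn' : n' ∈ A) :
    l n = l n' ↔ n⁻¹ * n' ∈ M := by
  rw [← h.ker _ (A.mul_mem (A.inv_mem hn) hn'), h.mul _ (A.inv_mem hn) _ hn', h.inv hn,
    neg_add_eq_zero]

theorem eq_iff' (h : Coord p A M l) {n n' : G} (hn : n ∈ A) (hn' : n' ∈ A) :
    l n = l n' ↔ n' * n⁻¹ ∈ M := by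
  rw [← h.ker _ (A.mul_mem hn' (A.inv_mem hn)), h.mul _ hn' _ (A.inv_mem hn), h.inv hn,
    add_neg_eq_zero, eq_comm]

/-- two coordinates with the same kernel are proportional -/
theorem unique [hp : Fact p.Prime] (h : Coord p A M l) (h' : Coord p A M l') :
    ∃ a, a ≠ 0 ∧ ∀ n ∈ A, l' n = a * l n := by
  obtain ⟨e, he, he1⟩ := h.surj 1
  refine ⟨l' e, fun h0 => ?_, fun n hn => ?_⟩
  · have h1 := (h.ker e he).2 ((h'.ker e he).1 h0)
    rw [he1] at h1
    exact one_ne_zero h1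
  · have h1 : l (e ^ (l n).val) = l n := by
      rw [h.pow he, he1, mul_one, ZMod.natCast_val, ZMod.cast_id]
    have h2 := (h.eq_iff (A.pow_mem he _) hn).1 h1
    have h3 := (h'.eq_iff (A.pow_mem he _) hn).2 h2
    rw [← h3, h'.pow he, ZMod.natCast_val, ZMod.cast_id, mul_comm]

/-- multiples of coordinates -/
theorem smul [hp : Fact p.Prime] (h : Coord p A M l) {a : ZMod p} (ha : a ≠ 0) :
    Coord p A M fun n => a * l n := by
  refine ⟨fun n hn n' hn' => ?_, fun n hn => ?_, fun i => ?_⟩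
  · rw [h.mul n hn n' hn', mul_add]
  · rw [mul_eq_zero_iff_left ha]
    exact h.ker n hn
  · obtain ⟨n, hn, hn2⟩ := h.surj (a⁻¹ * i)
    exact ⟨n, hn, by rw [hn2, ← mul_assoc, mul_inv_cancel₀ ha, one_mul]⟩

/-- conjugation -/
theorem conj [hA : A.Normal] (h : Coord p A M l) (g : G) :
    Coord p A (cj g M) fun n => l (g⁻¹ * n * g) := by
  have hc : ∀ n, n ∈ A → g⁻¹ * n * g ∈ A := by
    intro n hn
    have := hA.conj_mem n hn g⁻¹
    rwa [inv_inv] at this
  refine ⟨fun n hn n' hn' => ?_, fun n hn => ?_, fun i => ?_⟩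
  · rw [← h.mul _ (hc n hn) _ (hc n' hn')]
    congr 1
    group
  · rw [mem_cj]
    exact h.ker _ (hc n hn)
  · obtain ⟨n, hn, hn2⟩ := h.surj i
    refine ⟨g * n * g⁻¹, hA.conj_mem n hn g, ?_⟩
    rw [← hn2]
    congr 1
    group

/-- the coordinate of a conjugate -/
theorem conj_eq [hp : Fact p.Prime] [hA : A.Normal] (h : Coord p A M l) {g : G}
    (hg : cj g M = M) : ∃ a, a ≠ 0 ∧ ∀ n ∈ A, l (g * n * g⁻¹) = a * l n := by
  have h1 := h.conj g⁻¹
  have h2 : cj g⁻¹ M = M := by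
    conv_lhs => rw [← hg]
    rw [← cj_mul, inv_mul_cancel, cj_one]
  rw [h2] at h1
  obtain ⟨a, ha, ha2⟩ := h.unique h1
  refine ⟨a, ha, fun n hn => ?_⟩
  rw [← ha2 n hn, inv_inv]

/-- coordinates exist -/
theorem exists_coord [Finite G] [hp : Fact p.Prime] (hidx : M.relIndex A = p)
    (hc : ∀ x ∈ A, ∀ y ∈ A, x * y * x⁻¹ * y⁻¹ ∈ M) (hpow : ∀ x ∈ A, x ^ p ∈ M) :
    ∃ l, Coord p A M l := by
  classical
  have hE : Elem p (M.subgroupOf A) := by
    refine ⟨fun x y => ?_, fun x => ?_⟩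
    · rw [Subgroup.mem_subgroupOf]
      exact hc x x.2 y y.2
    · rw [Subgroup.mem_subgroupOf]
      exact hpow x x.2
  obtain ⟨f, hf, hs⟩ := exists_ker (p := p) hE hidx
  refine ⟨fun n => if hn : n ∈ A then (f ⟨n, hn⟩).toAdd else 0, fun n hn n' hn' => ?_,
    fun n hn => ?_, fun i => ?_⟩
  · rw [dif_pos hn, dif_pos hn', dif_pos (A.mul_mem hn hn')]
    have : (⟨n * n', A.mul_mem hn hn'⟩ : A) = ⟨n, hn⟩ * ⟨n', hn'⟩ := rfl
    rw [this, map_mul]
    rfl
  · rw [dif_pos hn]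
    have h1 : (⟨n, hn⟩ : A) ∈ f.ker ↔ n ∈ M := by
      rw [hf, Subgroup.mem_subgroupOf]
    rw [← h1, MonoidHom.mem_ker]
    rfl
  · obtain ⟨n, hn⟩ := hs (Multiplicative.ofAdd i)
    refine ⟨n, n.2, ?_⟩
    rw [dif_pos n.2, hn]
    rfl

end Coord

end Pool.Agent.SV
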