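import Mathlib

/-!
# Subgroups of index `p` above a subgroup with elementary abelian quotient
-/

set_option autoImplicit false
set_option linter.unusedSectionVars false

namespace Pool.Agent.SV

section

variable {A : Type} [Group A] {p : ℕ}

/-- the quotient by `E` is an elementary abelian `p`-group -/
def Elem (p : ℕ) (E : Subgroup A) : Prop :=
  (∀ x y : A, x * y * x⁻¹ * y⁻¹ ∈ E) ∧ ∀ x : A, x ^ p ∈ E

theorem Elem.mono {E E' : Subgroup A} (h : Elem p E) (hE : E ≤ E') : Elem p E' :=
  ⟨fun x y => hE (h.1 x y), fun x => hE (h.2 x)⟩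

theorem Elem.normal {E : Subgroup A} (h : Elem p E) : E.Normal := by
  refine ⟨fun n hn g => ?_⟩
  have h1 := E.mul_mem (h.1 g n) hn
  have e : g * n * g⁻¹ * n⁻¹ * n = g * n * g⁻¹ := by group
  rwa [e] at h1

variable [Finite A] [hp : Fact p.Prime]

omit [Group A] [Finite A] in
theorem card_dual (V : Type) [AddCommGroup V] [Module (ZMod p) V] [Finite V] :
    Nat.card (Module.Dual (ZMod p) V) = Nat.card V := by
  have : Module.Finite (ZMod p) V := Module.Finite.of_finite
  rw [Module.natCard_eq_pow_finrank (K := ZMod p) (V := Module.Dual (ZMod p) V),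
    Module.natCard_eq_pow_finrank (K := ZMod p) (V := V), Subspace.dual_finrank_eq]

/-- the number of homomorphisms to a group of order `p` -/
theorem card_hom {E : Subgroup A} (h : Elem p E) :
    Nat.card {f : A →* Multiplicative (ZMod p) // E ≤ f.ker} = E.index := by
  have hn := h.normal
  let : CommGroup (A ⧸ E) :=
    { (inferInstance : Group (A ⧸ E)) with
      mul_comm := by
        intro a b
        obtain ⟨x, rfl⟩ := QuotientGroup.mk_surjective a
        obtain ⟨y, rfl⟩ := QuotientGroup.mk_surjective b
        rw [← QuotientGroup.mk_mul, ← QuotientGroup.mk_mul, QuotientGroup.eq]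
        have h1 := h.1 y⁻¹ x⁻¹
        have e : (x * y)⁻¹ * (y * x) = y⁻¹ * x⁻¹ * y⁻¹⁻¹ * x⁻¹⁻¹ := by group
        rw [e]
        exact h1 }
  let V := Additive (A ⧸ E)
  let : Module (ZMod p) V := AddCommGroup.zmodModule (n := p) (by
    intro a
    obtain ⟨x, hx⟩ := QuotientGroup.mk_surjective (Additive.toMul a)
    show Additive.ofMul ((Additive.toMul a) ^ p) = 0
    rw [← hx, ← QuotientGroup.mk_pow]
    have : ((x ^ p : A) : A ⧸ E) = 1 := (QuotientGroup.eq_one_iff _).2 (h.2 x)
    rw [this]
    rfl)
  have : Finite V := inferInstanceAs (Finite (A ⧸ E))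
  have e1 : {f : A →* Multiplicative (ZMod p) // E ≤ f.ker} ≃ ((A ⧸ E) →* Multiplicative (ZMod p)) :=
    { toFun := fun f => QuotientGroup.lift E f.1 fun x hx => f.2 hx
      invFun := fun f => ⟨f.comp (QuotientGroup.mk' E), by
        intro x hx
        rw [MonoidHom.mem_ker, MonoidHom.comp_apply]
        have : (QuotientGroup.mk' E) x = 1 := (QuotientGroup.eq_one_iff _).2 hx
        rw [this, map_one]⟩
      left_inv := by
        intro f
        ext x
        rfl
      right_inv := by
        intro f
        ext x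
        rfl }
  have e2 : ((A ⧸ E) →* Multiplicative (ZMod p)) ≃ (V →+ ZMod p) := MonoidHom.toAdditiveLeft
  have e3 : (V →+ ZMod p) ≃ (V →ₗ[ZMod p] ZMod p) :=
    { toFun := fun f => AddMonoidHom.toZModLinearMap p f
      invFun := fun f => f.toAddMonoidHom
      left_inv := fun f => by ext; rfl
      right_inv := fun f => by ext; rfl }
  rw [Nat.card_congr (e1.trans (e2.trans e3))]
  exact card_dual (p := p) V

theorem ker_index {f : A →* Multiplicative (ZMod p)} (hf : f ≠ 1) : f.ker.index = p := by
  rw [Subgroup.index_ker]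
  have h1 : Nat.card (Multiplicative (ZMod p)) = p := by
    rw [Nat.card_congr Multiplicative.toAdd, Nat.card_zmod]
  have h2 : Nat.card f.range ∣ p := by
    have h3 := Subgroup.card_subgroup_dvd_card f.range
    rwa [h1] at h3
  rcases (Nat.dvd_prime hp.out).1 h2 with h3 | h3
  · exfalso
    apply hf
    have h4 : f.range = ⊥ := Subgroup.eq_bot_of_card_eq _ h3
    ext x
    have h5 : f x ∈ f.range := ⟨x, rfl⟩
    rw [h4, Subgroup.mem_bot] at h5
    rw [h5]
    rfl
  · exact h3

theorem eq_of_index {M M' : Subgroup A} (h : M ≤ M') (h1 : M.index = p) (h2 : M'.index = p) :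
    M = M' := by
  have hp0 : 0 < p := hp.out.pos
  have h3 := Subgroup.relIndex_mul_index h
  rw [h1, h2] at h3
  have h4 : M.relIndex M' = 1 := by
    have : M.relIndex M' * p = 1 * p := by rw [h3, one_mul]
    exact Nat.eq_of_mul_eq_mul_right hp0 this
  exact le_antisymm h (Subgroup.relIndex_eq_one.1 h4)

/-- homomorphisms with a given kernel -/
theorem card_ker {M : Subgroup A} (h : Elem p M) (hM : M.index = p) :
    Nat.card {f : A →* Multiplicative (ZMod p) // f.ker = M} + 1 = p := by
  classical
  have h1 := card_hom h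
  rw [hM] at h1
  conv_rhs => rw [← h1]
  have hfin : Finite (A →* Multiplicative (ZMod p)) :=
    Finite.of_injective (fun f => (f : A → Multiplicative (ZMod p))) DFunLike.coe_injective
  have e : {f : A →* Multiplicative (ZMod p) // M ≤ f.ker} ≃
      {f : A →* Multiplicative (ZMod p) // f.ker = M} ⊕ Unit :=
    { toFun := fun f => if hf : f.1 = 1 then .inr () else
        .inl ⟨f.1, (eq_of_index f.2 hM (ker_index hf)).symm⟩
      invFun := fun s => match s with
        | .inl f => ⟨f.1, f.2.ge⟩
        | .inr _ => ⟨1, by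
          intro x _
          rw [MonoidHom.mem_ker]
          rfl⟩
      left_inv := by
        intro f
        by_cases hf : f.1 = 1
        · simp only [hf, dif_pos]
          exact Subtype.ext hf.symm
        · simp only [hf, dif_neg, not_false_eq_true]
      right_inv := by
        rintro (f | u)
        · have hf : f.1 ≠ 1 := by
            intro hf
            have h2 := f.2
            rw [hf] at h2
            have h3 : M = ⊤ := by
              rw [← h2]
              ext x
              simp
            rw [h3, Subgroup.index_top] at hM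
            exact absurd hM.symm hp.out.one_lt.ne'
          simp only [hf, dif_neg, not_false_eq_true]
        · simp }
  rw [Nat.card_congr e, Nat.card_sum, Nat.card_unique (α := Unit)]

theorem exists_ker {M : Subgroup A} (h : Elem p M) (hM : M.index = p) :
    ∃ f : A →* Multiplicative (ZMod p), f.ker = M ∧ Function.Surjective f := by
  have h1 := card_ker h hM
  have h2 := hp.out.two_le
  have h3 : Nat.card {f : A →* Multiplicative (ZMod p) // f.ker = M} ≠ 0 := by omega
  obtain ⟨⟨f, hf⟩⟩ : Nonempty {f : A →* Multiplicative (ZMod p) // f.ker = M} :=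
    (Nat.card_ne_zero.1 h3).1
  refine ⟨f, hf, ?_⟩
  have h4 : f.ker.index = p := by rw [hf, hM]
  rw [Subgroup.index_ker] at h4
  have h5 : Nat.card (Multiplicative (ZMod p)) = p := by
    rw [Nat.card_congr Multiplicative.toAdd, Nat.card_zmod]
  have : NeZero p := ⟨hp.out.ne_zero⟩
  have : Finite (Multiplicative (ZMod p)) := inferInstanceAs (Finite (ZMod p))
  rw [← MonoidHom.range_eq_top]
  exact Subgroup.eq_top_of_card_eq _ (by rw [h4, h5])

/-- **The number of subgroups of index `p` above `E`.** -/
theorem card_max {E : Subgroup A} (h : Elem p E) :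
    (p - 1) * Nat.card {M : Subgroup A // E ≤ M ∧ M.index = p} + 1 = E.index := by
  classical
  rw [← card_hom h]
  have hfin : Finite (A →* Multiplicative (ZMod p)) :=
    have : NeZero p := ⟨hp.out.ne_zero⟩
    have : Finite (Multiplicative (ZMod p)) := inferInstanceAs (Finite (ZMod p))
    Finite.of_injective (fun f => (f : A → Multiplicative (ZMod p))) DFunLike.coe_injective
  have e : {f : A →* Multiplicative (ZMod p) // E ≤ f.ker} ≃
      (Σ M : {M : Subgroup A // E ≤ M ∧ M.index = p},
        {f : A →* Multiplicative (ZMod p) // f.ker = M.1}) ⊕ Unit :=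
    { toFun := fun f => if hf : f.1 = 1 then .inr () else
        .inl ⟨⟨f.1.ker, f.2, ker_index hf⟩, ⟨f.1, rfl⟩⟩
      invFun := fun s => match s with
        | .inl f => ⟨f.2.1, by rw [f.2.2]; exact f.1.2.1⟩
        | .inr _ => ⟨1, by
          intro x _
          rw [MonoidHom.mem_ker]
          rfl⟩
      left_inv := by
        intro f
        by_cases hf : f.1 = 1
        · simp only [hf, dif_pos]
          exact Subtype.ext hf.symm
        · simp only [hf, dif_neg, not_false_eq_true]
      right_inv := by
        rintro (⟨⟨M, hM, hM2⟩, ⟨f, hf⟩⟩ | u)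
        · have hf' : f.ker = M := hf
          have hf1 : f ≠ 1 := by
            rintro rfl
            have h3 : M = ⊤ := by
              rw [← hf']
              ext x
              simp
            rw [h3, Subgroup.index_top] at hM2
            exact absurd hM2.symm hp.out.one_lt.ne'
          subst hf'
          simp only [hf1, dif_neg, not_false_eq_true]
        · simp }
  rw [Nat.card_congr e, Nat.card_sum, Nat.card_unique (α := Unit)]
  congr 1
  have := Fintype.ofFinite {M : Subgroup A // E ≤ M ∧ M.index = p}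
  rw [Nat.card_sigma]
  have h1 : ∀ M : {M : Subgroup A // E ≤ M ∧ M.index = p},
      Nat.card {f : A →* Multiplicative (ZMod p) // f.ker = M.1} = p - 1 := by
    intro M
    have := card_ker (h.mono M.2.1) M.2.2
    omega
  rw [Finset.sum_congr rfl fun M _ => h1 M, Finset.sum_const, Finset.card_univ, smul_eq_mul,
    Nat.card_eq_fintype_card, mul_comm]

/-- adding an element to `D` -/
theorem index_add {D : Subgroup A} (h : Elem p D) {n : A} (hn : n ∉ D) :
    ∃ E : Subgroup A, (∀ M : Subgroup A, E ≤ M ↔ D ≤ M ∧ n ∈ M) ∧ E.index * p = D.index := by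
  have hD := h.normal
  refine ⟨(Subgroup.zpowers (QuotientGroup.mk' D n)).comap (QuotientGroup.mk' D), fun M => ?_, ?_⟩
  · constructor
    · intro h1
      refine ⟨fun x hx => h1 ?_, h1 ?_⟩
      · rw [Subgroup.mem_comap]
        have : QuotientGroup.mk' D x = 1 := (QuotientGroup.eq_one_iff _).2 hx
        rw [this]
        exact Subgroup.one_mem _
      · rw [Subgroup.mem_comap]
        exact Subgroup.mem_zpowers _
    · rintro ⟨h1, h2⟩ x hx
      rw [Subgroup.mem_comap, Subgroup.mem_zpowers_iff] at hx
      obtain ⟨k, hk⟩ := hx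
      rw [← map_zpow] at hk
      have h3 : (n ^ k)⁻¹ * x ∈ D := QuotientGroup.eq.1 hk
      have h4 := M.mul_mem (M.zpow_mem h2 k) (h1 h3)
      rwa [mul_inv_cancel_left] at h4
  · rw [Subgroup.index_comap_of_surjective _ (QuotientGroup.mk'_surjective D)]
    have h1 : orderOf (QuotientGroup.mk' D n) = p := by
      apply orderOf_eq_prime
      · rw [← map_pow]
        exact (QuotientGroup.eq_one_iff _).2 (h.2 n)
      · intro h2
        exact hn ((QuotientGroup.eq_one_iff _).1 h2)
    have h2 := (Subgroup.zpowers (QuotientGroup.mk' D n)).card_mul_index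
    rw [Nat.card_zpowers, h1] at h2
    rw [mul_comm, h2]
    rfl

open Classical in
/-- the number of subgroups of index `p` above `D` which contain `n` -/
noncomputable def cnt (p : ℕ) [Fintype (Subgroup A)] (D : Subgroup A) (n : A) : ℕ :=
  ((Finset.univ.filter fun M : Subgroup A => D ≤ M ∧ M.index = p).filter fun M => n ∈ M).card

theorem cnt_in [Fintype (Subgroup A)] {D : Subgroup A} (h : Elem p D) {n : A} (hn : n ∈ D) :
    (p - 1) * cnt p D n + 1 = D.index := by
  classical
  rw [← card_max h]
  congr 2
  unfold cnt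
  rw [Nat.card_eq_fintype_card, Fintype.card_subtype, Finset.filter_filter]
  congr 1
  ext M
  simp only [Finset.mem_filter, Finset.mem_univ, true_and]
  constructor
  · rintro ⟨h1, -⟩
    exact h1
  · intro h1
    exact ⟨h1, h1.1 hn⟩

theorem cnt_out [Fintype (Subgroup A)] {D : Subgroup A} (h : Elem p D) {n : A} (hn : n ∉ D) :
    ((p - 1) * cnt p D n + 1) * p = D.index := by
  classical
  obtain ⟨E, hE, hE2⟩ := index_add h hn
  rw [← hE2, ← card_max (h.mono ((hE E).1 le_rfl).1)]
  congr 3
  unfold cnt
  rw [Nat.card_eq_fintype_card, Fintype.card_subtype, Finset.filter_filter]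
  congr 1
  ext M
  simp only [Finset.mem_filter, Finset.mem_univ, true_and, hE]
  tauto

open Classical in
/-- **The Radon transform is injective.** -/
theorem radon [Fintype A] [Fintype (Subgroup A)] {D : Subgroup A} (h : Elem p D) (f1 f2 : A → ℕ)
    (h0 : ∑ n, f1 n = ∑ n, f2 n) (τ : Subgroup A → Subgroup A)
    (hτ : ∀ M, D ≤ M → M.index = p → D ≤ τ M ∧ (τ M).index = p ∧
      ∑ n ∈ Finset.univ.filter (fun n => n ∈ M), f1 n =
        ∑ n ∈ Finset.univ.filter (fun n => n ∈ τ M), f2 n)
    (hinj : ∀ M M', D ≤ M → M.index = p → D ≤ M' → M'.index = p → τ M = τ M' → M = M') :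
    ∑ n ∈ Finset.univ.filter (fun n => n ∈ D), f1 n =
      ∑ n ∈ Finset.univ.filter (fun n => n ∈ D), f2 n := by
  set P : Finset (Subgroup A) := Finset.univ.filter fun M => D ≤ M ∧ M.index = p with hP
  have hmem : ∀ M, M ∈ P ↔ D ≤ M ∧ M.index = p := fun M => by
    rw [hP, Finset.mem_filter]
    simp
  have hS : ∀ f : A → ℕ, ∑ M ∈ P, ∑ n ∈ Finset.univ.filter (fun n => n ∈ M), f n =
      ∑ n, cnt p D n * f n := by
    intro f
    simp only [Finset.sum_filter]
    rw [Finset.sum_comm]
    refine Finset.sum_congr rfl fun n _ => ?_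
    rw [← Finset.sum_filter, Finset.sum_const, smul_eq_mul]
    rfl
  have himg : P.image τ = P := by
    apply Finset.eq_of_subset_of_card_le
    · intro M hM
      obtain ⟨M', hM', rfl⟩ := Finset.mem_image.1 hM
      obtain ⟨h1, h2⟩ := (hmem M').1 hM'
      obtain ⟨h3, h4, -⟩ := hτ M' h1 h2
      exact (hmem _).2 ⟨h3, h4⟩
    · rw [Finset.card_image_of_injOn]
      intro M hM M' hM' e
      obtain ⟨h1, h2⟩ := (hmem M).1 hM
      obtain ⟨h3, h4⟩ := (hmem M').1 hM'
      exact hinj M M' h1 h2 h3 h4 e
  have hSS : ∑ n, cnt p D n * f1 n = ∑ n, cnt p D n * f2 n := by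
    rw [← hS, ← hS]
    conv_rhs => rw [← himg]
    rw [Finset.sum_image]
    · refine Finset.sum_congr rfl fun M hM => ?_
      obtain ⟨h1, h2⟩ := (hmem M).1 hM
      exact (hτ M h1 h2).2.2
    · intro M hM M' hM' e
      obtain ⟨h1, h2⟩ := (hmem M).1 hM
      obtain ⟨h3, h4⟩ := (hmem M').1 hM'
      exact hinj M M' h1 h2 h3 h4 e
  have hp1 : 1 ≤ p := hp.out.one_lt.le
  have hp2 := hp.out.two_le
  obtain ⟨r, hr⟩ : ∃ r, p = r + 1 := ⟨p - 1, by omega⟩
  have key : ∀ f : A → ℕ, p * ((p - 1) * (∑ n, cnt p D n * f n) + ∑ n, f n) =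
      D.index * (∑ n, f n + (p - 1) * ∑ n ∈ Finset.univ.filter (fun n => n ∈ D), f n) := by
    intro f
    rw [Finset.sum_filter, Finset.mul_sum, Finset.mul_sum, ← Finset.sum_add_distrib,
      ← Finset.sum_add_distrib, Finset.mul_sum, Finset.mul_sum]
    refine Finset.sum_congr rfl fun n _ => ?_
    by_cases hn : n ∈ D
    · rw [if_pos hn, ← cnt_in h hn, hr]
      simp only [Nat.add_sub_cancel]
      ring
    · rw [if_neg hn, ← cnt_out h hn, hr]
      simp only [Nat.add_sub_cancel]
      ring
  have h1 := key f1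
  have h2 := key f2
  rw [hSS, h0, h2] at h1
  have h3 : 0 < D.index := Nat.pos_of_ne_zero Subgroup.index_ne_zero_of_finite
  have h4 := Nat.eq_of_mul_eq_mul_left h3 h1
  have h5 := Nat.add_left_cancel h4
  have h6 : 0 < p - 1 := by omega
  exact (Nat.eq_of_mul_eq_mul_left h6 h5).symm

end

end Pool.Agent.SV
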