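import Pool.Agent.Lib_helper73.SV.Three

/-!
# Pairs of points: inversion of the Radon transform
-/

set_option autoImplicit false
set_option linter.unusedSectionVars false

namespace Pool.Agent.SV

variable {G : Type} [Group G] {X : Type} [MulAction G X] {p : ℕ} {N A : Subgroup G}
  {side : X → Bool} {S : Nd G X × Nd G X → ℕ → Set (Nd G X × Nd G X)}

/-- two points form a pair in the orbit of a given pair -/
def Ph (G : Type) [Group G] {X : Type} [MulAction G X] (x x' w w' : X) : Prop :=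
  ∃ g : G, g • x = w ∧ g • x' = w'

theorem Ph_smul {x x' w w' : X} (g : G) : Ph G x x' (g • w) (g • w') ↔ Ph G x x' w w' := by
  constructor
  · rintro ⟨u, h1, h2⟩
    exact ⟨g⁻¹ * u, by rw [mul_smul, h1, inv_smul_smul], by rw [mul_smul, h2, inv_smul_smul]⟩
  · rintro ⟨u, h1, h2⟩
    exact ⟨g * u, by rw [mul_smul, h1], by rw [mul_smul, h2]⟩

section

variable (hs : AbStep p N A X)

include hs

theorem Ph_D {x x' : X} {n : A} (hn : n ∈ MulAction.stabilizer A x ⊔ MulAction.stabilizer A x')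
    {w w' : X} (hw : w ∈ orb A x) (hw' : w' ∈ orb A x') :
    Ph G x x' w (n • w') ↔ Ph G x x' w w' := by
  have hmem : ∀ (n : A) (w' : X), w' ∈ orb A x' → n • w' ∈ orb A x' := by
    rintro n _ ⟨m, hm, rfl⟩
    exact ⟨n * m, A.mul_mem n.2 hm, mul_smul _ _ _⟩
  let K : Subgroup A :=
    { carrier := {n | ∀ w ∈ orb A x, ∀ w' ∈ orb A x', Ph G x x' w (n • w') ↔ Ph G x x' w w'}
      one_mem' := by
        intro w _ w' _
        rw [one_smul]
      mul_mem' := by
        intro a b ha hb w hw w' hw'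
        rw [mul_smul, ha w hw _ (hmem b w' hw'), hb w hw w' hw']
      inv_mem' := by
        intro a ha w hw w' hw'
        rw [← ha w hw _ (hmem a⁻¹ w' hw'), smul_inv_smul] }
  have h1 : MulAction.stabilizer A x ⊔ MulAction.stabilizer A x' ≤ K := by
    apply sup_le
    · intro a ha w hw w' hw'
      have h2 : (a : G) • w = w := hs.fix a.2 (MulAction.mem_stabilizer_iff.1 ha) hw
      conv_rhs => rw [← Ph_smul (a : G), h2]
      exact Iff.rfl
    · intro a ha w hw w' hw'
      have h2 : (a : G) • w' = w' := hs.fix a.2 (MulAction.mem_stabilizer_iff.1 ha) hw'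
      have h3 : a • w' = w' := h2
      rw [h3]
  exact h1 hn w hw w' hw'

end

namespace Raw

variable (hs : AbStep p N A X) [Finite G] [hp : Fact p.Prime]
  (hS : ∀ (x x' : X) M, side x = true → side x' = false → Mx p A x M → Mx p A x' M →
    LocOK p A side (dv A M x, dv A M x') (S (dv A M x, dv A M x')))

include hs hS

theorem four_fixed (R : Raw p A side (Mks A S))
    (hside : ∀ (g : G) x, side (g • x) = side x) {x x' : X}
    (h0 : side x = true) (h0' : side x' = false) (hm : ∃ n ∈ A, n • x ≠ x)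
    (hm' : ∃ n ∈ A, n • x' ≠ x') (hT : R.T (ov A x) = ov A x) (hT' : R.T (ov A x') = ov A x') :
    ∃ g : G, R.H .pt (pv x) = g • pv x ∧ R.H .pt (pv x') = g • pv x' := by
  classical
  have hA := hs.nA
  have := Fintype.ofFinite A
  have := Fintype.ofFinite (Subgroup A)
  have hvx : vd p A .pt (pv x) := ⟨x, hm, rfl⟩
  have hvx' : vd p A .pt (pv x') := ⟨x', hm', rfl⟩
  obtain ⟨x1, -, hx1⟩ := R.val .pt _ hvx
  obtain ⟨x1', -, hx1'⟩ := R.val .pt _ hvx'
  have ho : x1 ∈ orb A x := by
    have h1 := R.Tpt x hm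
    rw [hx1, hT] at h1
    exact h1 rfl
  have ho' : x1' ∈ orb A x' := by
    have h1 := R.Tpt x' hm'
    rw [hx1', hT'] at h1
    exact h1 rfl
  obtain ⟨n1, hn1, hn1x⟩ := id ho
  obtain ⟨n2, hn2, hn2x⟩ := id ho'
  let f1 : A → ℕ := fun n => if Ph G x x' x ((n : G) • x') then 1 else 0
  let f2 : A → ℕ := fun n => if Ph G x x' x1 ((n : G) • x1') then 1 else 0
  set D : Subgroup A := MulAction.stabilizer A x ⊔ MulAction.stabilizer A x' with hD
  have hE : Elem p D := by
    refine Elem.mono (E := MulAction.stabilizer A x) ⟨fun y z => ?_, fun y => ?_⟩ le_sup_left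
    · rw [MulAction.mem_stabilizer_iff]
      exact hs.triv _ (hs.comm y y.2 z z.2) x
    · rw [MulAction.mem_stabilizer_iff]
      exact hs.triv _ (hs.pow y y.2) x
  have htot : ∑ n, f1 n = ∑ n, f2 n := by
    symm
    refine Fintype.sum_equiv ((Equiv.mulLeft (⟨n1, hn1⟩ : A)⁻¹).trans
      (Equiv.mulRight (⟨n2, hn2⟩ : A))) _ _ fun n => ?_
    have h1 : Ph G x x' x1 ((n : G) • x1') ↔ Ph G x x' x ((n1⁻¹ * n * n2) • x') := by
      rw [← Ph_smul n1⁻¹, ← hn1x, inv_smul_smul, ← hn2x]
      simp only [← mul_smul, mul_assoc]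
    show (if _ then 1 else 0) = (if _ then 1 else 0)
    exact if_congr h1 rfl rfl
  -- the hyperplanes
  have hMx : ∀ M : Subgroup A, D ≤ M → M.index = p → Mx p A x (M.map A.subtype) ∧
      Mx p A x' (M.map A.subtype) := by
    intro M hDM hM
    have h1 : ∀ y, MulAction.stabilizer A y ≤ M → Mx p A (y : X) (M.map A.subtype) := by
      intro y hy
      refine ⟨fun n hn hx => ⟨⟨n, hn⟩, hy hx, rfl⟩, ?_, ?_⟩
      · rintro _ ⟨m, -, rfl⟩
        exact m.2
      · show ((M.map A.subtype).subgroupOf A).index = p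
        rw [show (M.map A.subtype).subgroupOf A = M from
          Subgroup.comap_map_eq_self_of_injective A.subtype_injective M]
        exact hM
    exact ⟨h1 x (le_sup_left.trans hDM), h1 x' (le_sup_right.trans hDM)⟩
  have h3 : ∀ M : Subgroup A, ∃ g : G, D ≤ M → M.index = p →
      R.H .hy (hv (M.map A.subtype) x) = g • hv (M.map A.subtype) x ∧
      R.H .hy (hv (M.map A.subtype) x') = g • hv (M.map A.subtype) x' := by
    intro M
    by_cases h : D ≤ M ∧ M.index = p
    · obtain ⟨h4, h5⟩ := hMx M h.1 h.2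
      obtain ⟨g, hg⟩ := three hs hS R hside h0 h0' h4 h5
      exact ⟨g, fun _ _ => hg⟩
    · exact ⟨1, fun h1 h2 => absurd ⟨h1, h2⟩ h⟩
  choose gM hgM using h3
  -- the moved hyperplanes
  have hmv : ∀ (y y1 : X) (hy : vd p A .pt (pv y)), R.H .pt (pv y) = pv y1 →
      ∀ (M : Subgroup G) (g : G), Mx p A y M → R.H .hy (hv M y) = g • hv M y →
        (∃ m ∈ cj g M, m • g • y = y1) ∧ Mx p A y1 (cj g M) := by
    intro y y1 hy h4 M g hM h5
    have h6 := (R.rel 0 .pt .hy (pv y) (hv M y) (by norm_num) hy ⟨y, M, hM, rfl⟩).2 (by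
      show ({y} : Set X) ⊆ orb M y
      rw [Set.singleton_subset_iff]
      exact mem_orb_self M y)
    rw [h4, h5, smul_hv] at h6
    have h7 : y1 ∈ orb (cj g M) (g • y) := h6 rfl
    have h8 := hM.smul hs g
    exact ⟨h7, h8.orb hs (orb_mono h8.2.1 _ h7)⟩
  have key := radon (p := p) hE f1 f2 htot
    (fun M => (cj (gM M) (M.map A.subtype)).subgroupOf A) (by
      intro M hDM hM
      obtain ⟨hM1, hM1'⟩ := hMx M hDM hM
      obtain ⟨hg, hg'⟩ := hgM M hDM hM
      set g := gM M with hgdef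
      obtain ⟨⟨m1, hm1, hm1x⟩, hMx1⟩ := hmv x x1 hvx hx1 _ g hM1 hg
      obtain ⟨⟨m2, hm2, hm2x⟩, hMx1'⟩ := hmv x' x1' hvx' hx1' _ g hM1' hg'
      refine ⟨?_, hMx1.2.2, ?_⟩
      · rw [hD]
        apply sup_le
        · intro n hn
          rw [Subgroup.mem_subgroupOf]
          exact hMx1.1 n n.2 (hs.fix n.2 (MulAction.mem_stabilizer_iff.1 hn) ho)
        · intro n hn
          rw [Subgroup.mem_subgroupOf]
          exact hMx1'.1 n n.2 (hs.fix n.2 (MulAction.mem_stabilizer_iff.1 hn) ho')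
      · have hm1A : m1 ∈ A := hMx1.2.1 hm1
        have hm2A : m2 ∈ A := hMx1.2.1 hm2
        have hconj : ∀ n ∈ A, g * n * g⁻¹ ∈ A := fun n hn => hA.conj_mem n hn g
        have hconj' : ∀ n ∈ A, g⁻¹ * n * g ∈ A := fun n hn => by
          have := hA.conj_mem n hn g⁻¹
          rwa [inv_inv] at this
        have hmemM : ∀ n : A, (n : G) ∈ M.map A.subtype ↔ n ∈ M := by
          intro n
          constructor
          · rintro ⟨m, hm, hmn⟩
            have : m = n := Subtype.ext hmn
            rw [← this]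
            exact hm
          · intro hn
            exact ⟨n, hn, rfl⟩
        refine Finset.sum_bij' (fun n _ => (⟨m1 * (g * n * g⁻¹) * m2⁻¹,
            A.mul_mem (A.mul_mem hm1A (hconj n n.2)) (A.inv_mem hm2A)⟩ : A))
          (fun n _ => (⟨g⁻¹ * (m1⁻¹ * n * m2) * g,
            hconj' _ (A.mul_mem (A.mul_mem (A.inv_mem hm1A) n.2) hm2A)⟩ : A)) ?_ ?_ ?_ ?_ ?_
        · intro n hn
          rw [Finset.mem_filter] at hn ⊢
          refine ⟨Finset.mem_univ _, ?_⟩
          rw [Subgroup.mem_subgroupOf]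
          exact Subgroup.mul_mem _ (Subgroup.mul_mem _ hm1 (conj_mem_cj.2 ((hmemM n).2 hn.2)))
            (Subgroup.inv_mem _ hm2)
        · intro n hn
          rw [Finset.mem_filter] at hn ⊢
          refine ⟨Finset.mem_univ _, ?_⟩
          rw [← hmemM]
          have h4 := hn.2
          rw [Subgroup.mem_subgroupOf] at h4
          exact mem_cj.1 (Subgroup.mul_mem _ (Subgroup.mul_mem _ (Subgroup.inv_mem _ hm1) h4) hm2)
        · intro n _
          apply Subtype.ext
          show g⁻¹ * (m1⁻¹ * (m1 * (g * n * g⁻¹) * m2⁻¹) * m2) * g = n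
          group
        · intro n _
          apply Subtype.ext
          show m1 * (g * (g⁻¹ * (m1⁻¹ * n * m2) * g) * g⁻¹) * m2⁻¹ = n
          group
        · intro n _
          have h1 : Ph G x x' x ((n : G) • x') ↔
              Ph G x x' x1 ((m1 * (g * n * g⁻¹) * m2⁻¹ : G) • x1') := by
            have e1 : (m1 * (g * n * g⁻¹) * m2⁻¹ : G) • x1' = (m1 * g) • (n : G) • x' := by
              rw [← hm2x]
              simp only [← mul_smul]
              congr 1
              group
            rw [e1, ← hm1x, ← mul_smul, Ph_smul]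
          show (if _ then 1 else 0) = (if _ then 1 else 0)
          exact if_congr h1 rfl rfl) (by
      intro M M' hDM hM hDM' hM' hτ
      obtain ⟨hM1, hM1'⟩ := hMx M hDM hM
      obtain ⟨hg, hg'⟩ := hgM M hDM hM
      obtain ⟨⟨m1, hm1, hm1x⟩, hMx1⟩ := hmv x x1 hvx hx1 _ (gM M) hM1 hg
      obtain ⟨hN1, hN1'⟩ := hMx M' hDM' hM'
      obtain ⟨hk, hk'⟩ := hgM M' hDM' hM'
      obtain ⟨⟨k1, hk1, hk1x⟩, hNx1⟩ := hmv x x1 hvx hx1 _ (gM M') hN1 hk
      have h4 : cj (gM M) (M.map A.subtype) = cj (gM M') (M'.map A.subtype) := by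
        have h5 := Subgroup.subgroupOf_inj.1 hτ
        rwa [inf_eq_left.2 hMx1.2.1, inf_eq_left.2 hNx1.2.1] at h5
      have h5 : R.H .hy (hv (M.map A.subtype) x) = R.H .hy (hv (M'.map A.subtype) x) := by
        rw [hg, hk, smul_hv, smul_hv, ← h4]
        unfold hv
        have h6 : orb (cj (gM M) (M.map A.subtype)) (gM M • x) =
            orb (cj (gM M) (M.map A.subtype)) x1 := by
          rw [← hm1x]
          exact (orb_eq (smul_mem_orb hm1 _)).symm
        have h7 : orb (cj (gM M) (M.map A.subtype)) (gM M' • x) =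
            orb (cj (gM M) (M.map A.subtype)) x1 := by
          rw [h4, ← hk1x]
          exact (orb_eq (smul_mem_orb hk1 _)).symm
        rw [h6, h7]
      have h6 := R.inj .hy _ _ ⟨x, _, hM1, rfl⟩ ⟨x, _, hN1, rfl⟩ h5
      have h7 : M.map A.subtype = M'.map A.subtype := congrArg Nd.M h6
      exact Subgroup.map_injective A.subtype_injective h7)
  -- the conclusion
  have hmemD : ∀ n ∈ D, f1 n = 1 := by
    intro n hn
    have h1 : Ph G x x' x ((n : G) • x') :=
      (Ph_D hs hn (mem_orb_self A x) (mem_orb_self A x')).2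
        ⟨1, one_smul _ _, one_smul _ _⟩
    exact if_pos h1
  have hpos : 0 < ∑ n ∈ Finset.univ.filter (fun n => n ∈ D), f1 n := by
    rw [Finset.sum_congr rfl fun n hn => hmemD n (Finset.mem_filter.1 hn).2]
    rw [Finset.sum_const, smul_eq_mul, mul_one, Finset.card_pos]
    exact ⟨1, Finset.mem_filter.2 ⟨Finset.mem_univ _, D.one_mem⟩⟩
  have hPh : Ph G x x' x1 x1' := by
    by_contra hno
    have h1 : ∀ n ∈ D, f2 n = 0 := by
      intro n hn
      have h2 : ¬ Ph G x x' x1 ((n : G) • x1') := by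
        intro h3
        exact hno ((Ph_D hs hn ho ho').1 h3)
      exact if_neg h2
    rw [key, Finset.sum_congr rfl fun n hn => h1 n (Finset.mem_filter.1 hn).2,
      Finset.sum_const_zero] at hpos
    exact lt_irrefl _ hpos
  obtain ⟨g, h1, h2⟩ := hPh
  exact ⟨g, by rw [hx1, smul_pv, h1], by rw [hx1', smul_pv, h2]⟩

/-- **An automorphism moves pairs of points inside their orbits.** -/
theorem four (R : Raw p A side (Mks A S))
    (hside : ∀ (g : G) x, side (g • x) = side x) {x x' : X}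
    (h0 : side x = true) (h0' : side x' = false) (hm : ∃ n ∈ A, n • x ≠ x)
    (hm' : ∃ n ∈ A, n • x' ≠ x') :
    ∃ g : G, R.H .pt (pv x) = g • pv x ∧ R.H .pt (pv x') = g • pv x' := by
  have hA := hs.nA
  obtain ⟨g0, h1, h2⟩ := R.pair (ov A x) (ov A x') (.inl ⟨x, rfl⟩) (.inl ⟨x', rfl⟩)
    ((sdA_orb hside A x).2 h0) (by
      intro h
      have := (sdA_orb hside A x').1 h
      rw [h0'] at this
      exact absurd this (by simp))
  have hMk : ∀ (g : G) i (v w : Nd G X), Mks A S i v w → Mks A S i (g • v) (g • w) :=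
    fun g i v w h => Mks_smul g i v w h
  obtain ⟨g, h7, h8⟩ := four_fixed hs hS (R.smul hs hside hMk g0⁻¹) hside h0 h0' hm hm' (by
    show g0⁻¹ • R.T (ov A x) = _
    rw [h1, inv_smul_smul]) (by
    show g0⁻¹ • R.T (ov A x') = _
    rw [h2, inv_smul_smul])
  have h7' : g0⁻¹ • R.H .pt (pv x) = g • pv x := h7
  have h8' : g0⁻¹ • R.H .pt (pv x') = g • pv x' := h8
  rw [inv_smul_eq_iff] at h7' h8'
  exact ⟨g0 * g, by rw [h7', mul_smul], by rw [h8', mul_smul]⟩

end Raw

end Pool.Agent.SV
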