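import Pool.Agent.Lib_helper73.VG.Gad

/-!
# From a structure with binary relations to a graph: few layers

With `s + 2` layers of the nodes, one relation can be coded for every pair of layers which are not
consecutive, so `s (s + 1) / 2` relations altogether.
-/

set_option autoImplicit false

namespace Pool.Agent.VG

/-- the pairs of layers `(i, j + 2)`, `i ≤ j < s` -/
abbrev Pr (s : ℕ) : Type := Σ j : Fin s, Fin (j.1 + 1)

theorem card_Pr (s : ℕ) : Fintype.card (Pr s) * 2 = s * (s + 1) := by
  rw [Fintype.card_sigma]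
  simp only [Fintype.card_fin]
  rw [Fin.sum_univ_eq_sum_range (fun i => i + 1) s]
  induction s with
  | zero => rfl
  | succ s ih =>
    rw [Finset.sum_range_succ, add_mul, ih]
    ring

namespace Wt

variable {N : Type} {s : ℕ}

/-- edges between the layers `i < j` -/
def lay2 (rels : Pr s → N → N → Prop) (x : N) (i : Fin (s + 2)) (y : N) (j : Fin (s + 2)) : Prop :=
  (j.1 = i.1 + 1 ∧ x = y) ∨ ∃ k : Pr s, i.1 = k.2.1 ∧ j.1 = k.1.1 + 2 ∧ rels k x y

/-- half of the adjacency relation -/
def half2 (rels : Pr s → N → N → Prop) : Wt N s → Wt N s → Prop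
  | p, z => True
  | z, v _ _ => True
  | q i, q j => i ≠ j
  | q i, v _ j => j ≤ i
  | v x i, v y j => lay2 rels x i y j
  | _, _ => False

theorem lay2_lt {rels : Pr s → N → N → Prop} {x : N} {i : Fin (s + 2)} {y : N} {j : Fin (s + 2)}
    (h : lay2 rels x i y j) : i.1 < j.1 := by
  rcases h with ⟨h, -⟩ | ⟨k, h1, h2, -⟩
  · omega
  · have := k.2.2
    omega

/-- the graph -/
def gr2 (rels : Pr s → N → N → Prop) : SimpleGraph (Wt N s) where
  Adj a b := half2 rels a b ∨ half2 rels b a
  symm := ⟨fun _ _ h => h.symm⟩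
  loopless := ⟨by
    rintro (_ | _ | i | ⟨x, i⟩) h
    · rcases h with h | h <;> exact h
    · rcases h with h | h <;> exact h
    · rcases h with h | h <;> exact h rfl
    · rcases h with h | h <;> exact absurd (lay2_lt h) (lt_irrefl _)⟩

theorem lift_adj2 {rels : Pr s → N → N → Prop} {h : Equiv.Perm N}
    (hh : ∀ k x y, rels k (h x) (h y) ↔ rels k x y) (a b : Wt N s) :
    (gr2 rels).Adj (lift h a) (lift h b) ↔ (gr2 rels).Adj a b := by
  have key : ∀ a b : Wt N s, half2 rels (lift h a) (lift h b) ↔ half2 rels a b := by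
    intro a b
    rcases a with _ | _ | i | ⟨x, i⟩ <;> rcases b with _ | _ | j | ⟨y, j⟩ <;>
      try exact Iff.rfl
    show lay2 rels (h x) i (h y) j ↔ lay2 rels x i y j
    unfold lay2
    simp only [h.injective.eq_iff, hh]
  show half2 rels _ _ ∨ half2 rels _ _ ↔ half2 rels _ _ ∨ half2 rels _ _
  rw [key, key]

section

variable [Nonempty N] {rels : Pr s → N → N → Prop} {σ : Equiv.Perm (Wt N s)}

theorem adj_p2 {a : Wt N s} : (gr2 rels).Adj p a ↔ a = z := by
  rcases a with _ | _ | i | ⟨x, i⟩ <;> simp [gr2, half2]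

theorem adj_z2 {a : Wt N s} : (gr2 rels).Adj z a ↔ a = p ∨ ∃ x i, a = v x i := by
  rcases a with _ | _ | i | ⟨x, i⟩ <;> simp [gr2, half2]

theorem adj_qv2 {i j : Fin (s + 2)} {x : N} : (gr2 rels).Adj (q i) (v x j) ↔ j ≤ i := by
  simp [gr2, half2]

theorem adj_vv2 {i j : Fin (s + 2)} {x y : N} (h : i < j) :
    (gr2 rels).Adj (v x i) (v y j) ↔ lay2 rels x i y j := by
  show lay2 rels x i y j ∨ lay2 rels y j x i ↔ _
  constructor
  · rintro (h1 | h1)
    · exact h1
    · exact absurd (lay2_lt h1) (not_lt.2 (le_of_lt h))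
  · exact Or.inl

theorem leaf2 {a : Wt N s} (h : ∀ u u', (gr2 rels).Adj a u → (gr2 rels).Adj a u' → u = u') :
    a = p := by
  obtain ⟨x⟩ := ‹Nonempty N›
  rcases a with _ | _ | i | ⟨y, i⟩
  · rfl
  · exfalso
    have := h p (v x 0) (by simp [gr2, half2]) (by simp [gr2, half2])
    cases this
  · exfalso
    have hj : ∃ j : Fin (s + 2), j ≠ i := exists_ne i
    obtain ⟨j, hj⟩ := hj
    have := h (v x 0) (q j) (by simp [gr2, half2]) (by simp [gr2, half2, hj, hj.symm])
    cases this
  · exfalso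
    have := h z (q (Fin.last _)) (by simp [gr2, half2]) (by simp [gr2, half2, Fin.le_last])
    cases this

variable (hσ : ∀ a b, (gr2 rels).Adj (σ a) (σ b) ↔ (gr2 rels).Adj a b)

include hσ

theorem fix_p2 : σ p = p := by
  refine leaf2 (rels := rels) fun u u' h1 h2 => ?_
  obtain ⟨w, rfl⟩ := σ.surjective u
  obtain ⟨w', rfl⟩ := σ.surjective u'
  rw [hσ, adj_p2] at h1 h2
  rw [h1, h2]

theorem fix_z2 : σ z = z := by
  have h := (hσ p z).2 (adj_p2.2 rfl)
  rw [fix_p2 hσ, adj_p2] at h
  exact h

theorem map_v2 (x : N) (i : Fin (s + 2)) : ∃ y j, σ (v x i) = v y j := by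
  have h := (hσ z (v x i)).2 (adj_z2.2 (Or.inr ⟨x, i, rfl⟩))
  rw [fix_z2 hσ, adj_z2] at h
  rcases h with h | h
  · exfalso
    have h2 : σ (v x i) = σ p := by rw [h, fix_p2 hσ]
    exact absurd (σ.injective h2) (by simp)
  · exact h

theorem map_q2 (i : Fin (s + 2)) : ∃ j, σ (q i) = q j := by
  rcases h : σ (q i) with _ | _ | j | ⟨y, j⟩
  · have h2 : σ (q i) = σ p := by rw [h, fix_p2 hσ]
    exact absurd (σ.injective h2) (by simp)
  · have h2 : σ (q i) = σ z := by rw [h, fix_z2 hσ]
    exact absurd (σ.injective h2) (by simp)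
  · exact ⟨j, rfl⟩
  · exfalso
    have h2 : (gr2 rels).Adj z (σ (q i)) := by
      rw [h, adj_z2]
      exact Or.inr ⟨y, j, rfl⟩
    rw [← fix_z2 hσ, hσ, adj_z2] at h2
    rcases h2 with h2 | ⟨_, _, h2⟩ <;> cases h2

theorem fix_q2 (i : Fin (s + 2)) : σ (q i) = q i := by
  classical
  choose τ hτ using map_q2 hσ
  have hle : ∀ i j, i ≤ j ↔ ∀ x l, (gr2 rels).Adj (q i) (v x l) → (gr2 rels).Adj (q j) (v x l) := by
    intro i j
    constructor
    · intro h x l h1
      rw [adj_qv2] at h1 ⊢
      exact h1.trans h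
    · intro h
      obtain ⟨x⟩ := ‹Nonempty N›
      exact adj_qv2.1 (h x i (adj_qv2.2 le_rfl))
  have hmono : ∀ i j, i ≤ j → τ i ≤ τ j := by
    intro i j h
    rw [hle]
    intro x l h1
    obtain ⟨w, hw⟩ := σ.surjective (v x l)
    have hw' : ∃ y m, w = v y m := by
      rcases w with _ | _ | m | ⟨y, m⟩
      · rw [fix_p2 hσ] at hw
        cases hw
      · rw [fix_z2 hσ] at hw
        cases hw
      · obtain ⟨m', hm'⟩ := map_q2 hσ m
        rw [hm'] at hw
        cases hw
      · exact ⟨y, m, rfl⟩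
    obtain ⟨y, m, rfl⟩ := hw'
    rw [← hw, ← hτ, hσ] at h1 ⊢
    exact (hle i j).1 h y m h1
  have hinj : Function.Injective τ := by
    intro i j h
    have : σ (q i) = σ (q j) := by rw [hτ, hτ, h]
    have := σ.injective this
    simpa using this
  have hs : StrictMono τ :=
    (show Monotone τ from fun i j h => hmono i j h).strictMono_of_injective hinj
  have hbij : Function.Bijective τ := Finite.injective_iff_bijective.1 hinj
  have hid : τ = id := by
    have e : Fin (s + 2) ≃o Fin (s + 2) := StrictMono.orderIsoOfSurjective τ hs hbij.2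
    have h1 : StrictMono.orderIsoOfSurjective τ hs hbij.2 = OrderIso.refl _ :=
      Subsingleton.elim _ _
    funext i
    have := congrArg (fun f : Fin (s + 2) ≃o Fin (s + 2) => f i) h1
    exact this
  rw [hτ, hid]
  rfl

theorem map_v2' (x : N) (i : Fin (s + 2)) : ∃ y, σ (v x i) = v y i := by
  obtain ⟨y, j, h⟩ := map_v2 hσ x i
  have h1 : ∀ l, j ≤ l ↔ i ≤ l := by
    intro l
    rw [← adj_qv2 (rels := rels) (x := y), ← adj_qv2 (rels := rels) (x := x), ← h]
    conv_lhs => rw [← fix_q2 hσ l]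
    exact hσ _ _
  have h2 : j = i := le_antisymm ((h1 i).2 le_rfl) ((h1 j).1 le_rfl)
  rw [h2] at h
  exact ⟨y, h⟩

theorem exists_perm2 : ∃ h : Equiv.Perm N, (∀ k x y, rels k (h x) (h y) ↔ rels k x y) ∧
    σ = lift h := by
  choose f hf using map_v2' hσ
  have hinj : ∀ i, Function.Injective fun x => f x i := by
    intro i x y h
    have h1 : σ (v x i) = σ (v y i) := by
      rw [hf, hf]
      exact congrArg (fun t => v t i) h
    have := σ.injective h1
    simpa using this
  have hsurj : ∀ i, Function.Surjective fun x => f x i := by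
    intro i y
    obtain ⟨w, hw⟩ := σ.surjective (v y i)
    rcases w with _ | _ | m | ⟨x, m⟩
    · rw [fix_p2 hσ] at hw
      cases hw
    · rw [fix_z2 hσ] at hw
      cases hw
    · rw [fix_q2 hσ] at hw
      cases hw
    · rw [hf] at hw
      injection hw with h1 h2
      subst h2
      exact ⟨x, h1⟩
  -- all layers are moved in the same way
  have hstep : ∀ (i : ℕ) (hi : i < s + 2) (x : N), f x ⟨i, hi⟩ = f x 0 := by
    intro i
    induction i with
    | zero => intro _ x; rfl
    | succ i ih =>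
      intro hi x
      rw [← ih (by omega) x]
      have hlt : (⟨i, by omega⟩ : Fin (s + 2)) < ⟨i + 1, hi⟩ := by
        rw [Fin.lt_def]
        exact Nat.lt_succ_self i
      have h1 : (gr2 rels).Adj (v x ⟨i, by omega⟩) (v x ⟨i + 1, hi⟩) :=
        (adj_vv2 hlt).2 (Or.inl ⟨rfl, rfl⟩)
      rw [← hσ, hf, hf, adj_vv2 hlt] at h1
      rcases h1 with ⟨-, h1⟩ | ⟨k, h1, hk, -⟩
      · exact h1.symm
      · exfalso
        have h2 := k.2.2
        simp only at h1 hk
        omega
  refine ⟨Equiv.ofBijective (fun x => f x 0) ⟨hinj 0, hsurj 0⟩, ?_, ?_⟩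
  · intro k x y
    have hk2 := k.2.2
    have hk1 := k.1.2
    have hlt : (⟨k.2.1, by omega⟩ : Fin (s + 2)) < ⟨k.1.1 + 2, by omega⟩ := by
      rw [Fin.lt_def]
      show k.2.1 < k.1.1 + 2
      omega
    have h1 : ∀ x y : N, (gr2 rels).Adj (v x ⟨k.2.1, by omega⟩) (v y ⟨k.1.1 + 2, by omega⟩) ↔
        rels k x y := by
      intro x y
      rw [adj_vv2 hlt]
      constructor
      · rintro (⟨h1, -⟩ | ⟨k', h1, h2, h3⟩)
        · exfalso
          have h1' : k.1.1 + 2 = k.2.1 + 1 := h1
          omega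
        · have h1' : k.2.1 = k'.2.1 := h1
          have h2' : k.1.1 + 2 = k'.1.1 + 2 := h2
          have e : k' = k := by
            obtain ⟨a, b⟩ := k
            obtain ⟨a', b'⟩ := k'
            have e1 : a' = a := Fin.ext (by
              have : a.1 + 2 = a'.1 + 2 := h2'
              omega)
            subst e1
            have e2 : b' = b := Fin.ext h1'.symm
            rw [e2]
          rw [← e]
          exact h3
      · intro h
        exact Or.inr ⟨k, rfl, rfl, h⟩
    show rels k (f x 0) (f y 0) ↔ rels k x y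
    rw [← h1, ← h1 x y, ← hσ (v x _), hf, hf, hstep k.2.1 _ x, hstep (k.1.1 + 2) _ y]
  · ext a
    rcases a with _ | _ | i | ⟨x, i⟩
    · rw [fix_p2 hσ]; rfl
    · rw [fix_z2 hσ]; rfl
    · rw [fix_q2 hσ]; rfl
    · rw [hf]
      show v (f x i) i = v (f x 0) i
      rw [← hstep i.1 i.2 x]

end

end Wt

open Wt

theorem gadget_pr {G N : Type} [Group G] [MulAction G N] [Nonempty N] [Finite N] {s : ℕ}
    (rels : Pr s → N → N → Prop) (hfaith : ∀ g : G, (∀ x : N, g • x = x) → g = 1)
    (hinv : ∀ (g : G) k x y, rels k (g • x) (g • y) ↔ rels k x y)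
    (hfull : ∀ h : Equiv.Perm N, (∀ k x y, rels k (h x) (h y) ↔ rels k x y) →
      ∃ g : G, ∀ x, h x = g • x) :
    ∃ (m : ℕ) (Γ : SimpleGraph (Fin m)) (ψ : G →* Equiv.Perm (Fin m)),
      Function.Injective ⇑ψ ∧
      (∀ σ : Equiv.Perm (Fin m),
        (∀ x y : Fin m, Γ.Adj (σ x) (σ y) ↔ Γ.Adj x y) ↔ σ ∈ Set.range ⇑ψ) ∧
      m = (s + 2) * (Nat.card N + 1) + 2 := by
  classical
  have hfin : Finite (Wt N s) := Finite.of_equiv _ toSum.symm
  set m := Nat.card (Wt N s) with hm
  let e : Wt N s ≃ Fin m := Finite.equivFin _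
  let L : G →* Equiv.Perm (Wt N s) :=
    { toFun := fun g => lift (MulAction.toPerm g)
      map_one' := by
        ext a
        rcases a with _ | _ | i | ⟨x, i⟩
        · rfl
        · rfl
        · rfl
        · show v ((1 : G) • x) i = v x i
          rw [one_smul]
      map_mul' := fun g g' => by
        ext a
        rcases a with _ | _ | i | ⟨x, i⟩
        · rfl
        · rfl
        · rfl
        · show v ((g * g') • x) i = v (g • g' • x) i
          rw [mul_smul] }
  have hL : ∀ g, L g = lift (MulAction.toPerm g) := fun _ => rfl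
  refine ⟨m, (gr2 rels).map e.toEmbedding, (e.permCongrHom.toMonoidHom).comp L, ?_, ?_, ?_⟩
  · rw [injective_iff_map_eq_one]
    intro g hg
    apply hfaith
    intro x
    have h1 : e.permCongr (L g) = 1 := hg
    have h2 : L g (v x 0) = v x 0 := by
      have h3 := congrArg (fun σ : Equiv.Perm (Fin m) => e.symm (σ (e (v x 0)))) h1
      simpa using h3
    have h3 : (v (g • x) 0 : Wt N s) = v x 0 := h2
    injection h3
  · intro σ
    have hadj : ∀ x y : Fin m, ((gr2 rels).map e.toEmbedding).Adj x y ↔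
        (gr2 rels).Adj (e.symm x) (e.symm y) := by
      intro x y
      rw [SimpleGraph.map_adj]
      constructor
      · rintro ⟨a, b, h, rfl, rfl⟩
        simpa using h
      · intro h
        exact ⟨_, _, h, by simp, by simp⟩
    simp only [hadj]
    constructor
    · intro h
      set τ : Equiv.Perm (Wt N s) := e.symm.permCongr σ with hτ
      have hτa : ∀ a b, (gr2 rels).Adj (τ a) (τ b) ↔ (gr2 rels).Adj a b := by
        intro a b
        have h1 := h (e a) (e b)
        simpa [hτ, Equiv.permCongr_apply] using h1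
      obtain ⟨k, hk1, hk2⟩ := exists_perm2 hτa
      obtain ⟨g, hg⟩ := hfull k hk1
      refine ⟨g, ?_⟩
      have h2 : k = MulAction.toPerm g := Equiv.ext hg
      show e.permCongr (L g) = σ
      rw [hL, ← h2, ← hk2, hτ]
      ext x
      simp [Equiv.permCongr_apply]
    · rintro ⟨g, rfl⟩ x y
      have h1 : ∀ z : Fin m, e.symm (((e.permCongrHom.toMonoidHom).comp L) g z) =
          L g (e.symm z) := by
        intro z
        show e.symm (e.permCongr (L g) z) = _
        simp [Equiv.permCongr_apply]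
      rw [h1, h1, hL]
      exact lift_adj2 (fun k x y => hinv g k x y) _ _
  · rw [hm, card_eq]

/-- **Gadgets with few layers.** A structure with at most `s (s + 1) / 2` binary relations whose
automorphisms are the elements of a group `G` gives a graph with `s + 2` layers. -/
theorem gadget2 {G N κ : Type} [Group G] [MulAction G N] [Nonempty N] [Finite N] [Fintype κ]
    {s : ℕ} (hκ : Fintype.card κ * 2 ≤ s * (s + 1))
    (rels : κ → N → N → Prop) (hfaith : ∀ g : G, (∀ x : N, g • x = x) → g = 1)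
    (hinv : ∀ (g : G) k x y, rels k (g • x) (g • y) ↔ rels k x y)
    (hfull : ∀ h : Equiv.Perm N, (∀ k x y, rels k (h x) (h y) ↔ rels k x y) →
      ∃ g : G, ∀ x, h x = g • x) :
    ∃ (m : ℕ) (Γ : SimpleGraph (Fin m)) (ψ : G →* Equiv.Perm (Fin m)),
      Function.Injective ⇑ψ ∧
      (∀ σ : Equiv.Perm (Fin m),
        (∀ x y : Fin m, Γ.Adj (σ x) (σ y) ↔ Γ.Adj x y) ↔ σ ∈ Set.range ⇑ψ) ∧
      m = (s + 2) * (Nat.card N + 1) + 2 := by
  have h1 : Fintype.card κ ≤ Fintype.card (Pr s) := by
    have := card_Pr s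
    omega
  obtain ⟨e⟩ := Function.Embedding.nonempty_of_card_le h1
  refine gadget_pr (fun k x y => ∃ l, e l = k ∧ rels l x y) hfaith (fun g k x y => ?_)
    fun h hh => hfull h fun k x y => ?_
  · constructor
    · rintro ⟨l, h2, h3⟩
      exact ⟨l, h2, (hinv g l x y).1 h3⟩
    · rintro ⟨l, h2, h3⟩
      exact ⟨l, h2, (hinv g l x y).2 h3⟩
  · have h2 : ∀ x y, (∃ l, e l = e k ∧ rels l x y) ↔ rels k x y := by
      intro x y
      constructor
      · rintro ⟨l, h3, h4⟩
        rwa [e.injective h3] at h4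
      · intro h3
        exact ⟨k, rfl, h3⟩
    rw [← h2, ← h2]
    exact hh (e k) x y

end Pool.Agent.VG
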