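import Pool.Agent.Lib_helper73.SV.Bits

/-!
# Steps with bounded factors
-/

set_option autoImplicit false
set_option linter.unusedSectionVars false

namespace Pool.Agent.SV

variable {G : Type} [Group G] {X : Type} [MulAction G X] {N A : Subgroup G}

/-- the set of orbits -/
abbrev OX (A : Subgroup G) (X : Type) [MulAction G X] : Type := {v : Nd G X // ∃ x, v = ov A x}

/-- the action on the orbits -/
@[reducible] def actOX (A : Subgroup G) [A.Normal] : MulAction G (OX A X) where
  smul g t := ⟨g • t.1, by
    obtain ⟨x, hx⟩ := t.2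
    exact ⟨g • x, by rw [hx, smul_ov]⟩⟩
  one_smul t := Subtype.ext (one_smul G t.1)
  mul_smul g g' t := Subtype.ext (mul_smul g g' t.1)

/-- moved points -/
abbrev Mv (A : Subgroup G) (X : Type) [MulAction G X] : Type := {x : X // ∃ n ∈ A, n • x ≠ x}

/-- the action on the moved points -/
@[reducible] def actMv (A : Subgroup G) [A.Normal] : MulAction G (Mv A X) where
  smul g t := ⟨g • t.1, moved_smul t.2 g⟩
  one_smul t := Subtype.ext (one_smul G t.1)
  mul_smul g g' t := Subtype.ext (mul_smul g g' t.1)

open Classical in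
theorem card_OX [Finite G] [Finite X] :
    2 * Nat.card (OX A X) + Nat.card (Mv A X) ≤ 2 * Nat.card X := by
  have := Fintype.ofFinite X
  have := Fintype.ofFinite (Nd G X)
  rw [Nat.card_eq_fintype_card, Fintype.card_subtype, Nat.card_eq_fintype_card,
    Fintype.card_subtype, Nat.card_eq_fintype_card, ← Finset.card_univ]
  have ho : ∀ x : X, orb A x ∈ Finset.univ.image (orb A : X → Set X) := fun x =>
    Finset.mem_image_of_mem _ (Finset.mem_univ x)
  rw [Finset.card_eq_sum_card_fiberwise (f := (orb A : X → Set X))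
      (s := (Finset.univ : Finset X)) (t := Finset.univ.image (orb A : X → Set X))
      (fun x _ => ho x),
    Finset.card_eq_sum_card_fiberwise (f := (orb A : X → Set X))
      (s := Finset.univ.filter fun x : X => ∃ n ∈ A, n • x ≠ x)
      (t := Finset.univ.image (orb A : X → Set X)) (fun x _ => ho x),
    Finset.card_eq_sum_card_fiberwise (f := (Nd.A : Nd G X → Set X))
      (s := Finset.univ.filter fun v : Nd G X => ∃ x, v = ov A x)
      (t := Finset.univ.image (orb A : X → Set X)) (by
        intro v hv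
        obtain ⟨x, rfl⟩ := (Finset.mem_filter.1 hv).2
        exact ho x), Finset.mul_sum, Finset.mul_sum, ← Finset.sum_add_distrib]
  refine Finset.sum_le_sum fun B hB => ?_
  obtain ⟨x, -, rfl⟩ := Finset.mem_image.1 hB
  have h2 : ((Finset.univ.filter fun v : Nd G X => ∃ x, v = ov A x).filter
      fun v => v.A = orb A x).card ≤ 1 := by
    rw [Finset.card_le_one]
    have h3 : ∀ v ∈ ((Finset.univ.filter fun v : Nd G X => ∃ x, v = ov A x).filter
        fun v => v.A = orb A x), v = ov A x := by
      intro v hv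
      rw [Finset.mem_filter, Finset.mem_filter] at hv
      obtain ⟨⟨-, y, rfl⟩, h5⟩ := hv
      have h5' : orb A y = orb A x := h5
      unfold ov
      rw [h5']
    intro v hv w hw
    rw [h3 v hv, h3 w hw]
  have h4 : ((Finset.univ.filter fun x : X => ∃ n ∈ A, n • x ≠ x).filter
      fun y => orb A y = orb A x).card ≤
      (Finset.univ.filter fun y : X => orb A y = orb A x).card := by
    apply Finset.card_le_card
    intro y hy
    rw [Finset.mem_filter] at hy ⊢
    exact ⟨Finset.mem_univ _, hy.2⟩
  have h5 : 1 ≤ (Finset.univ.filter fun y : X => orb A y = orb A x).card := by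
    rw [Finset.one_le_card]
    exact ⟨x, Finset.mem_filter.2 ⟨Finset.mem_univ _, rfl⟩⟩
  by_cases hmv : ∃ n ∈ A, n • x ≠ x
  · obtain ⟨n, hn, h6⟩ := hmv
    have h7 : 1 < (Finset.univ.filter fun y : X => orb A y = orb A x).card := by
      rw [Finset.one_lt_card]
      exact ⟨n • x, Finset.mem_filter.2 ⟨Finset.mem_univ _, orb_eq (smul_mem_orb hn x)⟩, x,
        Finset.mem_filter.2 ⟨Finset.mem_univ _, rfl⟩, h6⟩
    omega
  · by_cases hall : ((Finset.univ.filter fun x : X => ∃ n ∈ A, n • x ≠ x).filter
      fun y => orb A y = orb A x) = ∅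
    · rw [hall, Finset.card_empty]
      omega
    · exfalso
      obtain ⟨y, hy⟩ := Finset.nonempty_iff_ne_empty.2 hall
      rw [Finset.mem_filter, Finset.mem_filter] at hy
      obtain ⟨⟨-, n, hn, h6⟩, h7⟩ := hy
      push Not at hmv
      obtain ⟨m, hm, rfl⟩ := orb_eq_iff.1 h7
      apply h6
      rw [hmv m hm]
      exact hmv n hn

/-- **Steps with bounded factors.** -/
theorem controls_small [Finite G] {b K : ℕ} (hb : 2 ≤ b) (hA : A.Normal)
    (hidx : N.relIndex A ≤ 2 ^ b ∨ K ≤ 2 ^ b) (hC : Controls b K A) : Controls b K N := by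
  classical
  intro X _ _ side hXK hside htriv ⟨xt, hxt⟩ ⟨xf, hxf⟩
  let _ : MulAction G (OX A X) := actOX A
  have : Finite (OX A X) := inferInstanceAs (Finite {v : Nd G X // ∃ x, v = ov A x})
  let _ : MulAction G (Mv A X) := actMv A
  have : Finite (Mv A X) := inferInstanceAs (Finite {x : X // ∃ n ∈ A, n • x ≠ x})
  have hsdo : ∀ x : X, (∃ y ∈ orb A x, side y = true) ↔ side x = true := by
    intro x
    constructor
    · rintro ⟨_, ⟨n, -, rfl⟩, h⟩
      rwa [hside] at h
    · intro h
      exact ⟨x, mem_orb_self A x, h⟩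
  let side' : OX A X → Bool := fun v => decide (∃ y ∈ v.1.A, side y = true)
  let oX : X → OX A X := fun x => ⟨ov A x, x, rfl⟩
  have hoX : ∀ (g : G) x, oX (g • x) = g • oX x := fun g x => Subtype.ext (smul_ov g A x).symm
  have hos : ∀ x, side' (oX x) = side x := by
    intro x
    have h1 := hsdo x
    by_cases hx : side x = true
    · rw [hx]
      exact decide_eq_true (h1.2 hx)
    · have hx' : side x = false := by simpa using hx
      rw [hx']
      exact decide_eq_false fun h => hx (h1.1 h)
  have hoall : ∀ u : OX A X, ∃ x, oX x = u := by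
    rintro ⟨v, x, rfl⟩
    exact ⟨x, rfl⟩
  have hside' : ∀ (g : G) (v : OX A X), side' (g • v) = side' v := by
    intro g v
    obtain ⟨x, rfl⟩ := hoall v
    rw [← hoX, hos, hos, hside]
  have hoeq : ∀ x y, oX x = oX y ↔ x ∈ orb A y := by
    intro x y
    constructor
    · intro h
      exact orb_eq_iff.1 (congrArg (fun t : OX A X => t.1.A) h)
    · intro h
      apply Subtype.ext
      show ov A x = ov A y
      unfold ov
      rw [orb_eq h]
  obtain ⟨S0, ι', hι', hιg', hP', hF', hcard'⟩ := hC (OX A X) side' (by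
    have h1 : 2 * Nat.card (OX A X) + Nat.card (Mv A X) ≤ 2 * Nat.card X := card_OX
    omega) hside' (by
    intro n hn v
    obtain ⟨x, rfl⟩ := hoall v
    rw [← hoX, hoeq]
    exact smul_mem_orb hn x) ⟨oX xt, by rw [hos]; exact hxt⟩ ⟨oX xf, by rw [hos]; exact hxf⟩
  -- the fibres
  have hfib : ∀ q : OX A X, Nat.card {x // oX x = q} ≤ 2 ^ b := by
    intro q
    rcases hidx with hidx | hidx
    swap
    · refine le_trans ?_ (hXK.trans hidx)
      exact Nat.card_le_card_of_injective _ Subtype.val_injective
    obtain ⟨y, rfl⟩ := hoall q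
    have h1 : Nat.card {x // oX x = oX y} = Nat.card (MulAction.orbit A y) := by
      apply Nat.card_congr
      refine Equiv.subtypeEquivRight fun x => ?_
      rw [hoeq]
      constructor
      · rintro ⟨n, hn, rfl⟩
        exact ⟨⟨n, hn⟩, rfl⟩
      · rintro ⟨n, rfl⟩
        exact ⟨n, n.2, rfl⟩
    have h2 : (N.subgroupOf A) ≤ MulAction.stabilizer A y := by
      intro n hn
      rw [Subgroup.mem_subgroupOf] at hn
      rw [MulAction.mem_stabilizer_iff]
      exact htriv n hn y
    have h3 : (MulAction.stabilizer A y).index ≤ N.relIndex A :=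
      Nat.le_of_dvd (Nat.pos_of_ne_zero Subgroup.index_ne_zero_of_finite)
        (Subgroup.index_dvd_of_le h2)
    rw [MulAction.index_stabilizer] at h3
    rw [h1]
    exact h3.trans hidx
  obtain ⟨MA, hMA1, hMA2⟩ := exists_bits (T := OX A X) oX hoX hfib
  obtain ⟨MB, hMB1, hMB2⟩ := exists_bits (T := X) oX hoX hfib
  let mv : X → Prop := fun x => ∃ n ∈ A, n • x ≠ x
  have hmv : ∀ (g : G) x, mv (g • x) ↔ mv x := by
    intro g x
    refine ⟨fun h => ?_, fun h => moved_smul h g⟩
    have := moved_smul h g⁻¹
    rwa [inv_smul_smul] at this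
  have hfixo : ∀ x y, ¬ mv x → oX y = oX x → y = x := by
    intro x y hx hy
    obtain ⟨n, hn, rfl⟩ := (hoeq y x).1 hy
    by_contra h
    exact hx ⟨n, hn, h⟩
  -- the extension
  let E : Ext S0 :=
    { W := Mv A X
      act := inferInstance
      fin := inferInstance
      code := fun t => if side t.1 = true then 1 else 0
      code_smul := by
        intro g t
        show (if side (g • t.1) = true then 1 else 0) = if side t.1 = true then 1 else 0
        rw [hside]
      Qo := fun k t a => (k.1 = 0 ∧ a = ι' (oX t.1)) ∨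
        (side t.1 = true ∧ ∃ u, side' u = false ∧ a = ι' u ∧ MA k t.1 u) ∨
        (side t.1 = false ∧ ∃ y, side y = true ∧ ¬ mv y ∧ a = ι' (oX y) ∧ MB k t.1 y)
      Qo_smul := by
        rintro g k t a (⟨h1, rfl⟩ | ⟨h1, u, h2, rfl, h3⟩ | ⟨h1, y, h2, h3, rfl, h4⟩)
        · refine .inl ⟨h1, ?_⟩
          rw [← hιg', ← hoX]
          rfl
        · refine .inr (.inl ⟨?_, g • u, ?_, ?_, hMA1 g k _ _ h3⟩)
          · show side (g • t.1) = true
            rw [hside]
            exact h1
          · rw [hside']
            exact h2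
          · rw [hιg']
        · refine .inr (.inr ⟨?_, g • y, ?_, ?_, ?_, hMB1 g k _ _ h4⟩)
          · show side (g • t.1) = false
            rw [hside]
            exact h1
          · rw [hside]
            exact h2
          · rw [hmv]
            exact h3
          · rw [hoX, hιg']
      Qn := fun k t t' => side t.1 = false ∧ side t'.1 = true ∧ MB k t.1 t'.1
      Qn_smul := by
        rintro g k t t' ⟨h1, h2, h3⟩
        refine ⟨?_, ?_, hMB1 g k _ _ h3⟩
        · show side (g • t.1) = false
          rw [hside]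
          exact h1
        · show side (g • t'.1) = true
          rw [hside]
          exact h2 }
  let ι : X → E.str.N := fun x => if hx : mv x then .inr ⟨x, hx⟩ else .inl (ι' (oX x))
  have hι1 : ∀ x (hx : mv x), ι x = .inr ⟨x, hx⟩ := fun x hx => dif_pos hx
  have hι0 : ∀ x, ¬ mv x → ι x = .inl (ι' (oX x)) := fun x hx => dif_neg hx
  have hιinj : Function.Injective ι := by
    intro x y hxy
    by_cases hx : mv x
    · by_cases hy : mv y
      · rw [hι1 x hx, hι1 y hy] at hxy
        exact congrArg Subtype.val (Sum.inr.inj hxy)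
      · rw [hι1 x hx, hι0 y hy] at hxy
        exact absurd hxy (by simp)
    · by_cases hy : mv y
      · rw [hι0 x hx, hι1 y hy] at hxy
        exact absurd hxy (by simp)
      · rw [hι0 x hx, hι0 y hy] at hxy
        exact hfixo y x hy (hι' (Sum.inl.inj hxy))
  have hιg : ∀ (g : G) x, ι (g • x) = g • ι x := by
    intro g x
    by_cases hx : mv x
    · rw [hι1 x hx, hι1 _ ((hmv g x).2 hx)]
      rfl
    · rw [hι0 x hx, hι0 _ (fun h => hx ((hmv g x).1 h)), hoX, hιg']
      rfl
  -- the automorphisms
  have hview : ∀ h, E.str.Aut h → ∃ (z : X → X) (T : OX A X → OX A X),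
      (∀ x, h (ι x) = ι (z x)) ∧ (∀ x, T (oX x) = oX (z x)) ∧
      (∀ u u', side' u = true → side' u' = false → ∃ g : G, T u = g • u ∧ T u' = g • u') ∧
      (∀ k x u, side x = true → mv x → side' u = false → (MA k (z x) (T u) ↔ MA k x u)) ∧
      (∀ k x y, side x = false → mv x → side y = true → (MB k (z x) (z y) ↔ MB k x y)) ∧
      ((∀ u, T u = u) → ∀ a, h (.inl a) = .inl a) := by
    intro h hh
    obtain ⟨h0, h1, hh0, e0, e1, hc, hQo, hQn⟩ := E.aut hh
    have hcs : ∀ t : Mv A X, side (h1 t).1 = side t.1 := by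
      intro t
      have h2 : (if side (h1 t).1 = true then 1 else 0) = if side t.1 = true then 1 else 0 := hc t
      by_cases h3 : side (h1 t).1 = true <;> by_cases h4 : side t.1 = true
      · rw [h3, h4]
      · rw [if_pos h3, if_neg h4] at h2
        omega
      · rw [if_neg h3, if_pos h4] at h2
        omega
      · have h3' : side (h1 t).1 = false := by simpa using h3
        have h4' : side t.1 = false := by simpa using h4
        rw [h3', h4']
    have hTex : ∀ u : OX A X, ∃ g : G, h0 (ι' u) = ι' (g • u) := by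
      intro u
      by_cases h2 : side' u = true
      · obtain ⟨g, h3, -⟩ := hP' h0 hh0 u (oX xf) h2 (by rw [hos]; exact hxf)
        exact ⟨g, h3⟩
      · obtain ⟨g, -, h3⟩ := hP' h0 hh0 (oX xt) u (by rw [hos]; exact hxt) (by simpa using h2)
        exact ⟨g, h3⟩
    choose γ hγ using hTex
    let T : OX A X → OX A X := fun u => γ u • u
    have hT : ∀ u, h0 (ι' u) = ι' (T u) := hγ
    have hTs : ∀ u, side' (T u) = side' u := fun u => hside' _ _
    let z : X → X := fun x => if hx : mv x then (h1 ⟨x, hx⟩).1 else γ (oX x) • x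
    have hz1 : ∀ x (hx : mv x), z x = (h1 ⟨x, hx⟩).1 := fun x hx => dif_pos hx
    have hz0 : ∀ x, ¬ mv x → z x = γ (oX x) • x := fun x hx => dif_neg hx
    have hz1' : ∀ x (hx : mv x), ∃ hy : mv (z x), h1 ⟨x, hx⟩ = ⟨z x, hy⟩ := by
      intro x hx
      have h2 := (h1 ⟨x, hx⟩).2
      rw [← hz1 x hx] at h2
      exact ⟨h2, Subtype.ext (hz1 x hx).symm⟩
    have hzs : ∀ x, side (z x) = side x := by
      intro x
      by_cases hx : mv x
      · rw [hz1 x hx]
        exact hcs ⟨x, hx⟩
      · rw [hz0 x hx, hside]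
    have hzm : ∀ x, mv x → mv (z x) := fun x hx => (hz1' x hx).1
    have hzm' : ∀ x, ¬ mv x → ¬ mv (z x) := fun x hx => by
      rw [hz0 x hx, hmv]
      exact hx
    have hTz : ∀ x, T (oX x) = oX (z x) := by
      intro x
      by_cases hx : mv x
      · obtain ⟨hy, h2⟩ := hz1' x hx
        have h3 := (hQo ⟨0, by omega⟩ ⟨x, hx⟩ (ι' (oX x))).2 (.inl ⟨rfl, rfl⟩)
        rw [h2, hT] at h3
        rcases h3 with ⟨-, h4⟩ | ⟨h4, u, h5, h6, -⟩ | ⟨h4, y, h5, h6, h7, -⟩
        · exact hι' h4
        · exfalso
          have h8 := hι' h6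
          rw [← h8, hTs, hos, ← hzs] at h5
          have h4' : side (z x) = true := h4
          rw [h4'] at h5
          exact absurd h5 (by simp)
        · exfalso
          have h8 := hι' h7
          have h9 := congrArg side' h8
          rw [hTs, hos, hos, ← hzs] at h9
          have h4' : side (z x) = false := h4
          rw [h4', h5] at h9
          exact absurd h9 (by simp)
      · rw [hz0 x hx, hoX]
    refine ⟨z, T, fun x => ?_, hTz, fun u u' hu hu' => ?_, fun k x u hx hm hu => ?_,
      fun k x y hx hm hy => ?_, fun hall a => ?_⟩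
    · by_cases hx : mv x
      · obtain ⟨hy, h2⟩ := hz1' x hx
        rw [hι1 x hx, e1, h2, hι1 _ hy]
      · rw [hι0 x hx, e0, hT, hTz, hι0 _ (hzm' x hx)]
    · obtain ⟨g, h2, h3⟩ := hP' h0 hh0 u u' hu hu'
      rw [hT] at h2 h3
      exact ⟨g, hι' h2, hι' h3⟩
    · have key : ∀ (t : Mv A X) (w : OX A X), side t.1 = true → side' w = false →
          (E.Qo k t (ι' w) ↔ MA k t.1 w) := by
        intro t w ht hw
        constructor
        · rintro (⟨-, h4⟩ | ⟨h4, u, h5, h6, h7⟩ | ⟨h4, -⟩)
          · exfalso
            rw [hι' h4, hos, ht] at hw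
            exact absurd hw (by simp)
          · rw [hι' h6]
            exact h7
          · rw [ht] at h4
            exact absurd h4 (by simp)
        · intro h4
          exact .inr (.inl ⟨ht, w, hw, rfl, h4⟩)
      obtain ⟨hy, h2⟩ := hz1' x hm
      have h3 := hQo k ⟨x, hm⟩ (ι' u)
      rw [h2, hT, key _ _ (by show side (z x) = true; rw [hzs]; exact hx) (by rw [hTs]; exact hu),
        key _ _ hx hu] at h3
      exact h3
    · obtain ⟨hzx, h2⟩ := hz1' x hm
      by_cases hmy : mv y
      · obtain ⟨hzy, h3⟩ := hz1' y hmy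
        have h4 := hQn k ⟨x, hm⟩ ⟨y, hmy⟩
        rw [h2, h3] at h4
        have key : ∀ t t' : Mv A X, side t.1 = false → side t'.1 = true →
            (E.Qn k t t' ↔ MB k t.1 t'.1) := fun t t' ht ht' =>
          ⟨fun h5 => h5.2.2, fun h5 => ⟨ht, ht', h5⟩⟩
        rw [key _ _ (by show side (z x) = false; rw [hzs]; exact hx)
          (by show side (z y) = true; rw [hzs]; exact hy), key _ _ hx hy] at h4
        exact h4
      · have key : ∀ (t : Mv A X) (w : X), side t.1 = false → side w = true → ¬ mv w →
            (E.Qo k t (ι' (oX w)) ↔ MB k t.1 w) := by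
          intro t w ht hw hmw
          constructor
          · rintro (⟨-, h4⟩ | ⟨h4, -⟩ | ⟨-, w', h5, h6, h7, h8⟩)
            · exfalso
              have h5 := congrArg side' (hι' h4)
              rw [hos, hos, ht, hw] at h5
              exact absurd h5 (by simp)
            · rw [ht] at h4
              exact absurd h4 (by simp)
            · have h9 := hfixo w' w h6 (hι' h7)
              rw [h9]
              exact h8
          · intro h4
            exact .inr (.inr ⟨ht, w, hw, hmw, rfl, h4⟩)
        have h3 := hQo k ⟨x, hm⟩ (ι' (oX y))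
        rw [h2, hT, hTz, key _ _ (by show side (z x) = false; rw [hzs]; exact hx)
          (by rw [hzs]; exact hy) (hzm' y hmy), key _ _ hx hy hmy] at h3
        exact h3
    · rw [e0, hF' h0 hh0 (fun u => by rw [hT, hall])]
  refine ⟨E.str, ι, hιinj, hιg, ?_, ?_, ?_⟩
  · intro h hh x x' hx hx'
    obtain ⟨z, T, h1, h2, h3, h4, h5, -⟩ := hview h hh
    obtain ⟨g0, h6, h7⟩ := h3 (oX x) (oX x') (by rw [hos]; exact hx) (by rw [hos]; exact hx')
    have step1 : ∃ g : G, g • x = z x ∧ g • oX x' = T (oX x') := by
      by_cases hm : mv x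
      · exact hMA2 x (z x) (oX x') (T (oX x')) ⟨g0, by rw [← h6, h2], h7.symm⟩ fun k =>
          (h4 k x (oX x') hx hm (by rw [hos]; exact hx')).symm
      · refine ⟨g0, ?_, h7.symm⟩
        rw [h2, ← hoX] at h6
        exact (hfixo _ _ (fun h => hm ((hmv g0 x).1 h)) h6).symm
    obtain ⟨g1, h8, h9⟩ := step1
    have step2 : ∃ g : G, g • x' = z x' ∧ g • x = z x := by
      by_cases hm : mv x'
      · exact hMB2 x' (z x') x (z x) ⟨g1, by rw [h9, h2], h8⟩ fun k => (h5 k x' x hx' hm hx).symm
      · refine ⟨g1, ?_, h8⟩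
        rw [h2, ← hoX] at h9
        exact hfixo _ _ (by
          intro h
          have h10 := hfixo (g1 • x') (z x') (fun h => hm ((hmv g1 x').1 h)) h9.symm
          rw [h10] at h
          exact hm ((hmv g1 x').1 h)) h9
    obtain ⟨g, h10, h11⟩ := step2
    exact ⟨g, by rw [h1, h11], by rw [h1, h10]⟩
  · intro h hh hfix
    obtain ⟨z, T, h1, h2, h3, h4, h5, h6⟩ := hview h hh
    have hz : ∀ x, z x = x := by
      intro x
      apply hιinj
      rw [← h1, hfix]
    have hT : ∀ u, T u = u := by
      intro u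
      obtain ⟨x, rfl⟩ := hoall u
      rw [h2, hz]
    rintro (a | t)
    · exact h6 hT a
    · have h7 := hfix t.1
      rw [hι1 t.1 t.2] at h7
      exact h7
  · rw [E.card]
    have h1 : 2 * Nat.card (OX A X) + Nat.card (Mv A X) ≤ 2 * Nat.card X := card_OX
    have h2 : Nat.card E.W = Nat.card (Mv A X) := rfl
    omega

end Pool.Agent.SV
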