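import Pool.Agent.Lib_helper73.SV.StepE
import Pool.Agent.Lib_helper73.SV.StepB

/-!
# Graphs for groups whose chief factors are abelian or small
-/

set_option autoImplicit false
set_option linter.unusedSectionVars false

namespace Pool.Agent.SV

variable {G : Type} [Group G]

/-- Every chief factor of `G` is abelian or has order at most `b`. -/
def ChiefSmall (b : ℕ) (G : Type) [Group G] : Prop :=
  ∀ N A : Subgroup G, N.Normal → A.Normal → N < A →
    (∀ K : Subgroup G, K.Normal → N ≤ K → K ≤ A → K = N ∨ K = A) →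
    (∀ x ∈ A, ∀ y ∈ A, x * y * x⁻¹ * y⁻¹ ∈ N) ∨ N.relIndex A ≤ b

/-- elements commute modulo `N` -/
theorem commute_mk {N : Subgroup G} [N.Normal] {x y : G} (h : x * y * x⁻¹ * y⁻¹ ∈ N) :
    Commute (QuotientGroup.mk' N x) (QuotientGroup.mk' N y) := by
  have h1 : QuotientGroup.mk' N (x * y * x⁻¹ * y⁻¹) = 1 := (QuotientGroup.eq_one_iff _).2 h
  rw [map_mul, map_mul, map_mul, map_inv, map_inv] at h1
  show QuotientGroup.mk' N x * QuotientGroup.mk' N y = QuotientGroup.mk' N y * QuotientGroup.mk' N x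
  rwa [mul_inv_eq_one, mul_inv_eq_iff_eq_mul] at h1

theorem controls_of_chiefSmall [Finite G] {b K β : ℕ} (hb : 2 ≤ b) (h : ChiefSmall β G)
    (hβ : β ≤ 2 ^ b ∨ K ≤ 2 ^ b) (N : Subgroup G) (hN : N.Normal) : Controls b K N := by
  induction N using WellFoundedGT.induction with
  | ind N ih =>
    by_cases htop : N = ⊤
    · rw [htop]
      exact controls_top
    · -- a minimal normal subgroup above `N`
      have hne : {A : Subgroup G | A.Normal ∧ N < A}.Nonempty :=
        ⟨⊤, inferInstance, lt_top_iff_ne_top.2 htop⟩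
      obtain ⟨A, ⟨hA, hNA⟩, hmin⟩ := (Set.toFinite {A : Subgroup G | A.Normal ∧ N < A}).exists_minimal hne
      have hchief : ∀ K : Subgroup G, K.Normal → N ≤ K → K ≤ A → K = N ∨ K = A := by
        intro K hK h1 h2
        rcases h1.eq_or_lt with h3 | h3
        · exact .inl h3.symm
        · exact .inr (le_antisymm h2 (hmin ⟨hK, h3⟩ h2))
      have hCA := ih A hNA hA
      rcases h N A hN hA hNA hchief with hab | hsm
      · -- an element of prime order modulo `N`
        obtain ⟨x, hxA, hxN⟩ := SetLike.exists_of_lt hNA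
        have hx1 : orderOf (QuotientGroup.mk' N x) ≠ 1 := by
          intro h1
          rw [orderOf_eq_one_iff] at h1
          exact hxN ((QuotientGroup.eq_one_iff _).1 h1)
        obtain ⟨p, hp, m, hm⟩ := Nat.exists_prime_and_dvd hx1
        have hfact : Fact p.Prime := ⟨hp⟩
        have hord0 : 0 < orderOf (QuotientGroup.mk' N x) := orderOf_pos _
        have hm0 : 0 < m := by
          rcases Nat.eq_zero_or_pos m with h0 | h0
          · rw [h0, mul_zero] at hm
            omega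
          · exact h0
        have hy1 : x ^ m ∉ N := by
          intro h1
          have h2 : (QuotientGroup.mk' N x) ^ m = 1 := by
            rw [← map_pow]
            exact (QuotientGroup.eq_one_iff _).2 h1
          have h3 := Nat.le_of_dvd hm0 (orderOf_dvd_of_pow_eq_one h2)
          rw [hm] at h3
          have := hp.two_le
          nlinarith
        have hy2 : (x ^ m) ^ p ∈ N := by
          rw [← pow_mul, mul_comm m p, ← hm]
          apply (QuotientGroup.eq_one_iff _).1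
          show QuotientGroup.mk' N (x ^ orderOf (QuotientGroup.mk' N x)) = 1
          rw [map_pow]
          exact pow_orderOf_eq_one _
        let K : Subgroup G :=
          { carrier := {x | x ∈ A ∧ x ^ p ∈ N}
            one_mem' := ⟨A.one_mem, by rw [one_pow]; exact N.one_mem⟩
            mul_mem' := by
              rintro x y ⟨hx, hx'⟩ ⟨hy, hy'⟩
              refine ⟨A.mul_mem hx hy, ?_⟩
              apply (QuotientGroup.eq_one_iff _).1
              show QuotientGroup.mk' N ((x * y) ^ p) = 1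
              rw [map_pow, map_mul, (commute_mk (hab x hx y hy)).mul_pow, ← map_pow, ← map_pow]
              have e1 : QuotientGroup.mk' N (x ^ p) = 1 := (QuotientGroup.eq_one_iff _).2 hx'
              have e2 : QuotientGroup.mk' N (y ^ p) = 1 := (QuotientGroup.eq_one_iff _).2 hy'
              rw [e1, e2, mul_one]
            inv_mem' := by
              rintro x ⟨hx, hx'⟩
              refine ⟨A.inv_mem hx, ?_⟩
              rw [inv_pow]
              exact N.inv_mem hx' }
        have hKn : K.Normal := by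
          refine ⟨fun n hn g => ⟨hA.conj_mem n hn.1 g, ?_⟩⟩
          rw [conj_pow]
          exact hN.conj_mem _ hn.2 g
        have hKA : K = A := by
          rcases hchief K hKn (fun n hn => ⟨hNA.le hn, N.pow_mem hn p⟩) (fun n hn => hn.1) with
            h1 | h1
          · exfalso
            apply hy1
            rw [← h1]
            exact ⟨A.pow_mem hxA m, hy2⟩
          · exact h1
        exact controls_ab hb hA hNA.le hab (fun x hx => by
          rw [← hKA] at hx
          exact hx.2) hCA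
      · exact controls_small hb hA (hβ.imp hsm.trans id) hCA

/-- The chief factors of solvable groups are abelian. -/
theorem chiefSmall_of_isSolvable [Group.IsSolvable G] (b : ℕ) : ChiefSmall b G := by
  classical
  intro N A hN hA hNA hchief
  left
  have hex : ∃ k, derivedSeries G k ⊓ A ≤ N := by
    obtain ⟨k, hk⟩ := Group.IsSolvable.solvable (G := G)
    refine ⟨k, ?_⟩
    rw [hk, bot_inf_eq]
    exact bot_le
  have hk := Nat.find_spec hex
  have hmin : ∀ j < Nat.find hex, ¬ derivedSeries G j ⊓ A ≤ N := fun j hj => Nat.find_min hex hj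
  rcases hk0 : Nat.find hex with _ | j
  · exfalso
    rw [hk0] at hk
    rw [derivedSeries_zero, top_inf_eq] at hk
    exact hNA.not_ge hk
  · rw [hk0] at hk
    have hj := hmin j (by omega)
    have h1 : (derivedSeries G j ⊓ A) ⊔ N = A := by
      rcases hchief ((derivedSeries G j ⊓ A) ⊔ N) inferInstance le_sup_right
        (sup_le inf_le_right hNA.le) with h2 | h2
      · exact absurd (sup_eq_right.1 h2) hj
      · exact h2
    have h2 : ∀ x ∈ A, ∃ d ∈ derivedSeries G j ⊓ A,
        QuotientGroup.mk' N x = QuotientGroup.mk' N d := by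
      intro x hx
      rw [← h1, ← SetLike.mem_coe, Subgroup.mul_normal] at hx
      obtain ⟨d, hd, n, hn, rfl⟩ := Set.mem_mul.1 hx
      refine ⟨d, hd, ?_⟩
      rw [map_mul]
      have : QuotientGroup.mk' N n = 1 := (QuotientGroup.eq_one_iff _).2 hn
      rw [this, mul_one]
    intro x hx y hy
    obtain ⟨d, hd, hxd⟩ := h2 x hx
    obtain ⟨e, he, hye⟩ := h2 y hy
    apply (QuotientGroup.eq_one_iff _).1
    show QuotientGroup.mk' N (x * y * x⁻¹ * y⁻¹) = 1
    rw [map_mul, map_mul, map_mul, map_inv, map_inv, hxd, hye, ← map_inv, ← map_inv, ← map_mul,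
      ← map_mul, ← map_mul]
    apply (QuotientGroup.eq_one_iff _).2
    apply hk
    refine ⟨?_, A.mul_mem (A.mul_mem (A.mul_mem hd.2 he.2) (A.inv_mem hd.2)) (A.inv_mem he.2)⟩
    show d * e * d⁻¹ * e⁻¹ ∈ derivedSeries G (j + 1)
    rw [derivedSeries_succ]
    exact Subgroup.commutator_mem_commutator hd.1 he.1

/-- the number of layers -/
theorem layers (β n : ℕ) (hβ : 1 ≤ β) (hn : 1 ≤ n) :
    ∃ b s : ℕ, 2 ≤ b ∧ (β ≤ 2 ^ b ∨ 2 * n ≤ 2 ^ b) ∧ (b + 1) * 2 ≤ s * (s + 1) ∧
      (65 * s + 132 : ℝ) < 263 * √(1 + Real.logb 2 (min β n : ℕ)) := by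
  classical
  have hex : ∃ b : ℕ, 2 ≤ b ∧ (β ≤ 2 ^ b ∨ 2 * n ≤ 2 ^ b) := by
    refine ⟨β + 2, by omega, .inl ?_⟩
    have h1 : β < 2 ^ β := Nat.lt_two_pow_self
    exact h1.le.trans (Nat.pow_le_pow_right (by norm_num) (by omega))
  obtain ⟨b, ⟨hb2, hb3⟩, hbmin⟩ : ∃ b : ℕ, (2 ≤ b ∧ (β ≤ 2 ^ b ∨ 2 * n ≤ 2 ^ b)) ∧
      ∀ m < b, ¬ (2 ≤ m ∧ (β ≤ 2 ^ m ∨ 2 * n ≤ 2 ^ m)) :=
    ⟨Nat.find hex, Nat.find_spec hex, fun m hm => Nat.find_min hex hm⟩
  have hexs : ∃ s : ℕ, (b + 1) * 2 ≤ s * (s + 1) := ⟨b + 2, by nlinarith⟩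
  obtain ⟨s, hs1, hsmin⟩ : ∃ s : ℕ, (b + 1) * 2 ≤ s * (s + 1) ∧
      ∀ m < s, ¬ (b + 1) * 2 ≤ m * (m + 1) :=
    ⟨Nat.find hexs, Nat.find_spec hexs, fun m hm => Nat.find_min hexs hm⟩
  refine ⟨b, s, hb2, hb3, hs1, ?_⟩
  set M := min β n with hM
  have hM1 : 1 ≤ M := le_min hβ hn
  have hMr : (1 : ℝ) ≤ M := by exact_mod_cast hM1
  have ht : 0 ≤ Real.logb 2 (M : ℝ) := Real.logb_nonneg (by norm_num) hMr
  have hsq1 : 1 ≤ √(1 + Real.logb 2 (M : ℝ)) := by
    rw [Real.one_le_sqrt]
    linarith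
  rcases hb2.eq_or_lt with hb4 | hb4
  · -- two bits
    have hs2 : s ≤ 2 := by
      by_contra h1
      push Not at h1
      have h2 : ¬ (b + 1) * 2 ≤ 2 * (2 + 1) := hsmin 2 h1
      have h3 : b = 2 := hb4.symm
      rw [h3] at h2
      norm_num at h2
    have hsr : (s : ℝ) ≤ 2 := by exact_mod_cast hs2
    nlinarith
  · -- more bits
    have h1 := hbmin (b - 1) (by omega)
    have h2 : 2 ^ (b - 1) < β ∧ 2 ^ (b - 1) < 2 * n := by
      constructor
      · by_contra h3
        exact h1 ⟨by omega, .inl (not_lt.1 h3)⟩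
      · by_contra h3
        exact h1 ⟨by omega, .inr (not_lt.1 h3)⟩
    have h3 : 2 ^ (b - 1) = 2 * 2 ^ (b - 2) := by
      rw [← pow_succ']
      congr 1
      omega
    have h4 : 2 ^ (b - 2) < M := by
      rw [hM, lt_min_iff]
      have h5 : 0 < 2 ^ (b - 2) := by positivity
      omega
    have h5 : ((b - 2 : ℕ) : ℝ) < Real.logb 2 (M : ℝ) := by
      rw [Real.lt_logb_iff_rpow_lt (by norm_num) (by linarith), Real.rpow_natCast]
      exact_mod_cast h4
    have h6 : (b : ℝ) - 1 < 1 + Real.logb 2 (M : ℝ) := by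
      have h7 : ((b - 2 : ℕ) : ℝ) = (b : ℝ) - 2 := by
        rw [Nat.cast_sub hb2]
        norm_num
      rw [h7] at h5
      linarith
    have hs3 : 3 ≤ s := by
      by_contra h7
      push Not at h7
      have h8 : s * (s + 1) ≤ 2 * 3 := Nat.mul_le_mul (by omega) (by omega)
      omega
    have h7 : ¬ (b + 1) * 2 ≤ (s - 1) * ((s - 1) + 1) := hsmin (s - 1) (by omega)
    obtain ⟨u, hu⟩ : ∃ u, s = u + 3 := ⟨s - 3, by omega⟩
    have h8 : (u + 2) * (u + 3) ≤ 2 * b := by
      rw [hu] at h7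
      have h9 : u + 3 - 1 = u + 2 := by omega
      rw [h9] at h7
      have h10 : Even ((u + 2) * (u + 3)) := Nat.even_mul_succ_self (u + 2)
      obtain ⟨w, hw⟩ := h10
      have h11 : u + 2 + 1 = u + 3 := by omega
      rw [h11] at h7
      omega
    have h9 : ((u : ℝ) + 2) * (u + 3) ≤ 2 * b := by exact_mod_cast h8
    have hu0 : (0 : ℝ) ≤ u := Nat.cast_nonneg u
    have hsr : (s : ℝ) = u + 3 := by
      rw [hu]
      push_cast
      ring
    rw [hsr]
    have h10 : (65 * ((u : ℝ) + 3) + 132) ^ 2 < 263 ^ 2 * (1 + Real.logb 2 (M : ℝ)) := by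
      have h11 : (65 * ((u : ℝ) + 3) + 132) ^ 2 ≤ 263 ^ 2 * (((u : ℝ) + 2) * (u + 3) / 2 - 1) := by
        nlinarith
      nlinarith
    have h12 : 263 * √(1 + Real.logb 2 (M : ℝ)) = √(263 ^ 2 * (1 + Real.logb 2 (M : ℝ))) := by
      rw [Real.sqrt_mul (by norm_num), Real.sqrt_sq (by norm_num)]
    rw [h12]
    exact Real.lt_sqrt_of_sq_lt h10

/-- **The graph for a group with abelian or small chief factors.** -/
theorem graph_of_chiefSmall {β : ℕ} (hβ : 1 ≤ β) (G : Type) [Group G] [Finite G] (n k : ℕ)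
    (c : Fin n → Fin n → Option (Fin k)) (hn : 0 < n) (φ : G →* Equiv.Perm (Fin n))
    (hφ : Function.Injective ⇑φ)
    (hAut : ∀ σ : Equiv.Perm (Fin n),
      (∀ x y : Fin n, c (σ x) (σ y) = c x y) ↔ σ ∈ Set.range ⇑φ)
    (hG : ChiefSmall β G) :
    ∃ (m : ℕ) (Γ : SimpleGraph (Fin m)) (ψ : G →* Equiv.Perm (Fin m)),
      Function.Injective ⇑ψ ∧
      (∀ σ : Equiv.Perm (Fin m),
        (∀ x y : Fin m, Γ.Adj (σ x) (σ y) ↔ Γ.Adj x y) ↔ σ ∈ Set.range ⇑ψ) ∧
      (m : ℝ) < 263 * √(1 + Real.logb 2 (min β n : ℕ)) * n := by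
  let : MulAction G (Fin n) := MulAction.compHom (Fin n) φ
  have hsm : ∀ (g : G) (x : Fin n), g • x = φ g x := fun _ _ => rfl
  have : Nonempty (Fin n) := ⟨⟨0, hn⟩⟩
  obtain ⟨b, s, hb, hβb, hs, hreal⟩ := layers β n hβ hn
  have hK : β ≤ 2 ^ b ∨ 2 * Nat.card (Fin n) ≤ 2 ^ b := by
    rw [Nat.card_eq_fintype_card (α := Fin n), Fintype.card_fin]
    exact hβb
  obtain ⟨m, Γ, ψ, a1, a2, a3⟩ := graph_of_controls (Ω := Fin n)
    (controls_of_chiefSmall hb hG hK ⊥ inferInstance) hs (by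
    intro g hg
    apply hφ
    rw [map_one]
    ext x
    rw [← hsm, hg]
    rfl) (by
    intro σ hσ
    have h5 : ∀ x y : Fin n, c (σ x) (σ y) = c x y := by
      intro x y
      obtain ⟨g, hx, hy⟩ := hσ x y
      rw [← hx, ← hy, hsm, hsm]
      exact (hAut (φ g)).2 ⟨g, rfl⟩ x y
    obtain ⟨g, hg⟩ := (hAut σ).1 h5
    refine ⟨g, fun x => ?_⟩
    rw [← hg]
    rfl)
  refine ⟨m, Γ, ψ, a1, a2, ?_⟩
  rw [Nat.card_eq_fintype_card (α := Fin n), Fintype.card_fin] at a3
  have h5 : m ≤ (65 * s + 132) * n := by nlinarith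
  have h6 : (m : ℝ) ≤ (65 * s + 132) * n := by exact_mod_cast h5
  have hn' : (0 : ℝ) < n := by exact_mod_cast hn
  exact h6.trans_lt (mul_lt_mul_of_pos_right hreal hn')

end Pool.Agent.SV
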