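import Pool.Agent.Lib_helper73.SV.Card
import Pool.Agent.Lib_helper73.VG.Aff

/-!
# Marks on pairs
-/

set_option autoImplicit false
set_option linter.unusedSectionVars false

namespace Pool.Agent.SV

open Pointwise in
/-- **Marks for a pair of directions.** -/
theorem loc2 {p : ℕ} [hp : Fact p.Prime] {G T : Type} [Group G] [MulAction G T] (L : Subgroup G)
    {F F' : ZMod p → T} (hF : Function.Injective F) (hF' : Function.Injective F')
    (haff : ∀ g ∈ L, ∃ a t t', a ≠ 0 ∧ (∀ i, g • F i = F (a * i + t)) ∧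
      ∀ i, g • F' i = F' (a * i + t'))
    (htr : ∀ s, ∃ g ∈ L, (∀ i, g • F i = F (i + s)) ∧ ∀ i, g • F' i = F' (i + s)) :
    ∃ S : ℕ → Set (T × T), ∀ α β α' β' : ZMod p, α ≠ 0 → α' ≠ 0 →
      (∀ k < 2, ∀ i i', (∃ g ∈ L, (g • F (α * i + β), g • F' (α' * i' + β')) ∈ S k) ↔
        ∃ g ∈ L, (g • F i, g • F' i') ∈ S k) →
      ∀ i i', ∃ g ∈ L, F (α * i + β) = g • F i ∧ F' (α' * i' + β') = g • F' i' := by
  let FF : ZMod p → Set (T × T) := fun δ => {z | ∃ i, z = (F i, F' (i + δ))}
  have hmem : ∀ i i' δ, (F i, F' i') ∈ FF δ ↔ i' = i + δ := by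
    intro i i' δ
    constructor
    · rintro ⟨j, hj⟩
      have h1 := hF (congrArg Prod.fst hj)
      have h2 := hF' (congrArg Prod.snd hj)
      rw [h1, h2]
    · rintro rfl
      exact ⟨i, rfl⟩
  have hFF : Function.Injective FF := by
    intro δ δ' h
    have h1 : (F 0, F' (0 + δ)) ∈ FF δ' := by
      rw [← h]
      exact ⟨0, rfl⟩
    have h2 := (hmem _ _ _).1 h1
    simpa using h2
  have hact : ∀ (g : G) a t t', (∀ i, g • F i = F (a * i + t)) →
      (∀ i, g • F' i = F' (a * i + t')) → a ≠ 0 → ∀ δ, g • FF δ = FF (a * δ + (t' - t)) := by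
    intro g a t t' h1 h2 ha δ
    ext z
    rw [Set.mem_smul_set]
    constructor
    · rintro ⟨_, ⟨i, rfl⟩, rfl⟩
      refine ⟨a * i + t, ?_⟩
      show (g • F i, g • F' (i + δ)) = _
      rw [h1, h2]
      congr 2
      ring
    · rintro ⟨i, rfl⟩
      refine ⟨(F (a⁻¹ * (i - t)), F' (a⁻¹ * (i - t) + δ)), ⟨_, rfl⟩, ?_⟩
      show (g • F _, g • F' _) = _
      rw [h1, h2]
      have e1 : a * (a⁻¹ * (i - t)) = i - t := by
        rw [← mul_assoc, mul_inv_cancel₀ ha, one_mul]
      congr 2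
      · rw [e1]
        ring
      · rw [mul_add, e1]
        ring
  have htrans : ∀ (i i' j j' : ZMod p), i' - i = j' - j → ∃ g ∈ L, g • F i = F j ∧
      g • F' i' = F' j' := by
    intro i i' j j' h
    obtain ⟨g, hg, h1, h2⟩ := htr (j - i)
    refine ⟨g, hg, ?_, ?_⟩
    · rw [h1]
      congr 1
      ring
    · rw [h2]
      congr 1
      linear_combination h
  by_cases hfix : ∃ δ0, ∀ g ∈ L, g • FF δ0 = FF δ0
  · obtain ⟨δ0, hδ0⟩ := hfix
    have hfix' : ∀ g ∈ L, ∀ a t t', (∀ i, g • F i = F (a * i + t)) →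
        (∀ i, g • F' i = F' (a * i + t')) → a ≠ 0 → a * δ0 + (t' - t) = δ0 := by
      intro g hg a t t' h1 h2 ha
      apply hFF
      rw [← hact g a t t' h1 h2 ha, hδ0 g hg]
    refine ⟨fun k => FF (δ0 + k), fun α β α' β' hα hα' hS i i' => ?_⟩
    have h0 : ∀ i, α' * (i + δ0) + β' = α * i + β + δ0 := by
      intro i
      obtain ⟨g, hg, h1⟩ := (hS 0 (by norm_num) i (i + δ0)).2 ⟨1, L.one_mem, by
        rw [one_smul, one_smul, hmem]
        simp⟩
      obtain ⟨a, t, t', ha, h2, h3⟩ := haff g hg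
      rw [h2, h3, hmem, Nat.cast_zero, add_zero] at h1
      have h4 := hfix' g hg a t t' h2 h3 ha
      have h5 : a * (α' * (i + δ0) + β' - (α * i + β + δ0)) = 0 := by
        linear_combination h1 - h4
      rcases mul_eq_zero.1 h5 with h6 | h6
      · exact absurd h6 ha
      · exact sub_eq_zero.1 h6
    have h00 := h0 0
    have h01 := h0 1
    have hαα : α' = α := by linear_combination h01 - h00
    subst hαα
    obtain ⟨g1, hg1, h1⟩ := (hS 1 (by norm_num) 0 (δ0 + 1)).2 ⟨1, L.one_mem, by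
      rw [one_smul, one_smul, hmem]
      simp⟩
    obtain ⟨a, t, t', ha, h2, h3⟩ := haff g1 hg1
    rw [h2, h3, hmem, Nat.cast_one] at h1
    have h4 := hfix' g1 hg1 a t t' h2 h3 ha
    have h5 : a * α' = 1 := by linear_combination h1 - h4 - a * h00
    obtain ⟨a', s, s', ha', h2', h3'⟩ := haff g1⁻¹ (L.inv_mem hg1)
    have h6 : ∀ i, a * (a' * i + s) + t = i := by
      intro i
      apply hF
      rw [← h2, ← h2', smul_inv_smul]
    have h60 := h6 0
    have h61 := h6 1
    have h7 : a * a' = 1 := by linear_combination h61 - h60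
    have h8 : a' = α' := by
      apply mul_left_cancel₀ ha
      rw [h7, h5]
    subst h8
    have h9 := hfix' _ (L.inv_mem hg1) a' s s' h2' h3' ha'
    obtain ⟨u, hu, h10, h11⟩ := htrans (a' * i + s) (a' * i' + s') (a' * i + β) (a' * i' + β') (by
      linear_combination h9 - h00)
    refine ⟨u * g1⁻¹, L.mul_mem hu (L.inv_mem hg1), ?_, ?_⟩
    · rw [mul_smul, h2', h10]
    · rw [mul_smul, h3', h11]
  · refine ⟨fun _ => ∅, fun α β α' β' hα hα' _ i i' => ?_⟩
    have hK : ∀ g ∈ L, ∃ a t, VG.Af FF g a t := by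
      intro g hg
      obtain ⟨a, t, t', ha, h1, h2⟩ := haff g hg
      exact ⟨a, t' - t, ha, hact g a t t' h1 h2 ha⟩
    obtain ⟨g, hg, h1⟩ := VG.af_trans hFF L hK hfix (i' - i)
      ((α' * i' + β') - (α * i + β))
    obtain ⟨a, t, t', ha, h2, h3⟩ := haff g hg
    rw [hact g a t t' h2 h3 ha] at h1
    have h4 := hFF h1
    obtain ⟨u, hu, h10, h11⟩ := htrans (a * i + t) (a * i' + t') (α * i + β) (α' * i' + β') (by
      linear_combination h4)
    refine ⟨u * g, L.mul_mem hu hg, ?_, ?_⟩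
    · rw [mul_smul, h2, h10]
    · rw [mul_smul, h3, h11]

/-- representatives of orbits -/
noncomputable def rep {G T : Type} [Group G] [MulAction G T] (z : T) : T :=
  (Quotient.mk (MulAction.orbitRel G T) z).out

theorem rep_smul {G T : Type} [Group G] [MulAction G T] (g : G) (z : T) :
    rep (G := G) (g • z) = rep (G := G) z := by
  unfold rep
  congr 1
  apply Quotient.sound
  show g • z ∈ MulAction.orbit G z
  exact MulAction.mem_orbit z g

theorem exists_rep {G T : Type} [Group G] [MulAction G T] (z : T) :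
    ∃ g : G, g • z = rep (G := G) z := by
  have h : (MulAction.orbitRel G T).r (rep (G := G) z) z :=
    Quotient.mk_out (s := MulAction.orbitRel G T) z
  exact h

theorem rep_rep {G T : Type} [Group G] [MulAction G T] (z : T) :
    rep (G := G) (rep (G := G) z) = rep (G := G) z := by
  obtain ⟨g, hg⟩ := exists_rep (G := G) z
  conv_lhs => rw [← hg, rep_smul]

/-- the orbits of pairs are determined by marks, if the fibres have at most `b` elements -/
theorem exists_marks {G P Q T : Type} [Group G] [MulAction G P] [MulAction G Q] [MulAction G T]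
    [Finite P] (π : P → Q) (hπ : ∀ (g : G) x, π (g • x) = g • π x) {b : ℕ}
    (hb : ∀ q, Nat.card {x // π x = q} ≤ b) :
    ∃ Mk : Fin b → P → T → Prop, (∀ (g : G) k x t, Mk k x t → Mk k (g • x) (g • t)) ∧
      ∀ x x' t t', (∃ g : G, g • π x = π x' ∧ g • t = t') → (∀ k, Mk k x t ↔ Mk k x' t') →
        ∃ g : G, g • x = x' ∧ g • t = t' := by
  classical
  -- enumerate the fibres
  have h1 : ∀ q, ∃ f : {x // π x = q} → Fin b, Function.Injective f := by
    intro q
    have := Fintype.ofFinite {x // π x = q}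
    have h2 : Fintype.card {x // π x = q} ≤ Fintype.card (Fin b) := by
      rw [Fintype.card_fin, ← Nat.card_eq_fintype_card]
      exact hb q
    obtain ⟨f⟩ := Function.Embedding.nonempty_of_card_le h2
    exact ⟨f, f.injective⟩
  choose f hf using h1
  refine ⟨fun k x t => ∃ g : G, g • (π x, t) = rep (G := G) (π x, t) ∧
    ∃ h : π (g • x) = (rep (G := G) (π x, t)).1, f _ ⟨g • x, h⟩ = k, ?_, ?_⟩
  · rintro u k x t ⟨g, h1, h2, h3⟩
    have e : ((π (u • x), u • t) : Q × T) = u • (π x, t) := by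
      rw [hπ]
      rfl
    rw [e, rep_smul]
    refine ⟨g * u⁻¹, ?_, ?_, ?_⟩
    · rw [mul_smul, inv_smul_smul, h1]
    · rw [mul_smul, inv_smul_smul, h2]
    · have e2 : (g * u⁻¹) • u • x = g • x := by rw [mul_smul, inv_smul_smul]
      rw [← h3]
      congr 1
      exact Subtype.ext e2
  · rintro x x' t t' ⟨u, hu1, hu2⟩ hk
    obtain ⟨g, hg⟩ := exists_rep (G := G) (π x, t)
    have hg1 : π (g • x) = (rep (G := G) (π x, t)).1 := by
      rw [hπ, ← hg]
      rfl
    obtain ⟨g', h1, h2, h3⟩ := (hk (f _ ⟨g • x, hg1⟩)).1 ⟨g, hg, hg1, rfl⟩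
    have e : ((π x', t') : Q × T) = u • (π x, t) := by
      rw [← hu1, ← hu2]
      rfl
    have e' : rep (G := G) (π x', t') = rep (G := G) (π x, t) := by
      rw [e, rep_smul]
    have h4 : g' • x' = g • x := by
      have key : ∀ (q : Q) (y : P) (hy : π y = q) (q' : Q) (y' : P) (hy' : π y' = q'),
          q = q' → f q ⟨y, hy⟩ = f q' ⟨y', hy'⟩ → y = y' := by
        intro q y hy q' y' hy' hqq h
        subst hqq
        exact congrArg Subtype.val (hf _ h)
      exact key _ _ _ _ _ _ (congrArg Prod.fst e') h3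
    refine ⟨g'⁻¹ * g, ?_, ?_⟩
    · rw [mul_smul, ← h4, inv_smul_smul]
    · have h5 : g • t = (rep (G := G) (π x, t)).2 := congrArg Prod.snd hg
      have h6 : g' • t' = (rep (G := G) (π x', t')).2 := congrArg Prod.snd h1
      rw [mul_smul, h5, inv_smul_eq_iff, h6, e']

end Pool.Agent.SV
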