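import Pool.Agent.Lib_helper73.SV.Gad2

/-!
# Structures on which a group acts, extensions, and the property that is carried through a
normal series
-/

set_option autoImplicit false
set_option linter.unusedSectionVars false

namespace Pool.Agent.SV

/-- A finite structure with an action of `G`, with invariant types and invariant relations. -/
structure Str (G : Type) [Group G] (b : ℕ) where
  /-- the nodes -/
  N : Type
  /-- the action -/
  act : MulAction G N
  /-- finiteness -/
  fin : Finite N
  /-- the types -/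
  tp : N → ℕ
  tp_smul : ∀ (g : G) (x : N), tp (g • x) = tp x
  /-- the relations -/
  R : Fin b → N → N → Prop
  R_smul : ∀ (g : G) k (x y : N), R k x y → R k (g • x) (g • y)

attribute [instance] Str.act Str.fin

variable {G : Type} [Group G] {b : ℕ}

namespace Str

variable (S : Str G b)

/-- the automorphisms -/
def Aut (h : Equiv.Perm S.N) : Prop :=
  (∀ x y, S.tp (h x) < S.tp (h y) ↔ S.tp x < S.tp y) ∧ ∀ k x y, S.R k (h x) (h y) ↔ S.R k x y

variable {S}

theorem R_smul_iff (g : G) (k : Fin b) (x y : S.N) : S.R k (g • x) (g • y) ↔ S.R k x y := by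
  refine ⟨fun h => ?_, S.R_smul g k x y⟩
  have := S.R_smul g⁻¹ k _ _ h
  rwa [inv_smul_smul, inv_smul_smul] at this

theorem Aut.smul {h : Equiv.Perm S.N} (hh : S.Aut h) (g : G) :
    S.Aut (h.trans (MulAction.toPerm g)) := by
  refine ⟨fun x y => ?_, fun k x y => ?_⟩
  · show S.tp (g • h x) < S.tp (g • h y) ↔ _
    rw [S.tp_smul, S.tp_smul]
    exact hh.1 x y
  · show S.R k (g • h x) (g • h y) ↔ _
    rw [S.R_smul_iff]
    exact hh.2 k x y

theorem aut_toPerm (g : G) : S.Aut (MulAction.toPerm g) := by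
  have h1 : S.Aut 1 := ⟨fun _ _ => Iff.rfl, fun _ _ _ => Iff.rfl⟩
  exact h1.smul g

/-- automorphisms preserve the types -/
theorem Aut.tp {h : Equiv.Perm S.N} (hh : S.Aut h) (x : S.N) : S.tp (h x) = S.tp x := by
  classical
  have := Fintype.ofFinite S.N
  let c : S.N → ℕ := fun x => (Finset.univ.filter (fun y => S.tp y < S.tp x)).card
  have hc : c (h x) = c x := by
    refine (Finset.card_bij (fun y _ => h y) ?_ ?_ ?_).symm
    · intro y hy
      rw [Finset.mem_filter] at hy ⊢
      exact ⟨Finset.mem_univ _, (hh.1 y x).2 hy.2⟩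
    · intro y _ y' _ e
      exact h.injective e
    · intro y hy
      rw [Finset.mem_filter] at hy
      refine ⟨h.symm y, ?_, by simp⟩
      rw [Finset.mem_filter]
      refine ⟨Finset.mem_univ _, (hh.1 (h.symm y) x).1 ?_⟩
      rw [Equiv.apply_symm_apply]
      exact hy.2
  have hlt : ∀ x y : S.N, S.tp x < S.tp y → c x < c y := by
    intro x y hxy
    apply Finset.card_lt_card
    rw [Finset.ssubset_iff_of_subset]
    · exact ⟨x, by simpa using hxy, by simp⟩
    · intro z hz
      rw [Finset.mem_filter] at hz ⊢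
      exact ⟨hz.1, hz.2.trans hxy⟩
  rcases lt_trichotomy (S.tp (h x)) (S.tp x) with h1 | h1 | h1
  · have := hlt _ _ h1
    omega
  · exact h1
  · have := hlt _ _ h1
    omega

end Str

/-- **The property that is carried through a normal series.** -/
def Controls (b K : ℕ) (N : Subgroup G) : Prop :=
  ∀ (X : Type) [MulAction G X] [Finite X] (side : X → Bool), Nat.card X ≤ K →
    (∀ (g : G) (x : X), side (g • x) = side x) → (∀ n ∈ N, ∀ x : X, n • x = x) →
    (∃ x, side x = true) → (∃ x, side x = false) →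
    ∃ (S : Str G b) (ι : X → S.N), Function.Injective ι ∧ (∀ (g : G) (x : X), ι (g • x) = g • ι x) ∧
      (∀ h, S.Aut h → ∀ x x', side x = true → side x' = false →
        ∃ g : G, h (ι x) = ι (g • x) ∧ h (ι x') = ι (g • x')) ∧
      (∀ h, S.Aut h → (∀ x, h (ι x) = ι x) → ∀ a, h a = a) ∧
      Nat.card S.N ≤ 32 * Nat.card X

theorem controls_top {K : ℕ} : Controls b K (⊤ : Subgroup G) := by
  intro X _ _ side _ _ htriv _ _
  have := Fintype.ofFinite X
  let S : Str G b :=
    { N := X
      act := inferInstance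
      fin := inferInstance
      tp := fun x => (Fintype.equivFin X x).1
      tp_smul := fun g x => by rw [htriv g (Subgroup.mem_top g)]
      R := fun _ _ _ => False
      R_smul := fun _ _ _ _ h => h }
  have hS : ∀ h : Equiv.Perm S.N, S.Aut h → ∀ x, h x = x := by
    intro h hh x
    have h1 := hh.tp x
    exact (Fintype.equivFin X).injective (Fin.ext h1)
  refine ⟨S, id, Function.injective_id, fun _ _ => rfl, fun h hh x x' _ _ => ?_,
    fun h hh _ => hS h hh, ?_⟩
  · refine ⟨1, ?_, ?_⟩
    · rw [one_smul]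
      exact hS h hh x
    · rw [one_smul]
      exact hS h hh x'
  · show Nat.card X ≤ _
    omega

/-- Data for an extension of a structure. -/
structure Ext (S : Str G b) where
  /-- the new nodes -/
  W : Type
  /-- the action -/
  act : MulAction G W
  /-- finiteness -/
  fin : Finite W
  /-- the types of the new nodes -/
  code : W → ℕ
  code_smul : ∀ (g : G) (x : W), code (g • x) = code x
  /-- relations from new nodes to old nodes -/
  Qo : Fin b → W → S.N → Prop
  Qo_smul : ∀ (g : G) k (x : W) (y : S.N), Qo k x y → Qo k (g • x) (g • y)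
  /-- relations between new nodes -/
  Qn : Fin b → W → W → Prop
  Qn_smul : ∀ (g : G) k (x y : W), Qn k x y → Qn k (g • x) (g • y)

attribute [instance] Ext.act Ext.fin

namespace Ext

variable {S : Str G b} (E : Ext S)

theorem exists_bound (S : Str G b) : ∃ T, ∀ x, S.tp x < T := by
  obtain ⟨T, hT⟩ := (Set.finite_range S.tp).bddAbove
  exact ⟨T + 1, fun x => Nat.lt_succ_of_le (hT ⟨x, rfl⟩)⟩

/-- the relations of the extension -/
def rel (k : Fin b) : S.N ⊕ E.W → S.N ⊕ E.W → Prop
  | .inl x, .inl y => S.R k x y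
  | .inl _, .inr _ => False
  | .inr x, .inl y => E.Qo k x y
  | .inr x, .inr y => E.Qn k x y

/-- the extended structure -/
noncomputable def str : Str G b where
  N := S.N ⊕ E.W
  act := inferInstance
  fin := inferInstance
  tp := Sum.elim S.tp fun w => (exists_bound S).choose + E.code w
  tp_smul := by
    rintro g (x | x)
    · exact S.tp_smul g x
    · show _ + E.code (g • x) = _ + E.code x
      rw [E.code_smul]
  R := E.rel
  R_smul := by
    rintro g k (x | x) (y | y) h
    · exact S.R_smul g k x y h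
    · exact h
    · exact E.Qo_smul g k x y h
    · exact E.Qn_smul g k x y h

/-- **Automorphisms of extensions.** -/
theorem aut {h : Equiv.Perm E.str.N} (hh : E.str.Aut h) :
    ∃ (h0 : Equiv.Perm S.N) (h1 : Equiv.Perm E.W), S.Aut h0 ∧ (∀ x, h (.inl x) = .inl (h0 x)) ∧
      (∀ x, h (.inr x) = .inr (h1 x)) ∧ (∀ x, E.code (h1 x) = E.code x) ∧
      (∀ k x y, E.Qo k (h1 x) (h0 y) ↔ E.Qo k x y) ∧
      (∀ k x y, E.Qn k (h1 x) (h1 y) ↔ E.Qn k x y) := by
  have hT := (exists_bound S).choose_spec
  set T := (exists_bound S).choose with hTdef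
  have hl : ∀ x : S.N, ∃ y : S.N, h (.inl x) = .inl y := by
    intro x
    rcases e : h (.inl x) with y | y
    · exact ⟨y, rfl⟩
    · exfalso
      have h1 := hh.tp (.inl x)
      rw [e] at h1
      have h2 : T + E.code y = S.tp x := h1
      have := hT x
      omega
  have hr : ∀ x : E.W, ∃ y : E.W, h (.inr x) = .inr y ∧ E.code y = E.code x := by
    intro x
    have h1 := hh.tp (.inr x)
    rcases e : h (.inr x) with y | y
    · exfalso
      rw [e] at h1
      have h2 : S.tp y = T + E.code x := h1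
      have := hT y
      omega
    · rw [e] at h1
      have h2 : T + E.code y = T + E.code x := h1
      exact ⟨y, rfl, Nat.add_left_cancel h2⟩
  choose f0 hf0 using hl
  choose f1 hf1 hc using hr
  have i0 : Function.Injective f0 := by
    intro x y e
    have : h (.inl x) = h (.inl y) := by rw [hf0, hf0, e]
    exact Sum.inl.inj (h.injective this)
  have i1 : Function.Injective f1 := by
    intro x y e
    have : h (.inr x) = h (.inr y) := by rw [hf1, hf1, e]
    exact Sum.inr.inj (h.injective this)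
  refine ⟨Equiv.ofBijective f0 (Finite.injective_iff_bijective.1 i0),
    Equiv.ofBijective f1 (Finite.injective_iff_bijective.1 i1), ⟨fun x y => ?_, fun k x y => ?_⟩,
    hf0, hf1, hc, fun k x y => ?_, fun k x y => ?_⟩
  · have := hh.1 (.inl x) (.inl y)
    rw [hf0, hf0] at this
    exact this
  · have := hh.2 k (.inl x) (.inl y)
    rw [hf0, hf0] at this
    exact this
  · have := hh.2 k (.inr x) (.inl y)
    rw [hf0, hf1] at this
    exact this
  · have := hh.2 k (.inr x) (.inr y)
    rw [hf1, hf1] at this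
    exact this

theorem card : Nat.card E.str.N = Nat.card S.N + Nat.card E.W := Nat.card_sum

end Ext

/-- **The graph.** -/
theorem graph_of_controls [Finite G] {Ω : Type} [MulAction G Ω] [Finite Ω] [Nonempty Ω]
    (h : Controls b (2 * Nat.card Ω) (⊥ : Subgroup G)) {s : ℕ} (hs : (b + 1) * 2 ≤ s * (s + 1))
    (hfaith : ∀ g : G, (∀ ω : Ω, g • ω = ω) → g = 1)
    (hclosed : ∀ σ : Equiv.Perm Ω, (∀ x y, ∃ g : G, g • x = σ x ∧ g • y = σ y) →
      ∃ g : G, ∀ x, σ x = g • x) :
    ∃ (m : ℕ) (Γ : SimpleGraph (Fin m)) (ψ : G →* Equiv.Perm (Fin m)),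
      Function.Injective ⇑ψ ∧
      (∀ σ : Equiv.Perm (Fin m),
        (∀ x y : Fin m, Γ.Adj (σ x) (σ y) ↔ Γ.Adj x y) ↔ σ ∈ Set.range ⇑ψ) ∧
      m ≤ (s + 2) * (64 * Nat.card Ω + 1) + 2 := by
  obtain ⟨ω₀⟩ := ‹Nonempty Ω›
  obtain ⟨S, ι, hι, hιg, hP, hF, hcard⟩ := h (Ω ⊕ Ω) (Sum.elim (fun _ => true) fun _ => false) (by
    rw [Nat.card_sum]
    omega) (by
    rintro g (x | x) <;> rfl) (by
    intro n hn x
    rw [Subgroup.mem_bot] at hn
    rw [hn, one_smul]) ⟨.inl ω₀, rfl⟩ ⟨.inr ω₀, rfl⟩
  have : Nonempty S.N := ⟨ι (.inl ω₀)⟩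
  obtain ⟨m, Γ, ψ, h1, h2, h3⟩ := VG.gadget2 (G := G) (N := S.N) (κ := Unit ⊕ Fin b) (s := s) (by
      rw [Fintype.card_sum, Fintype.card_fin, Fintype.card_unit]
      omega)
    (Sum.elim (fun _ x y => S.tp x < S.tp y) S.R) (by
      intro g hg
      apply hfaith
      intro ω
      have h1 := hg (ι (.inl ω))
      rw [← hιg] at h1
      exact Sum.inl.inj (hι h1)) (by
      rintro g (k | k) x y
      · show S.tp (g • x) < S.tp (g • y) ↔ _
        rw [S.tp_smul, S.tp_smul]
        rfl
      · exact S.R_smul_iff g k x y) (by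
      intro h hh
      have hA : S.Aut h := ⟨fun x y => hh (.inl ()) x y, fun k x y => hh (.inr k) x y⟩
      -- the permutation of `Ω`
      have h1 : ∀ ω, ∃ ω', h (ι (.inl ω)) = ι (.inl ω') ∧ h (ι (.inr ω)) = ι (.inr ω') := by
        intro ω
        obtain ⟨g, h1, h2⟩ := hP h hA (.inl ω) (.inr ω) rfl rfl
        exact ⟨g • ω, h1, h2⟩
      choose f hf1 hf2 using h1
      have hinj : Function.Injective f := by
        intro x y e
        have h1 : h (ι (.inl x)) = h (ι (.inl y)) := by rw [hf1, hf1, e]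
        exact Sum.inl.inj (hι (h.injective h1))
      obtain ⟨g, hg⟩ := hclosed (Equiv.ofBijective f (Finite.injective_iff_bijective.1 hinj)) (by
        intro x y
        obtain ⟨g, h1, h2⟩ := hP h hA (.inl x) (.inr y) rfl rfl
        rw [hf1] at h1
        rw [hf2] at h2
        exact ⟨g, (Sum.inl.inj (hι h1)).symm, (Sum.inr.inj (hι h2)).symm⟩)
      have hg' : ∀ x, f x = g • x := hg
      refine ⟨g, fun x => ?_⟩
      have h3 := hF (h.trans (MulAction.toPerm g⁻¹)) (hA.smul g⁻¹) (by
        rintro (ω | ω)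
        · show g⁻¹ • h (ι (.inl ω)) = _
          rw [hf1, hg', ← hιg]
          congr 1
          show (Sum.inl (g⁻¹ • g • ω) : Ω ⊕ Ω) = Sum.inl ω
          rw [inv_smul_smul]
        · show g⁻¹ • h (ι (.inr ω)) = _
          rw [hf2, hg', ← hιg]
          congr 1
          show (Sum.inr (g⁻¹ • g • ω) : Ω ⊕ Ω) = Sum.inr ω
          rw [inv_smul_smul]) x
      have h4 : g⁻¹ • h x = x := h3
      rwa [inv_smul_eq_iff] at h4)
  refine ⟨m, Γ, ψ, h1, h2, ?_⟩
  rw [h3]
  rw [Nat.card_sum] at hcard
  have h5 : (s + 2) * (Nat.card S.N + 1) ≤ (s + 2) * (64 * Nat.card Ω + 1) :=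
    Nat.mul_le_mul_left _ (by omega)
  omega

end Pool.Agent.SV
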