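import Pool.Agent.Lib_helper73.SV.Count
import Pool.Agent.Lib_helper73.SV.Str

/-!
# Nodes made of a subgroup, a set of points and a set of group elements
-/

set_option autoImplicit false
set_option linter.unusedSectionVars false

namespace Pool.Agent.SV

variable {G : Type} [Group G]

/-- the conjugate `g M g⁻¹` -/
def cj (g : G) (M : Subgroup G) : Subgroup G := M.comap (MulAut.conj g⁻¹).toMonoidHom

theorem mem_cj {g n : G} {M : Subgroup G} : n ∈ cj g M ↔ g⁻¹ * n * g ∈ M := by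
  show g⁻¹ * n * g⁻¹⁻¹ ∈ M ↔ _
  rw [inv_inv]

theorem conj_mem_cj {g n : G} {M : Subgroup G} : g * n * g⁻¹ ∈ cj g M ↔ n ∈ M := by
  rw [mem_cj]
  have e : g⁻¹ * (g * n * g⁻¹) * g = n := by group
  rw [e]

theorem cj_one (M : Subgroup G) : cj 1 M = M := by
  ext n
  rw [mem_cj]
  simp

theorem cj_mul (g g' : G) (M : Subgroup G) : cj (g * g') M = cj g (cj g' M) := by
  ext n
  rw [mem_cj, mem_cj, mem_cj]
  have e : (g * g')⁻¹ * n * (g * g') = g'⁻¹ * (g⁻¹ * n * g) * g' := by group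
  rw [e]

theorem cj_top (g : G) : cj g (⊤ : Subgroup G) = ⊤ := by
  ext n
  rw [mem_cj]
  simp

theorem cj_normal (g : G) (A : Subgroup G) [hA : A.Normal] : cj g A = A := by
  ext n
  rw [mem_cj]
  constructor
  · intro h
    have h1 := hA.conj_mem _ h g
    have e : g * (g⁻¹ * n * g) * g⁻¹ = n := by group
    rwa [e] at h1
  · intro h
    have h1 := hA.conj_mem _ h g⁻¹
    rwa [inv_inv] at h1

theorem cj_inj {g : G} {M M' : Subgroup G} (h : cj g M = cj g M') : M = M' := by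
  have := congrArg (cj g⁻¹) h
  rwa [← cj_mul, ← cj_mul, inv_mul_cancel, cj_one, cj_one] at this

theorem cj_mono {g : G} {M M' : Subgroup G} (h : M ≤ M') : cj g M ≤ cj g M' := by
  intro n hn
  rw [mem_cj] at hn ⊢
  exact h hn

/-- nodes -/
@[ext] structure Nd (G X : Type) [Group G] where
  /-- a subgroup -/
  M : Subgroup G
  /-- a set of points -/
  A : Set X
  /-- a set of group elements -/
  E : Set G

instance {X : Type} [Finite G] [Finite X] : Finite (Nd G X) :=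
  Finite.of_injective (fun v : Nd G X => (v.M, v.A, v.E)) fun v w h => by
    simp only [Prod.mk.injEq] at h
    exact Nd.ext h.1 h.2.1 h.2.2

variable {X : Type} [MulAction G X]

instance : MulAction G (Nd G X) where
  smul g v := ⟨cj g v.M, {x | g⁻¹ • x ∈ v.A}, {n | g⁻¹ * n * g ∈ v.E}⟩
  one_smul v := by
    apply Nd.ext
    · exact cj_one _
    · ext x
      show (1 : G)⁻¹ • x ∈ v.A ↔ _
      rw [inv_one, one_smul]
    · ext n
      show (1 : G)⁻¹ * n * 1 ∈ v.E ↔ _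
      simp
  mul_smul g g' v := by
    apply Nd.ext
    · exact cj_mul _ _ _
    · ext x
      show (g * g')⁻¹ • x ∈ v.A ↔ g'⁻¹ • g⁻¹ • x ∈ v.A
      rw [mul_inv_rev, mul_smul]
    · ext n
      show (g * g')⁻¹ * n * (g * g') ∈ v.E ↔ g'⁻¹ * (g⁻¹ * n * g) * g' ∈ v.E
      have e : (g * g')⁻¹ * n * (g * g') = g'⁻¹ * (g⁻¹ * n * g) * g' := by group
      rw [e]

theorem smul_M (g : G) (v : Nd G X) : (g • v).M = cj g v.M := rfl

theorem mem_smul_A {g : G} {v : Nd G X} {x : X} : x ∈ (g • v).A ↔ g⁻¹ • x ∈ v.A := Iff.rfl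

theorem mem_smul_E {g : G} {v : Nd G X} {n : G} : n ∈ (g • v).E ↔ g⁻¹ * n * g ∈ v.E := Iff.rfl

theorem smul_mem_smul_A {g : G} {v : Nd G X} {x : X} : g • x ∈ (g • v).A ↔ x ∈ v.A := by
  rw [mem_smul_A, inv_smul_smul]

theorem conj_mem_smul_E {g : G} {v : Nd G X} {n : G} : g * n * g⁻¹ ∈ (g • v).E ↔ n ∈ v.E := by
  rw [mem_smul_E]
  have e : g⁻¹ * (g * n * g⁻¹) * g = n := by group
  rw [e]

/-- the orbit of a subgroup -/
def orb (K : Subgroup G) (x : X) : Set X := {w | ∃ n ∈ K, n • x = w}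

theorem mem_orb_self (K : Subgroup G) (x : X) : x ∈ orb K x := ⟨1, K.one_mem, one_smul _ _⟩

theorem smul_mem_orb {K : Subgroup G} {n : G} (hn : n ∈ K) (x : X) : n • x ∈ orb K x := ⟨n, hn, rfl⟩

theorem orb_eq {K : Subgroup G} {x y : X} (h : y ∈ orb K x) : orb K y = orb K x := by
  obtain ⟨n, hn, rfl⟩ := h
  ext w
  constructor
  · rintro ⟨m, hm, rfl⟩
    exact ⟨m * n, K.mul_mem hm hn, mul_smul _ _ _⟩
  · rintro ⟨m, hm, rfl⟩
    refine ⟨m * n⁻¹, K.mul_mem hm (K.inv_mem hn), ?_⟩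
    rw [mul_smul, inv_smul_smul]

theorem mem_orb_symm {K : Subgroup G} {x y : X} (h : y ∈ orb K x) : x ∈ orb K y := by
  rw [orb_eq h]
  exact mem_orb_self K x

theorem orb_eq_iff {K : Subgroup G} {x y : X} : orb K y = orb K x ↔ y ∈ orb K x := by
  refine ⟨fun h => ?_, orb_eq⟩
  rw [← h]
  exact mem_orb_self K y

theorem orb_mono {K K' : Subgroup G} (h : K ≤ K') (x : X) : orb K x ⊆ orb K' x := by
  rintro w ⟨n, hn, rfl⟩
  exact ⟨n, h hn, rfl⟩

theorem smul_mk (g : G) (M K : Subgroup G) (x : X) :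
    g • (⟨M, orb K x, ∅⟩ : Nd G X) = ⟨cj g M, orb (cj g K) (g • x), ∅⟩ := by
  apply Nd.ext
  · rfl
  · ext w
    rw [mem_smul_A]
    constructor
    · rintro ⟨n, hn, h⟩
      refine ⟨g * n * g⁻¹, conj_mem_cj.2 hn, ?_⟩
      rw [mul_smul, inv_smul_smul, mul_smul, h, smul_inv_smul]
    · rintro ⟨n, hn, rfl⟩
      refine ⟨g⁻¹ * n * g, mem_cj.1 hn, ?_⟩
      rw [mul_smul, mul_smul]
  · ext n
    rw [mem_smul_E]
    simp

theorem smul_mk_single (g : G) (x : X) :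
    g • (⟨⊤, {x}, ∅⟩ : Nd G X) = ⟨⊤, {g • x}, ∅⟩ := by
  apply Nd.ext
  · exact cj_top g
  · ext w
    rw [mem_smul_A]
    show g⁻¹ • w = x ↔ w = g • x
    rw [inv_smul_eq_iff]
  · ext n
    rw [mem_smul_E]
    simp

end Pool.Agent.SV
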