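import Pool.Agent.Lib_helper73.SV.Marks

/-!
# Automorphisms on the level of nodes: affine maps on the directions
-/

set_option autoImplicit false
set_option linter.unusedSectionVars false

namespace Pool.Agent.SV

variable {G : Type} [Group G] {X : Type} [MulAction G X] {p : ℕ} {N A : Subgroup G}
  {side : X → Bool} {Mk : ℕ → Nd G X → Nd G X → Prop}

/-- the side of a set of points -/
def sdA (side : X → Bool) (B : Set X) : Prop := ∃ x ∈ B, side x = true

theorem sdA_orb (hside : ∀ (g : G) x, side (g • x) = side x) (K : Subgroup G) (x : X) :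
    sdA side (orb K x) ↔ side x = true := by
  constructor
  · rintro ⟨_, ⟨n, -, rfl⟩, h⟩
    rwa [hside] at h
  · intro h
    exact ⟨x, mem_orb_self K x, h⟩

theorem sdA_single (x : X) : sdA side {x} ↔ side x = true := by
  constructor
  · rintro ⟨y, hy, h⟩
    rw [Set.mem_singleton_iff] at hy
    rwa [← hy]
  · intro h
    exact ⟨x, rfl, h⟩

theorem sdA_smul (hside : ∀ (g : G) x, side (g • x) = side x) (g : G) (v : Nd G X) :
    sdA side (g • v).A ↔ sdA side v.A := by
  constructor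
  · rintro ⟨x, hx, h⟩
    exact ⟨g⁻¹ • x, hx, by rw [hside]; exact h⟩
  · rintro ⟨x, hx, h⟩
    exact ⟨g • x, smul_mem_smul_A.2 hx, by rw [hside]; exact h⟩

/-- An automorphism on the level of nodes. -/
structure Raw (p : ℕ) (A : Subgroup G) (side : X → Bool) (Mk : ℕ → Nd G X → Nd G X → Prop) where
  /-- the action on the new nodes -/
  H : Kd → Nd G X → Nd G X
  /-- the action on the nodes of the smaller set -/
  T : Nd G X → Nd G X
  val : ∀ k v, vd p A k v → vd p A k (H k v)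
  inj : ∀ k v w, vd p A k v → vd p A k w → H k v = H k w → v = w
  sd : ∀ k v, vd p A k v → (sdA side (H k v).A ↔ sdA side v.A)
  rel : ∀ i k k' v w, i < 2 → vd p A k v → vd p A k' w →
    (Qr Mk i k k' (H k v) (H k' w) ↔ Qr Mk i k k' v w)
  pair : ∀ u u', vX p A side u → vX p A side u' → sdA side u.A → ¬ sdA side u'.A →
    ∃ g : G, T u = g • u ∧ T u' = g • u'
  Tpt : ∀ x : X, (∃ n ∈ A, n • x ≠ x) → (H .pt (pv x)).A ⊆ (T (ov A x)).A
  Tdr : ∀ x M, Mx p A x M → side x = true → H .dr (dv A M x) = T (dv A M x)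
  Tdr' : ∀ x M, Mx p A x M → side x = false → (H .dr (dv A M x)).A = (T (ov A x)).A

theorem Qr_smul_iff (hMk : ∀ (g : G) i v w, Mk i v w → Mk i (g • v) (g • w)) (g : G) (i : ℕ)
    (k k' : Kd) (v w : Nd G X) : Qr Mk i k k' (g • v) (g • w) ↔ Qr Mk i k k' v w := by
  refine ⟨fun h => ?_, Qr_smul hMk g i k k' v w⟩
  have := Qr_smul hMk g⁻¹ i k k' _ _ h
  rwa [inv_smul_smul, inv_smul_smul] at this

namespace Raw

/-- composition with an element of the group -/
def smul (R : Raw p A side Mk) (hs : AbStep p N A X) (hside : ∀ (g : G) x, side (g • x) = side x)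
    (hMk : ∀ (g : G) i v w, Mk i v w → Mk i (g • v) (g • w)) (g : G) : Raw p A side Mk where
  H k v := g • R.H k v
  T v := g • R.T v
  val k v h := vd_smul hs g k _ (R.val k v h)
  inj k v w hv hw h := R.inj k v w hv hw (MulAction.injective g h)
  sd k v h := by rw [sdA_smul hside, R.sd k v h]
  rel i k k' v w hi hv hw := by rw [Qr_smul_iff hMk, R.rel i k k' v w hi hv hw]
  pair u u' hu hu' h h' := by
    obtain ⟨a, h1, h2⟩ := R.pair u u' hu hu' h h'
    exact ⟨g * a, by rw [h1, mul_smul], by rw [h2, mul_smul]⟩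
  Tpt x hx := smul_sub.2 (R.Tpt x hx)
  Tdr x M h h' := by rw [R.Tdr x M h h']
  Tdr' x M h h' := smul_A_eq.2 (R.Tdr' x M h h')

variable (hs : AbStep p N A X) [Finite G] [hp : Fact p.Prime] (R : Raw p A side Mk)

include hs

/-- hyperplanes over a fixed direction -/
theorem hy_of_dr {x : X} {M : Subgroup G} (hM : Mx p A x M)
    (hD : R.H .dr (dv A M x) = dv A M x) {n : G} (hn : n ∈ A) :
    ∃ m ∈ A, R.H .hy (hv M (n • x)) = hv M (m • x) := by
  have hv1 : vd p A .hy (hv M (n • x)) := ⟨n • x, M, hM.orb hs (smul_mem_orb hn x), rfl⟩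
  have hv2 : vd p A .dr (dv A M x) := ⟨x, M, hM, rfl⟩
  obtain ⟨x1, M1, h1, h2⟩ := R.val .hy _ hv1
  have h3 := (R.rel 0 .hy .dr _ _ (by norm_num) hv1 hv2).2
    ⟨rfl, by
      show orb M (n • x) ⊆ orb A x
      rw [← orb_eq (smul_mem_orb hn x : n • x ∈ orb A x)]
      exact orb_mono hM.2.1 _⟩
  rw [hD, h2] at h3
  obtain ⟨h4, h5⟩ := h3
  have h6 : M = M1 := h4
  subst h6
  have h7 : x1 ∈ orb A x := h5 (mem_orb_self M x1)
  obtain ⟨m, hm, rfl⟩ := h7
  exact ⟨m, hm, h2⟩

/-- the relation of Paley type in coordinates -/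
theorem pal_iff {x : X} {M : Subgroup G} (hM : Mx p A x M) {l l' : G → ZMod p}
    (hl : Coord p A M l) {n n' : G} (hn : n ∈ A) (hn' : n' ∈ A) :
    Qr Mk 1 .sh .hy (sv A M (n • x) l') (hv M (n' • x)) ↔
      ∃ m ∈ A, l' m ≠ 0 ∧ IsSquare (l' m) ∧ l n' = l m + l n := by
  have h1 : ∀ m ∈ A, (∀ y, y ∈ (hv M (n' • x) : Nd G X).A ↔ m⁻¹ • y ∈ (sv A M (n • x) l').A) ↔
      l n' = l m + l n := by
    intro m hm
    have h2 : (∀ y, y ∈ (hv M (n' • x) : Nd G X).A ↔ m⁻¹ • y ∈ (sv A M (n • x) l').A) ↔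
        (hv M (n' • x) : Nd G X).A = (m • hv M (n • x)).A := by
      rw [Set.ext_iff]
      exact Iff.rfl
    rw [h2, smul_hv, hM.cj hs hm, ← mul_smul, ← hl.mul m hm n hn]
    show orb M (n' • x) = orb M ((m * n) • x) ↔ _
    rw [orb_eq_iff, hM.mem_iff hs hl (A.mul_mem hm hn) hn', eq_comm]
  constructor
  · rintro ⟨-, m, ⟨hm, h2, h3⟩, h4⟩
    exact ⟨m, hm, h2, h3, (h1 m hm).1 h4⟩
  · rintro ⟨m, hm, h2, h3, h4⟩
    exact ⟨rfl, m, ⟨hm, h2, h3⟩, (h1 m hm).2 h4⟩

/-- **An automorphism that fixes a direction acts on its hyperplanes by an affine map.** -/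
theorem aff {x : X} {M : Subgroup G} (hM : Mx p A x M)
    (hD : R.H .dr (dv A M x) = dv A M x) {l : G → ZMod p} (hl : Coord p A M l)
    {e : ZMod p → G} (he : ∀ i, e i ∈ A) (he2 : ∀ i, l (e i) = i) :
    ∃ α β : ZMod p, α ≠ 0 ∧ ∀ i, R.H .hy (hv M (e i • x)) = hv M (e (α * i + β) • x) := by
  have hvi : ∀ i, vd p A .hy (hv M (e i • x)) := fun i =>
    ⟨e i • x, M, hM.orb hs (smul_mem_orb (he i) x), rfl⟩
  have hFinj : ∀ i j, (hv M (e i • x) : Nd G X) = hv M (e j • x) → i = j := by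
    intro i j h
    have := (hM.hv_eq hs hl (he i) (he j)).1 h
    rwa [he2, he2] at this
  have hπex : ∀ i, ∃ j, R.H .hy (hv M (e i • x)) = hv M (e j • x) := by
    intro i
    obtain ⟨m, hm, h1⟩ := R.hy_of_dr hs hM hD (he i)
    refine ⟨l m, ?_⟩
    rw [h1, hM.hv_eq hs hl hm (he _), he2]
  choose π hπ using hπex
  have hπinj : Function.Injective π := by
    intro i j h
    apply hFinj
    apply R.inj .hy _ _ (hvi i) (hvi j)
    rw [hπ, hπ, h]
  have : NeZero p := ⟨hp.out.ne_zero⟩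
  have hπbij : Function.Bijective π := Finite.injective_iff_bijective.1 hπinj
  -- the classes modulo squares
  have hεex : ∀ i, ∃ a : ZMod p, a ≠ 0 ∧ ∃ l' : G → ZMod p, (∀ n ∈ A, l' n = a * l n) ∧
      R.H .sh (sv A M (e i • x) l) = sv A M (e (π i) • x) l' := by
    intro i
    have hv1 : vd p A .sh (sv A M (e i • x) l) :=
      ⟨e i • x, M, hM.orb hs (smul_mem_orb (he i) x), l, hl, rfl⟩
    obtain ⟨x2, M2, h1, l2, hl2, h2⟩ := R.val .sh _ hv1
    have h3 := (R.rel 0 .sh .hy _ _ (by norm_num) hv1 (hvi i)).2 ⟨rfl, rfl⟩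
    rw [hπ, h2] at h3
    obtain ⟨h4, h5⟩ := h3
    have h6 : M = M2 := h4
    subst h6
    have h7 : orb M (e (π i) • x) = orb M x2 := h5
    obtain ⟨a, ha, ha2⟩ := hl.unique hl2
    refine ⟨a, ha, l2, ha2, ?_⟩
    rw [h2]
    unfold sv
    rw [h7]
  choose a ha l' hl' hsh using hεex
  have haff := VG.affine_of_squares hπbij (ε := fun i => (a i)⁻¹) (fun i => inv_ne_zero (ha i)) (by
    intro i j
    have hv1 : vd p A .sh (sv A M (e i • x) l) :=
      ⟨e i • x, M, hM.orb hs (smul_mem_orb (he i) x), l, hl, rfl⟩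
    have h1 := R.rel 1 .sh .hy _ _ (by norm_num) hv1 (hvi j)
    rw [hsh, hπ, pal_iff hs hM hl (he _) (he _), pal_iff hs hM hl (he _) (he _), he2, he2, he2,
      he2] at h1
    constructor
    · rintro ⟨s, h2, h3, h4⟩
      obtain ⟨m, hm, h5⟩ := hl.surj s
      obtain ⟨m', hm', h6, h7, h8⟩ := h1.2 ⟨m, hm, by rw [h5]; exact h2, by rw [h5]; exact h3, by
        rw [h5, h4, add_comm]⟩
      refine ⟨l' i m', h6, h7, ?_⟩
      rw [h8, hl' i m' hm', ← mul_assoc, inv_mul_cancel₀ (ha i), one_mul, add_comm]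
    · rintro ⟨s, h2, h3, h4⟩
      obtain ⟨m, hm, h5⟩ := hl.surj ((a i)⁻¹ * s)
      have h6 : l' i m = s := by
        rw [hl' i m hm, h5, ← mul_assoc, mul_inv_cancel₀ (ha i), one_mul]
      obtain ⟨m', hm', h7, h8, h9⟩ := h1.1 ⟨m, hm, by rw [h6]; exact h2, by rw [h6]; exact h3, by
        rw [h5, h4, add_comm]⟩
      exact ⟨l m', h7, h8, by rw [h9, add_comm]⟩)
  obtain ⟨α, β, hαβ⟩ := haff
  refine ⟨α, β, fun h0 => ?_, fun i => ?_⟩
  · have h1 : π 0 = π 1 := by rw [hαβ, hαβ, h0]; ring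
    exact zero_ne_one (hπinj h1)
  · rw [hπ, hαβ]

end Raw

/-- Coordinates at a pair of directions. -/
structure PD (p : ℕ) (A : Subgroup G) (side : X → Bool) (x x' : X) (M : Subgroup G)
    (l : G → ZMod p) (e : ZMod p → G) : Prop where
  s : side x = true
  s' : side x' = false
  m : Mx p A x M
  m' : Mx p A x' M
  c : Coord p A M l
  ea : ∀ i, e i ∈ A
  le : ∀ i, l (e i) = i

section

variable (hs : AbStep p N A X)

include hs

theorem PD.smul {x x' : X} {M : Subgroup G} {l : G → ZMod p} {e : ZMod p → G}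
    (h : PD p A side x x' M l e) (hside : ∀ (g : G) x, side (g • x) = side x) (g : G) :
    PD p A side (g • x) (g • x') (cj g M) (fun n => l (g⁻¹ * n * g)) fun i => g * e i * g⁻¹ := by
  have := hs.nA
  refine ⟨by rw [hside]; exact h.s, by rw [hside]; exact h.s', h.m.smul hs g, h.m'.smul hs g,
    h.c.conj g, fun i => this.conj_mem _ (h.ea i) g, fun i => ?_⟩
  show l (g⁻¹ * (g * e i * g⁻¹) * g) = i
  have e1 : g⁻¹ * (g * e i * g⁻¹) * g = e i := by group
  rw [e1, h.le]

/-- The marks at a pair of directions are good. -/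
def LocOK (p : ℕ) (A : Subgroup G) (side : X → Bool) (r : Nd G X × Nd G X)
    (S : ℕ → Set (Nd G X × Nd G X)) : Prop :=
  ∃ (x x' : X) (M : Subgroup G) (l : G → ZMod p) (e : ZMod p → G),
    PD p A side x x' M l e ∧ r = (dv A M x, dv A M x') ∧
    ∀ α β α' β' : ZMod p, α ≠ 0 → α' ≠ 0 →
      (∀ k < 2, ∀ i i', (∃ g ∈ MulAction.stabilizer G r,
        (g • hv M (e (α * i + β) • x), g • hv M (e (α' * i' + β') • x')) ∈ S k) ↔
        ∃ g ∈ MulAction.stabilizer G r, (g • hv M (e i • x), g • hv M (e i' • x')) ∈ S k) →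
      ∀ i i', ∃ g ∈ MulAction.stabilizer G r, hv M (e (α * i + β) • x) = g • hv M (e i • x) ∧
        hv M (e (α' * i' + β') • x') = g • hv M (e i' • x')

/-- the action of the stabilizer of a pair of directions -/
theorem PD.aff [Finite G] [hp : Fact p.Prime] {x x' : X} {M : Subgroup G} {l : G → ZMod p}
    {e : ZMod p → G} (h : PD p A side x x' M l e) {g : G}
    (hg : g ∈ MulAction.stabilizer G ((dv A M x, dv A M x') : Nd G X × Nd G X)) :
    ∃ a t t', a ≠ 0 ∧ (∀ i, g • hv M (e i • x) = hv M (e (a * i + t) • x)) ∧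
      ∀ i, g • hv M (e i • x') = hv M (e (a * i + t') • x') := by
  have hA := hs.nA
  rw [MulAction.mem_stabilizer_iff] at hg
  have h1 : g • dv A M x = dv A M x := congrArg Prod.fst hg
  have h2 : g • dv A M x' = dv A M x' := congrArg Prod.snd hg
  rw [smul_dv] at h1 h2
  have hcj : cj g M = M := congrArg Nd.M h1
  obtain ⟨a, ha, ha2⟩ := h.c.conj_eq hcj
  have key : ∀ y : X, Mx p A y M → dv A (cj g M) (g • y) = dv A M y → ∃ t,
      ∀ i, g • hv M (e i • y) = hv M (e (a * i + t) • y) := by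
    intro y hy h3
    have h4 : orb A (g • y) = orb A y := congrArg Nd.A h3
    obtain ⟨c, hc, hc2⟩ := orb_eq_iff.1 h4
    refine ⟨l c, fun i => ?_⟩
    have e1 : g • e i • y = (g * e i * g⁻¹ * c) • y := by
      rw [mul_smul _ c, hc2, ← mul_smul, ← mul_smul]
      congr 1
      group
    rw [smul_hv, hcj, e1, hy.hv_eq hs h.c (A.mul_mem (hA.conj_mem _ (h.ea i) g) hc) (h.ea _),
      h.le, h.c.mul _ (hA.conj_mem _ (h.ea i) g) _ hc, ha2 _ (h.ea i), h.le]
  obtain ⟨t, ht⟩ := key x h.m h1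
  obtain ⟨t', ht'⟩ := key x' h.m' h2
  exact ⟨a, t, t', ha, ht, ht'⟩

/-- Good marks exist. -/
theorem exists_locOK [Finite G] [hp : Fact p.Prime] {x x' : X} {M : Subgroup G}
    (h0 : side x = true) (h0' : side x' = false) (hM : Mx p A x M) (hM' : Mx p A x' M) :
    ∃ S, LocOK p A side (dv A M x, dv A M x') S := by
  have hA := hs.nA
  obtain ⟨l, hl⟩ := hM.coord hs
  choose e he he2 using hl.surj
  have hPD : PD p A side x x' M l e := ⟨h0, h0', hM, hM', hl, he, he2⟩
  have hinj : ∀ y : X, Mx p A y M → Function.Injective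
      (fun i : ZMod p => (hv M (e i • y) : Nd G X)) := by
    intro y hy i j hij
    have := (hy.hv_eq hs hl (he i) (he j)).1 hij
    rwa [he2, he2] at this
  obtain ⟨S, hS⟩ := loc2 (MulAction.stabilizer G ((dv A M x, dv A M x') : Nd G X × Nd G X))
    (hinj x hM) (hinj x' hM') (fun g hg => hPD.aff hs hg) (by
      intro s
      refine ⟨e s, ?_, ?_, ?_⟩
      · rw [MulAction.mem_stabilizer_iff]
        have key : ∀ y : X, Mx p A y M → e s • dv A M y = dv A M y := by
          intro y hy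
          rw [smul_dv, hy.cj hs (he s)]
          unfold dv
          rw [orb_eq (smul_mem_orb (he s) y)]
        exact Prod.ext (key x hM) (key x' hM')
      · intro i
        show e s • hv M (e i • x) = hv M (e (i + s) • x)
        rw [smul_hv, hM.cj hs (he s), ← mul_smul, hM.hv_eq hs hl (A.mul_mem (he s) (he i)) (he _),
          he2, hl.mul _ (he s) _ (he i), he2, he2, add_comm]
      · intro i
        show e s • hv M (e i • x') = hv M (e (i + s) • x')
        rw [smul_hv, hM'.cj hs (he s), ← mul_smul,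
          hM'.hv_eq hs hl (A.mul_mem (he s) (he i)) (he _),
          he2, hl.mul _ (he s) _ (he i), he2, he2, add_comm])
  exact ⟨S, x, x', M, l, e, hPD, rfl, hS⟩

end

end Pool.Agent.SV
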