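import Pool.Agent.Lib_helper73.SV.Four

/-!
# Steps with elementary abelian factors
-/

set_option autoImplicit false
set_option linter.unusedSectionVars false

namespace Pool.Agent.SV

variable {G : Type} [Group G] {X : Type} [MulAction G X] {p : ℕ} {N A : Subgroup G}
  {side : X → Bool} {S : Nd G X × Nd G X → ℕ → Set (Nd G X × Nd G X)}

namespace Raw

variable (hs : AbStep p N A X) [Finite G] [hp : Fact p.Prime]

include hs

/-- An automorphism that fixes the points fixes all new nodes. -/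
theorem fix_all {Mk : ℕ → Nd G X → Nd G X → Prop} (R : Raw p A side Mk)
    (hpt : ∀ x : X, (∃ n ∈ A, n • x ≠ x) → R.H .pt (pv x) = pv x) (k : Kd) (v : Nd G X)
    (hv0 : vd p A k v) : R.H k v = v := by
  have hhy : ∀ x M, Mx p A x M → R.H .hy (hv M x) = hv M x := by
    intro x M hM
    have hv1 : vd p A .hy (hv M x) := ⟨x, M, hM, rfl⟩
    obtain ⟨x1, M1, h1, h2⟩ := R.val .hy _ hv1
    have h3 : ∀ w : X, (∃ n ∈ A, n • w ≠ w) → (w ∈ orb M1 x1 ↔ w ∈ orb M x) := by
      intro w hw
      have h4 := R.rel 0 .pt .hy (pv w) (hv M x) (by norm_num) ⟨w, hw, rfl⟩ hv1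
      rw [hpt w hw, h2] at h4
      have h5 : ({w} ⊆ orb M1 x1) ↔ ({w} ⊆ orb M x) := h4
      rwa [Set.singleton_subset_iff, Set.singleton_subset_iff] at h5
    have h5 : orb M1 x1 = orb M x := by
      ext w
      constructor
      · intro hw
        exact (h3 w ((h1.orb hs (orb_mono h1.2.1 _ hw)).moved hs)).1 hw
      · intro hw
        exact (h3 w ((hM.orb hs (orb_mono hM.2.1 _ hw)).moved hs)).2 hw
    have hx : x ∈ orb M1 x1 := by
      rw [h5]
      exact mem_orb_self M x
    have h6 : Mx p A x M1 := h1.orb hs (orb_mono h1.2.1 _ hx)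
    have h7 : orb M1 x = orb M x := by rw [orb_eq hx, h5]
    have h8 : M1 = M := by
      ext n
      constructor
      · intro hn
        apply hM.mem hs (h1.2.1 hn)
        rw [← h7]
        exact smul_mem_orb hn x
      · intro hn
        apply h6.mem hs (hM.2.1 hn)
        rw [h7]
        exact smul_mem_orb hn x
    subst h8
    rw [h2]
    unfold hv
    rw [h5]
  cases k with
  | pt =>
    obtain ⟨x, hx, rfl⟩ := hv0
    exact hpt x hx
  | dr =>
    obtain ⟨x, M, hM, rfl⟩ := hv0
    have hv1 : vd p A .hy (hv M x) := ⟨x, M, hM, rfl⟩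
    have hv2 : vd p A .dr (dv A M x) := ⟨x, M, hM, rfl⟩
    obtain ⟨x1, M1, h1, h2⟩ := R.val .dr _ hv2
    have h3 := (R.rel 0 .hy .dr _ _ (by norm_num) hv1 hv2).2 ⟨rfl, orb_mono hM.2.1 x⟩
    rw [hhy x M hM, h2] at h3
    obtain ⟨h4, h5⟩ := h3
    have h6 : M1 = M := h4
    subst h6
    have h7 : x ∈ orb A x1 := h5 (mem_orb_self M1 x)
    rw [h2]
    unfold dv
    rw [orb_eq h7]
  | hy =>
    obtain ⟨x, M, hM, rfl⟩ := hv0
    exact hhy x M hM
  | sh =>
    obtain ⟨x, M, hM, l, hl, rfl⟩ := hv0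
    have hv1 : vd p A .hy (hv M x) := ⟨x, M, hM, rfl⟩
    have hv2 : vd p A .sh (sv A M x l) := ⟨x, M, hM, l, hl, rfl⟩
    obtain ⟨x2, M2, h1, l2, hl2, h2⟩ := R.val .sh _ hv2
    have h3 := (R.rel 0 .sh .hy _ _ (by norm_num) hv2 hv1).2 ⟨rfl, rfl⟩
    rw [hhy x M hM, h2] at h3
    obtain ⟨h4, h5⟩ := h3
    have h6 : M = M2 := h4
    subst h6
    have h7 : orb M x = orb M x2 := h5
    obtain ⟨a, ha, ha2⟩ := hl.unique hl2
    have h8 : sv A M x2 l2 = sv A M x l2 := by
      unfold sv
      rw [h7]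
    have h9 : ∀ n' ∈ A, (l2 n' ≠ 0 ∧ IsSquare (l2 n')) ↔ (l n' ≠ 0 ∧ IsSquare (l n')) := by
      intro n' hn'
      have h10 := R.rel 1 .sh .hy (sv A M x l) (hv M (n' • x)) (by norm_num) hv2
        ⟨n' • x, M, hM.orb hs (smul_mem_orb hn' x), rfl⟩
      rw [hhy _ _ (hM.orb hs (smul_mem_orb hn' x)), h2, h8] at h10
      have e1 : x = (1 : G) • x := (one_smul _ _).symm
      have h11 : ∀ l' : G → ZMod p, sv A M x l' = sv A M ((1 : G) • x) l' := by
        intro l'
        rw [one_smul]
      rw [h11, h11, pal_iff hs hM hl A.one_mem hn', pal_iff hs hM hl A.one_mem hn', hl.one] at h10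
      constructor
      · rintro ⟨b1, b2⟩
        obtain ⟨m, hm, b3, b4, b5⟩ := h10.1 ⟨n', hn', b1, b2, (add_zero _).symm⟩
        rw [add_zero] at b5
        rw [b5]
        exact ⟨b3, b4⟩
      · rintro ⟨b1, b2⟩
        obtain ⟨m, hm, b3, b4, b5⟩ := h10.2 ⟨n', hn', b1, b2, (add_zero _).symm⟩
        rw [add_zero] at b5
        have b6 : l2 n' = l2 m := by rw [ha2 n' hn', ha2 m hm, b5]
        rw [b6]
        exact ⟨b3, b4⟩
    rw [h2, h8]
    unfold sv
    congr 1
    ext n
    show (n ∈ A ∧ l2 n ≠ 0 ∧ IsSquare (l2 n)) ↔ (n ∈ A ∧ l n ≠ 0 ∧ IsSquare (l n))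
    constructor
    · rintro ⟨b1, b2⟩
      exact ⟨b1, (h9 n b1).1 b2⟩
    · rintro ⟨b1, b2⟩
      exact ⟨b1, (h9 n b1).2 b2⟩

end Raw

/-- the code of a kind -/
def kc : Kd → ℕ
  | .pt => 0
  | .dr => 1
  | .hy => 2
  | .sh => 3

theorem kc_inj {k k' : Kd} (h : kc k = kc k') : k = k' := by
  cases k <;> cases k' <;> simp_all [kc]

section step

open Classical in
/-- the number of the side -/
noncomputable def sn (side : X → Bool) (B : Set X) : ℕ := if sdA side B then 1 else 0

theorem sn_le (side : X → Bool) (B : Set X) : sn side B ≤ 1 := by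
  unfold sn
  split_ifs <;> omega

theorem sn_eq {side : X → Bool} {B B' : Set X} (h : sn side B = sn side B') :
    sdA side B ↔ sdA side B' := by
  unfold sn at h
  split_ifs at h with h1 h2 h3
  · exact ⟨fun _ => h2, fun _ => h1⟩
  · exact ⟨fun h => absurd h h1, fun h => absurd h h3⟩

theorem sn_congr {side : X → Bool} {B B' : Set X} (h : sdA side B ↔ sdA side B') :
    sn side B = sn side B' := by
  unfold sn
  by_cases h' : sdA side B
  · rw [if_pos h', if_pos (h.1 h')]
  · rw [if_neg h', if_neg fun h2 => h' (h.2 h2)]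

/-- the new nodes -/
abbrev Nw (p : ℕ) (A : Subgroup G) (X : Type) [MulAction G X] : Type :=
  {t : Kd × Nd G X // vd p A t.1 t.2}

/-- the smaller set -/
abbrev XX (p : ℕ) (A : Subgroup G) (side : X → Bool) : Type := {v : Nd G X // vX p A side v}

/-- the action on the new nodes -/
@[reducible] def actNw (hs : AbStep p N A X) : MulAction G (Nw p A X) where
  smul g t := ⟨(t.1.1, g • t.1.2), vd_smul hs g _ _ t.2⟩
  one_smul t := Subtype.ext (Prod.ext rfl (one_smul G t.1.2))
  mul_smul g g' t := Subtype.ext (Prod.ext rfl (mul_smul g g' t.1.2))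

/-- the action on the smaller set -/
@[reducible] def actXX (hs : AbStep p N A X) (hside : ∀ (g : G) x, side (g • x) = side x) :
    MulAction G (XX p A side) where
  smul g t := ⟨g • t.1, vX_smul hs hside g _ t.2⟩
  one_smul t := Subtype.ext (one_smul G t.1)
  mul_smul g g' t := Subtype.ext (mul_smul g g' t.1)

open Classical in
theorem controls_ab_aux [Finite G] [Finite X] {b K : ℕ} (hb : 2 ≤ b) [hp : Fact p.Prime]
    (hs : AbStep p N A X) (hC : Controls b K A) (hXK : Nat.card X ≤ K) (hside : ∀ (g : G) x, side (g • x) = side x)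
    (ht : ∃ x, side x = true) (hf : ∃ x, side x = false)
    (hcard : Nat.card {x : X // side x = true ∧ ∃ n ∈ A, n • x ≠ x} ≤
      Nat.card {x : X // side x = false ∧ ∃ n ∈ A, n • x ≠ x}) :
    ∃ (S : Str G b) (ι : X → S.N), Function.Injective ι ∧ (∀ (g : G) (x : X), ι (g • x) = g • ι x) ∧
      (∀ h, S.Aut h → ∀ x x', side x = true → side x' = false →
        ∃ g : G, h (ι x) = ι (g • x) ∧ h (ι x') = ι (g • x')) ∧
      (∀ h, S.Aut h → (∀ x, h (ι x) = ι x) → ∀ a, h a = a) ∧
      Nat.card S.N ≤ 32 * Nat.card X := by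
  have hA := hs.nA
  obtain ⟨xt, hxt⟩ := ht
  obtain ⟨xf, hxf⟩ := hf
  let _ : MulAction G (XX p A side) := actXX hs hside
  have : Finite (XX p A side) := inferInstanceAs (Finite {v : Nd G X // vX p A side v})
  let side' : XX p A side → Bool := fun v => decide (sdA side v.1.A)
  have hsd : ∀ v : XX p A side, side' v = true ↔ sdA side v.1.A := fun v => decide_eq_true_iff
  have hsd' : ∀ v : XX p A side, side' v = false ↔ ¬ sdA side v.1.A := fun v => decide_eq_false_iff_not
  have hside' : ∀ (g : G) (v : XX p A side), side' (g • v) = side' v := by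
    intro g v
    have h1 : sdA side (g • v.1).A ↔ sdA side v.1.A := sdA_smul hside g v.1
    exact decide_eq_decide.2 h1
  -- orbit nodes
  let oX : X → XX p A side := fun x => ⟨ov A x, .inl ⟨x, rfl⟩⟩
  have hoX : ∀ (g : G) x, oX (g • x) = g • oX x := fun g x => Subtype.ext (smul_ov g A x).symm
  have hot : ∀ x, side x = true → side' (oX x) = true := fun x hx =>
    (hsd _).2 ((sdA_orb hside A x).2 hx)
  have hof : ∀ x, side x = false → side' (oX x) = false := fun x hx =>
    (hsd' _).2 fun h => by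
      have := (sdA_orb hside A x).1 h
      rw [hx] at this
      exact absurd this (by simp)
  obtain ⟨S0, ι', hι', hιg', hP', hF', hcard'⟩ := hC (XX p A side) side' (by
    have h2 : 32 * Nat.card (XX p A side) +
      16 * Nat.card {x : X // side x = false ∧ ∃ n ∈ A, n • x ≠ x} ≤ 32 * Nat.card X :=
      card_vX hs hside
    omega) hside' (by
    rintro n hn ⟨v, ⟨x, rfl⟩ | ⟨x, M, h0, hM, rfl⟩⟩
    · apply Subtype.ext
      show n • ov A x = ov A x
      rw [smul_ov]
      unfold ov
      rw [orb_eq (smul_mem_orb hn x)]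
    · apply Subtype.ext
      show n • dv A M x = dv A M x
      rw [smul_dv, hM.cj hs hn]
      unfold dv
      rw [orb_eq (smul_mem_orb hn x)]) ⟨oX xt, hot xt hxt⟩ ⟨oX xf, hof xf hxf⟩
  -- the marks
  let Sc : Nd G X × Nd G X → ℕ → Set (Nd G X × Nd G X) := fun r =>
    if h : ∃ S, LocOK p A side r S then h.choose else fun _ => ∅
  have hSc : ∀ (x x' : X) M, side x = true → side x' = false → Mx p A x M → Mx p A x' M →
      LocOK p A side (dv A M x, dv A M x') (Sc (dv A M x, dv A M x')) := by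
    intro x x' M h1 h2 h3 h4
    have h5 := exists_locOK hs h1 h2 h3 h4
    have h6 : Sc (dv A M x, dv A M x') = h5.choose := dif_pos h5
    rw [h6]
    exact h5.choose_spec
  let _ : MulAction G (Nw p A X) := actNw hs
  have : Finite (Nw p A X) := inferInstanceAs (Finite {t : Kd × Nd G X // vd p A t.1 t.2})
  -- the extension
  let E : Ext S0 :=
    { W := Nw p A X
      act := inferInstance
      fin := inferInstance
      code := fun t => 2 * kc t.1.1 + sn side t.1.2.A
      code_smul := by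
        intro g t
        show 2 * kc t.1.1 + sn side (g • t.1.2).A = 2 * kc t.1.1 + sn side t.1.2.A
        rw [sn_congr (sdA_smul hside g t.1.2)]
      Qo := fun k t a => k.1 = 0 ∧
        ((t.1.1 = .pt ∧ ∃ u : XX p A side, a = ι' u ∧ u.1.M = ⊤ ∧ t.1.2.A ⊆ u.1.A) ∨
          (t.1.1 = .dr ∧ ∃ u : XX p A side, a = ι' u ∧ u.1.A = t.1.2.A ∧
            (sdA side t.1.2.A → u.1.M = t.1.2.M) ∧ (¬ sdA side t.1.2.A → u.1.M = ⊤)))
      Qo_smul := by
        rintro g k t a ⟨h1, h2⟩
        refine ⟨h1, ?_⟩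
        rcases h2 with ⟨h2, u, rfl, h3, h4⟩ | ⟨h2, u, rfl, h3, h4, h5⟩
        · refine .inl ⟨h2, g • u, (hιg' g u).symm, ?_, smul_sub.2 h4⟩
          show cj g u.1.M = ⊤
          rw [h3, cj_top]
        · refine .inr ⟨h2, g • u, (hιg' g u).symm, smul_A_eq.2 h3, fun h6 => ?_, fun h6 => ?_⟩
          · exact smul_M_eq.2 (h4 ((sdA_smul hside g t.1.2).1 h6))
          · show cj g u.1.M = ⊤
            rw [h5 fun h7 => h6 ((sdA_smul hside g t.1.2).2 h7), cj_top]
      Qn := fun k t t' => Qr (Mks A Sc) k.1 t.1.1 t'.1.1 t.1.2 t'.1.2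
      Qn_smul := by
        intro g k t t' h
        exact Qr_smul (fun g i v w h => Mks_smul g i v w h) g k.1 _ _ _ _ h }
  -- the points
  let mv : X → Prop := fun x => ∃ n ∈ A, n • x ≠ x
  let ptn : ∀ x, mv x → Nw p A X := fun x hx => ⟨(.pt, pv x), x, hx, rfl⟩
  let ι : X → E.str.N := fun x => if hx : mv x then .inr (ptn x hx) else .inl (ι' (oX x))
  have hι1 : ∀ x (hx : mv x), ι x = .inr (ptn x hx) := fun x hx => dif_pos hx
  have hι0 : ∀ x, ¬ mv x → ι x = .inl (ι' (oX x)) := fun x hx => dif_neg hx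
  have hmv : ∀ (g : G) x, mv (g • x) ↔ mv x := by
    intro g x
    refine ⟨fun h => ?_, fun h => moved_smul h g⟩
    have := moved_smul h g⁻¹
    rwa [inv_smul_smul] at this
  have hfixo : ∀ x y, ¬ mv x → y ∈ orb A x → y = x := by
    rintro x _ hx ⟨n, hn, rfl⟩
    by_contra h
    exact hx ⟨n, hn, h⟩
  have hιinj : Function.Injective ι := by
    intro x y hxy
    by_cases hx : mv x
    · by_cases hy : mv y
      · rw [hι1 x hx, hι1 y hy] at hxy
        have h1 := Sum.inr.inj hxy
        exact pv_inj (congrArg (fun t : Nw p A X => t.1.2) h1)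
      · rw [hι1 x hx, hι0 y hy] at hxy
        exact absurd hxy (by simp)
    · by_cases hy : mv y
      · rw [hι0 x hx, hι1 y hy] at hxy
        exact absurd hxy (by simp)
      · rw [hι0 x hx, hι0 y hy] at hxy
        have h1 := hι' (Sum.inl.inj hxy)
        have h2 : orb A x = orb A y := congrArg (fun t : XX p A side => t.1.A) h1
        exact hfixo y x hy (orb_eq_iff.1 h2)
  have hιg : ∀ (g : G) x, ι (g • x) = g • ι x := by
    intro g x
    by_cases hx : mv x
    · rw [hι1 x hx, hι1 _ ((hmv g x).2 hx)]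
      show (Sum.inr _ : S0.N ⊕ Nw p A X) = Sum.inr (g • ptn x hx)
      congr 1
      exact Subtype.ext (Prod.ext rfl (smul_pv g x).symm)
    · rw [hι0 x hx, hι0 _ (fun h => hx ((hmv g x).1 h)), hoX, hιg']
      rfl
  -- the automorphisms
  have hraw : ∀ h, E.str.Aut h → ∃ R : Raw p A side (Mks A Sc),
      (∀ x (hx : mv x), ∃ y, ∃ hy : mv y, R.H .pt (pv x) = pv y ∧
        h (.inr (ptn x hx)) = .inr (ptn y hy)) ∧
      (∀ u : XX p A side, ∃ u' : XX p A side, R.T u.1 = u'.1 ∧ h (.inl (ι' u)) = .inl (ι' u')) ∧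
      ((∀ k v, vd p A k v → R.H k v = v) → ∀ t, h (.inr t) = .inr t) ∧
      ((∀ u : XX p A side, R.T u.1 = u.1) → ∀ a, h (.inl a) = .inl a) := by
    intro h hh
    obtain ⟨h0, h1, hh0, e0, e1, hc, hQo, hQn⟩ := E.aut hh
    have hkd : ∀ t : Nw p A X, (h1 t).1.1 = t.1.1 ∧
        (sdA side (h1 t).1.2.A ↔ sdA side t.1.2.A) := by
      intro t
      have h2 : 2 * kc (h1 t).1.1 + sn side (h1 t).1.2.A = 2 * kc t.1.1 + sn side t.1.2.A := hc t
      have h3 := sn_le side (h1 t).1.2.A
      have h4 := sn_le side t.1.2.A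
      exact ⟨kc_inj (by omega), sn_eq (by omega)⟩
    have hpair : ∀ u u' : XX p A side, side' u = true → side' u' = false →
        ∃ g : G, h0 (ι' u) = ι' (g • u) ∧ h0 (ι' u') = ι' (g • u') := by
      intro u u' h2 h3
      exact hP' h0 hh0 u u' h2 h3
    have hTex : ∀ u : XX p A side, ∃ u', h0 (ι' u) = ι' u' := by
      intro u
      by_cases h2 : side' u = true
      · obtain ⟨g, h3, -⟩ := hpair u (oX xf) h2 (hof xf hxf)
        exact ⟨_, h3⟩
      · obtain ⟨g, -, h3⟩ := hpair (oX xt) u (hot xt hxt) (by simpa using h2)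
        exact ⟨_, h3⟩
    choose T0 hT0 using hTex
    let H : Kd → Nd G X → Nd G X := fun k v =>
      if hv : vd p A k v then (h1 ⟨(k, v), hv⟩).1.2 else v
    let T : Nd G X → Nd G X := fun v => if hv : vX p A side v then (T0 ⟨v, hv⟩).1 else v
    have hH : ∀ k v (hv : vd p A k v), H k v = (h1 ⟨(k, v), hv⟩).1.2 := fun k v hv => dif_pos hv
    have hT : ∀ u : XX p A side, T u.1 = (T0 u).1 := fun u => dif_pos u.2
    have hHval : ∀ k v, vd p A k v → vd p A k (H k v) := by
      intro k v hv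
      rw [hH k v hv]
      have h2 := (h1 ⟨(k, v), hv⟩).2
      rw [(hkd ⟨(k, v), hv⟩).1] at h2
      exact h2
    have hH1 : ∀ k v (hv : vd p A k v), h1 ⟨(k, v), hv⟩ = ⟨(k, H k v), hHval k v hv⟩ := by
      intro k v hv
      apply Subtype.ext
      apply Prod.ext
      · exact (hkd ⟨(k, v), hv⟩).1
      · exact (hH k v hv).symm
    have hsd1 : ∀ k v, vd p A k v → (sdA side (H k v).A ↔ sdA side v.A) := by
      intro k v hv
      rw [hH k v hv]
      exact (hkd ⟨(k, v), hv⟩).2
    have hvXE : ∀ u : XX p A side, u.1.E = ∅ := by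
      rintro ⟨v, ⟨x, rfl⟩ | ⟨x, M, -, -, rfl⟩⟩ <;> rfl
    have hdrE : ∀ v, vd p A .dr v → (v : Nd G X).E = ∅ := by
      rintro v ⟨x, M, -, rfl⟩
      rfl
    let R : Raw p A side (Mks A Sc) :=
      { H := H
        T := T
        val := hHval
        inj := by
          intro k v w hv hw h2
          have h3 : h1 ⟨(k, v), hv⟩ = h1 ⟨(k, w), hw⟩ := by
            rw [hH1, hH1]
            exact Subtype.ext (Prod.ext rfl h2)
          have h4 := h1.injective h3
          exact congrArg (fun t : Nw p A X => t.1.2) h4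
        sd := hsd1
        rel := by
          intro i k k' v w hi hv hw
          have h2 := hQn ⟨i, by omega⟩ ⟨(k, v), hv⟩ ⟨(k', w), hw⟩
          rw [hH1, hH1] at h2
          exact h2
        pair := by
          intro u u' hu hu' h2 h3
          obtain ⟨g, h4, h5⟩ := hpair ⟨u, hu⟩ ⟨u', hu'⟩ ((hsd _).2 h2) ((hsd' _).2 h3)
          rw [hT0] at h4 h5
          refine ⟨g, ?_, ?_⟩
          · have h6 := hT ⟨u, hu⟩
            rw [hι' h4] at h6
            exact h6
          · have h6 := hT ⟨u', hu'⟩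
            rw [hι' h5] at h6
            exact h6
        Tpt := by
          intro x hx
          have hv : vd p A .pt (pv x) := ⟨x, hx, rfl⟩
          have h2 := (hQo ⟨0, by omega⟩ ⟨(.pt, pv x), hv⟩ (ι' (oX x))).2 ⟨rfl, .inl ⟨rfl, oX x,
            rfl, rfl, by
              show ({x} : Set X) ⊆ orb A x
              rw [Set.singleton_subset_iff]
              exact mem_orb_self A x⟩⟩
          rw [hH1, hT0] at h2
          obtain ⟨-, ⟨-, u, h3, -, h4⟩ | ⟨h3, -⟩⟩ := h2
          · have h5 := hι' h3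
            have h6 := hT (oX x)
            rw [h5] at h6
            have h7 : T (ov A x) = u.1 := h6
            rw [h7]
            exact h4
          · exact absurd h3 (by simp)
        Tdr := by
          intro x M hM h2
          have hv : vd p A .dr (dv A M x) := ⟨x, M, hM, rfl⟩
          have hX : vX p A side (dv A M x) := .inr ⟨x, M, h2, hM, rfl⟩
          have hsx : sdA side (dv A M x).A := (sdA_orb hside A x).2 h2
          have h3 := (hQo ⟨0, by omega⟩ ⟨(.dr, dv A M x), hv⟩ (ι' ⟨dv A M x, hX⟩)).2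
            ⟨rfl, .inr ⟨rfl, ⟨dv A M x, hX⟩, rfl, rfl, fun _ => rfl, fun h4 => absurd hsx h4⟩⟩
          rw [hH1, hT0] at h3
          obtain ⟨-, ⟨h4, -⟩ | ⟨-, u, h4, h5, h6, -⟩⟩ := h3
          · exact absurd h4 (by simp)
          · have h7 := hι' h4
            have h8 := hT ⟨dv A M x, hX⟩
            rw [h7] at h8
            have h9 : T (dv A M x) = u.1 := h8
            have h10 : sdA side (H .dr (dv A M x)).A := (hsd1 .dr _ hv).2 hsx
            rw [h9]
            apply Nd.ext
            · exact (h6 h10).symm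
            · exact h5.symm
            · rw [hvXE u, hdrE _ (hHval .dr _ hv)]
        Tdr' := by
          intro x M hM h2
          have hv : vd p A .dr (dv A M x) := ⟨x, M, hM, rfl⟩
          have hsx : ¬ sdA side (dv A M x).A := fun h => by
            have h3 := (sdA_orb hside A x).1 h
            rw [h2] at h3
            exact absurd h3 (by simp)
          have h3 := (hQo ⟨0, by omega⟩ ⟨(.dr, dv A M x), hv⟩ (ι' (oX x))).2
            ⟨rfl, .inr ⟨rfl, oX x, rfl, rfl, fun h4 => absurd h4 hsx, fun _ => rfl⟩⟩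
          rw [hH1, hT0] at h3
          obtain ⟨-, ⟨h4, -⟩ | ⟨-, u, h4, h5, -, -⟩⟩ := h3
          · exact absurd h4 (by simp)
          · have h7 := hι' h4
            have h8 := hT (oX x)
            rw [h7] at h8
            have h9 : T (ov A x) = u.1 := h8
            rw [h9]
            exact h5.symm }
    refine ⟨R, fun x hx => ?_, fun u => ?_, fun h2 t => ?_, fun h2 a => ?_⟩
    · have hv : vd p A .pt (pv x) := ⟨x, hx, rfl⟩
      obtain ⟨y, hy, h2⟩ := hHval .pt _ hv
      refine ⟨y, hy, h2, ?_⟩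
      rw [e1]
      congr 1
      have h3 := hH1 .pt (pv x) hv
      have h4 : h1 (ptn x hx) = ⟨(.pt, H .pt (pv x)), hHval _ _ hv⟩ := h3
      rw [h4]
      exact Subtype.ext (Prod.ext rfl h2)
    · refine ⟨T0 u, hT u, ?_⟩
      rw [e0, hT0]
    · rw [e1]
      congr 1
      obtain ⟨⟨k, v⟩, hv⟩ := t
      have h3 := hH1 k v hv
      rw [h3]
      exact Subtype.ext (Prod.ext rfl (h2 k v hv))
    · rw [e0]
      congr 1
      apply hF' h0 hh0
      intro u
      rw [hT0]
      congr 1
      apply Subtype.ext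
      rw [← hT u]
      exact h2 u
  refine ⟨E.str, ι, hιinj, hιg, ?_, ?_, ?_⟩
  · -- pairs
    intro h hh x x' hx hx'
    obtain ⟨R, hR1, hR2, -, -⟩ := hraw h hh
    have hview : ∀ y : X, ∃ z, h (ι y) = ι z ∧ R.T (ov A y) = ov A z ∧
        (mv y → R.H .pt (pv y) = pv z) := by
      intro y
      have hTy : ∃ g : G, R.T (ov A y) = ov A (g • y) := by
        by_cases hy : side y = true
        · obtain ⟨g, h1, -⟩ := R.pair (ov A y) (ov A xf) (.inl ⟨y, rfl⟩) (.inl ⟨xf, rfl⟩)
            ((sdA_orb hside A y).2 hy) ((hsd' (oX xf)).1 (hof xf hxf))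
          exact ⟨g, by rw [h1, smul_ov]⟩
        · have hy' : side y = false := by simpa using hy
          obtain ⟨g, -, h1⟩ := R.pair (ov A xt) (ov A y) (.inl ⟨xt, rfl⟩) (.inl ⟨y, rfl⟩)
            ((sdA_orb hside A xt).2 hxt) ((hsd' (oX y)).1 (hof y hy'))
          exact ⟨g, by rw [h1, smul_ov]⟩
      obtain ⟨g, hg⟩ := hTy
      by_cases hy : mv y
      · obtain ⟨z, hz, h1, h2⟩ := hR1 y hy
        refine ⟨z, ?_, ?_, fun _ => h1⟩
        · rw [hι1 y hy, hι1 z hz, h2]
        · have h3 := R.Tpt y hy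
          rw [h1, hg] at h3
          have h4 : z ∈ orb A (g • y) := h3 rfl
          rw [hg]
          unfold ov
          rw [orb_eq h4]
      · refine ⟨g • y, ?_, hg, fun h1 => absurd h1 hy⟩
        obtain ⟨u', h1, h2⟩ := hR2 (oX y)
        rw [hι0 y hy, h2, hι0 _ (fun h3 => hy ((hmv g y).1 h3))]
        congr 2
        apply Subtype.ext
        rw [← h1]
        exact hg
    obtain ⟨z, h1, h2, h3⟩ := hview x
    obtain ⟨z', h1', h2', h3'⟩ := hview x'
    by_cases hmx : mv x
    · by_cases hmx' : mv x'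
      · obtain ⟨g, h4, h5⟩ := Raw.four hs hSc R hside hx hx' hmx hmx'
        rw [h3 hmx, smul_pv] at h4
        rw [h3' hmx', smul_pv] at h5
        exact ⟨g, by rw [h1, pv_inj h4], by rw [h1', pv_inj h5]⟩
      · obtain ⟨g, h4, h5⟩ := R.pair (ov A x) (ov A x') (.inl ⟨x, rfl⟩) (.inl ⟨x', rfl⟩)
          ((sdA_orb hside A x).2 hx) ((hsd' (oX x')).1 (hof x' hx'))
        rw [h2, smul_ov] at h4
        rw [h2', smul_ov] at h5
        have h6 : z ∈ orb A (g • x) := orb_eq_iff.1 (congrArg Nd.A h4)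
        have h7 : z' ∈ orb A (g • x') := orb_eq_iff.1 (congrArg Nd.A h5)
        have h8 : ¬ mv (g • x') := fun h => hmx' ((hmv g x').1 h)
        obtain ⟨n, hn, h9⟩ := h6
        have h10 := hfixo _ _ h8 h7
        have h11 := hfixo _ _ h8 (smul_mem_orb hn (g • x'))
        refine ⟨n * g, ?_, ?_⟩
        · rw [h1, mul_smul, h9]
        · rw [h1', mul_smul, h11, h10]
    · obtain ⟨g, h4, h5⟩ := R.pair (ov A x) (ov A x') (.inl ⟨x, rfl⟩) (.inl ⟨x', rfl⟩)
        ((sdA_orb hside A x).2 hx) ((hsd' (oX x')).1 (hof x' hx'))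
      rw [h2, smul_ov] at h4
      rw [h2', smul_ov] at h5
      have h6 : z ∈ orb A (g • x) := orb_eq_iff.1 (congrArg Nd.A h4)
      have h7 : z' ∈ orb A (g • x') := orb_eq_iff.1 (congrArg Nd.A h5)
      have h8 : ¬ mv (g • x) := fun h => hmx ((hmv g x).1 h)
      obtain ⟨n, hn, h9⟩ := h7
      have h10 := hfixo _ _ h8 h6
      have h11 := hfixo _ _ h8 (smul_mem_orb hn (g • x))
      refine ⟨n * g, ?_, ?_⟩
      · rw [h1, mul_smul, h11, h10]
      · rw [h1', mul_smul, h9]
  · -- rigidity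
    intro h hh hfix
    obtain ⟨R, hR1, hR2, hR3, hR4⟩ := hraw h hh
    have hpt : ∀ x : X, (∃ n ∈ A, n • x ≠ x) → R.H .pt (pv x) = pv x := by
      intro x hx
      obtain ⟨y, hy, h1, h2⟩ := hR1 x hx
      have h3 := hfix x
      rw [hι1 x hx, h2] at h3
      have h4 : pv y = (pv x : Nd G X) := congrArg (fun t : Nw p A X => t.1.2) (Sum.inr.inj h3)
      rw [h1, h4]
    have hall := R.fix_all hs hpt
    have hTov : ∀ x, R.T (ov A x) = ov A x := by
      intro y
      by_cases hy : mv y
      · have hTy : ∃ g : G, R.T (ov A y) = ov A (g • y) := by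
          by_cases hy : side y = true
          · obtain ⟨g, h1, -⟩ := R.pair (ov A y) (ov A xf) (.inl ⟨y, rfl⟩) (.inl ⟨xf, rfl⟩)
              ((sdA_orb hside A y).2 hy) ((hsd' (oX xf)).1 (hof xf hxf))
            exact ⟨g, by rw [h1, smul_ov]⟩
          · have hy' : side y = false := by simpa using hy
            obtain ⟨g, -, h1⟩ := R.pair (ov A xt) (ov A y) (.inl ⟨xt, rfl⟩) (.inl ⟨y, rfl⟩)
              ((sdA_orb hside A xt).2 hxt) ((hsd' (oX y)).1 (hof y hy'))
            exact ⟨g, by rw [h1, smul_ov]⟩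
        obtain ⟨g, hg⟩ := hTy
        have h3 := R.Tpt y hy
        rw [hpt y hy, hg] at h3
        have h4 : y ∈ orb A (g • y) := h3 rfl
        rw [hg]
        unfold ov
        rw [orb_eq h4]
      · obtain ⟨u', h1, h2⟩ := hR2 (oX y)
        have h3 := hfix y
        rw [hι0 y hy, h2] at h3
        have h4 := hι' (Sum.inl.inj h3)
        rw [h4] at h1
        exact h1
    have hT : ∀ u : XX p A side, R.T u.1 = u.1 := by
      rintro ⟨v, ⟨x, rfl⟩ | ⟨x, M, h0, hM, rfl⟩⟩
      · exact hTov x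
      · show R.T (dv A M x) = dv A M x
        rw [← R.Tdr x M hM h0]
        exact hall .dr _ ⟨x, M, hM, rfl⟩
    rintro (a | t)
    · exact hR4 hT a
    · exact hR3 hall t
  · -- cardinality
    rw [E.card]
    have h1 : Nat.card E.W ≤ 8 * Nat.card {x : X // ∃ n ∈ A, n • x ≠ x} := card_new hs
    have h2 : 32 * Nat.card (XX p A side) +
      16 * Nat.card {x : X // side x = false ∧ ∃ n ∈ A, n • x ≠ x} ≤ 32 * Nat.card X :=
      card_vX hs hside
    have h3 : Nat.card {x : X // ∃ n ∈ A, n • x ≠ x} =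
        Nat.card {x : X // side x = true ∧ ∃ n ∈ A, n • x ≠ x} +
        Nat.card {x : X // side x = false ∧ ∃ n ∈ A, n • x ≠ x} := by
      have := Fintype.ofFinite X
      rw [Nat.card_eq_fintype_card, Nat.card_eq_fintype_card, Nat.card_eq_fintype_card,
        Fintype.card_subtype, Fintype.card_subtype, Fintype.card_subtype,
        ← Finset.card_union_of_disjoint]
      · congr 1
        ext x
        simp only [Finset.mem_filter, Finset.mem_union, Finset.mem_univ, true_and]
        cases side x <;> simp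
      · rw [Finset.disjoint_left]
        intro x hx hx'
        rw [Finset.mem_filter] at hx hx'
        have h4 := hx.2.1
        rw [hx'.2.1] at h4
        exact absurd h4 (by simp)
    omega

/-- **Steps with elementary abelian factors.** -/
theorem controls_ab [Finite G] {b K : ℕ} (hb : 2 ≤ b) [hp : Fact p.Prime] (hA : A.Normal)
    (hNA : N ≤ A) (hcomm : ∀ x ∈ A, ∀ y ∈ A, x * y * x⁻¹ * y⁻¹ ∈ N) (hpow : ∀ x ∈ A, x ^ p ∈ N)
    (hC : Controls b K A) : Controls b K N := by
  intro X _ _ side hXK hside htriv ht hf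
  have hs : AbStep p N A X := ⟨hA, hNA, hcomm, hpow, htriv⟩
  rcases le_total (Nat.card {x : X // side x = true ∧ ∃ n ∈ A, n • x ≠ x})
    (Nat.card {x : X // side x = false ∧ ∃ n ∈ A, n • x ≠ x}) with h | h
  · exact controls_ab_aux hb hs hC hXK hside ht hf h
  · have e1 : ∀ x, (!side x) = true ↔ side x = false := fun x => by simp
    have e2 : ∀ x, (!side x) = false ↔ side x = true := fun x => by simp
    obtain ⟨S, ι, h1, h2, h3, h4, h5⟩ := controls_ab_aux (side := fun x => !side x) hb hs hC hXK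
      (fun g x => by rw [hside]) (by
        obtain ⟨x, hx⟩ := hf
        exact ⟨x, (e1 x).2 hx⟩) (by
        obtain ⟨x, hx⟩ := ht
        exact ⟨x, (e2 x).2 hx⟩) (by
        simp only [e1, e2]
        exact h)
    refine ⟨S, ι, h1, h2, fun h hh x x' hx hx' => ?_, h4, h5⟩
    obtain ⟨g, h6, h7⟩ := h3 h hh x' x ((e1 x').2 hx') ((e2 x).2 hx)
    exact ⟨g, h7, h6⟩

end step

end Pool.Agent.SV
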