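import Pool.Agent.Lib_helper73.SV.Raw

/-!
# Pairs of hyperplanes
-/

set_option autoImplicit false
set_option linter.unusedSectionVars false

namespace Pool.Agent.SV

variable {G : Type} [Group G] {X : Type} [MulAction G X] {p : ℕ} {N A : Subgroup G}
  {side : X → Bool}

/-- the marks -/
def Mks (A : Subgroup G) (S : Nd G X × Nd G X → ℕ → Set (Nd G X × Nd G X)) (k : ℕ)
    (v w : Nd G X) : Prop :=
  ∃ g : G, g • (par A v, par A w) = rep (G := G) (par A v, par A w) ∧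
    (g • v, g • w) ∈ S (rep (G := G) (par A v, par A w)) k

variable {S : Nd G X × Nd G X → ℕ → Set (Nd G X × Nd G X)}

theorem Mks_smul [A.Normal] (u : G) (k : ℕ) (v w : Nd G X) (h : Mks A S k v w) :
    Mks A S k (u • v) (u • w) := by
  obtain ⟨g, h1, h2⟩ := h
  have e : ((par A (u • v), par A (u • w)) : Nd G X × Nd G X) = u • (par A v, par A w) := by
    rw [par_smul, par_smul]
    rfl
  unfold Mks
  rw [e, rep_smul]
  refine ⟨g * u⁻¹, ?_, ?_⟩
  · rw [mul_smul, inv_smul_smul, h1]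
  · rw [mul_smul, inv_smul_smul, mul_smul, inv_smul_smul]
    exact h2

theorem Mks_iff {v w : Nd G X} {r : Nd G X × Nd G X} {g1 : G}
    (h1 : g1 • (par A v, par A w) = r) (hr : rep (G := G) r = r) (k : ℕ) :
    Mks A S k v w ↔ ∃ g ∈ MulAction.stabilizer G r, (g • g1 • v, g • g1 • w) ∈ S r k := by
  have hrep : rep (G := G) (par A v, par A w) = r := by
    rw [← rep_smul g1, h1, hr]
  unfold Mks
  rw [hrep]
  constructor
  · rintro ⟨g, h2, h3⟩
    refine ⟨g * g1⁻¹, ?_, ?_⟩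
    · rw [MulAction.mem_stabilizer_iff]
      conv_lhs => rw [← h1]
      rw [mul_smul, inv_smul_smul, h2]
    · rw [mul_smul, inv_smul_smul, mul_smul, inv_smul_smul]
      exact h3
  · rintro ⟨g, h2, h3⟩
    refine ⟨g * g1, ?_, ?_⟩
    · rw [mul_smul, h1]
      exact MulAction.mem_stabilizer_iff.1 h2
    · rw [mul_smul, mul_smul]
      exact h3

namespace Raw

variable (hs : AbStep p N A X) (hside : ∀ (g : G) x, side (g • x) = side x) [Finite G]
  [hp : Fact p.Prime]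
  (hS : ∀ (x x' : X) M, side x = true → side x' = false → Mx p A x M → Mx p A x' M →
    LocOK p A side (dv A M x, dv A M x') (S (dv A M x, dv A M x')))

include hs hS

theorem three_fixed (R : Raw p A side (Mks A S))
    (hside : ∀ (g : G) x, side (g • x) = side x) {x x' : X} {M : Subgroup G}
    (h0 : side x = true) (h0' : side x' = false) (hM : Mx p A x M) (hM' : Mx p A x' M)
    (hD : R.H .dr (dv A M x) = dv A M x) (hD' : R.H .dr (dv A M x') = dv A M x') :
    ∃ g : G, R.H .hy (hv M x) = g • hv M x ∧ R.H .hy (hv M x') = g • hv M x' := by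
  have hA := hs.nA
  obtain ⟨g1, hg1⟩ := exists_rep (G := G) ((dv A M x, dv A M x') : Nd G X × Nd G X)
  set r := rep (G := G) ((dv A M x, dv A M x') : Nd G X × Nd G X) with hr
  have hrr : rep (G := G) r = r := by rw [hr, rep_rep]
  have hr2 : r = (dv A (cj g1 M) (g1 • x), dv A (cj g1 M) (g1 • x')) := by
    rw [← hg1]
    exact Prod.ext (smul_dv g1 A M x) (smul_dv g1 A M x')
  have hloc := hS (g1 • x) (g1 • x') (cj g1 M) (by rw [hside]; exact h0)
    (by rw [hside]; exact h0') (hM.smul hs g1) (hM'.smul hs g1)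
  rw [← hr2] at hloc
  obtain ⟨xr, xr', Mr, lr, er, hPD, hrr2, hloc⟩ := hloc
  -- transport back
  have hPD' := hPD.smul hs hside g1⁻¹
  have hDr : dv A M x = dv A (cj g1⁻¹ Mr) (g1⁻¹ • xr) := by
    rw [← smul_dv, ← inv_smul_smul g1 (dv A M x)]
    congr 1
    have h1 : g1 • dv A M x = r.1 := congrArg Prod.fst hg1
    rw [h1, hrr2]
  have hDr' : dv A M x' = dv A (cj g1⁻¹ Mr) (g1⁻¹ • xr') := by
    rw [← smul_dv, ← inv_smul_smul g1 (dv A M x')]
    congr 1
    have h1 : g1 • dv A M x' = r.2 := congrArg Prod.snd hg1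
    rw [h1, hrr2]
  have hMM : M = cj g1⁻¹ Mr := congrArg Nd.M hDr
  rw [← hMM] at hPD' hDr hDr'
  set y := g1⁻¹ • xr with hy
  set y' := g1⁻¹ • xr' with hy'
  set e : ZMod p → G := fun i => g1⁻¹ * er i * g1⁻¹⁻¹ with he
  set l : G → ZMod p := fun n => lr (g1⁻¹⁻¹ * n * g1⁻¹) with hl
  obtain ⟨α, β, hα, haff⟩ := R.aff hs hPD'.m (by rw [← hDr, hD]) hPD'.c hPD'.ea hPD'.le
  obtain ⟨α', β', hα', haff'⟩ := R.aff hs hPD'.m' (by rw [← hDr', hD']) hPD'.c hPD'.ea hPD'.le
  have htr : ∀ (z : X) (i : ZMod p), g1 • hv M (e i • (g1⁻¹ • z)) = hv Mr (er i • z) := by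
    intro z i
    rw [smul_hv, hMM, ← cj_mul, mul_inv_cancel, cj_one]
    congr 1
    simp only [he, ← mul_smul]
    congr 1
    group
  have hF : ∀ i, g1 • hv M (e i • y) = hv Mr (er i • xr) := fun i => htr xr i
  have hF' : ∀ i, g1 • hv M (e i • y') = hv Mr (er i • xr') := fun i => htr xr' i
  have hpar : ∀ i, par A (hv M (e i • y)) = dv A M x := by
    intro i
    rw [par_hv hPD'.m.2.1, hDr]
    unfold dv
    rw [orb_eq (smul_mem_orb (hPD'.ea i) y)]
  have hpar' : ∀ i, par A (hv M (e i • y')) = dv A M x' := by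
    intro i
    rw [par_hv hPD'.m.2.1, hDr']
    unfold dv
    rw [orb_eq (smul_mem_orb (hPD'.ea i) y')]
  have hvi : ∀ i, vd p A .hy (hv M (e i • y)) := fun i =>
    ⟨_, M, hPD'.m.orb hs (smul_mem_orb (hPD'.ea i) y), rfl⟩
  have hvi' : ∀ i, vd p A .hy (hv M (e i • y')) := fun i =>
    ⟨_, M, hPD'.m'.orb hs (smul_mem_orb (hPD'.ea i) y'), rfl⟩
  have key := hloc α β α' β' hα hα' (by
    intro k hk i i'
    have h1 : Mks A S k (R.H .hy (hv M (e i • y))) (R.H .hy (hv M (e i' • y'))) ↔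
        Mks A S k (hv M (e i • y)) (hv M (e i' • y')) := by
      have h2 := R.rel k .hy .hy _ _ hk (hvi i) (hvi' i')
      have h3 : k = 0 ∨ k = 1 := by omega
      rcases h3 with rfl | rfl
      · exact h2
      · exact h2
    rw [haff, haff', Mks_iff (g1 := g1) (r := r) (by rw [hpar, hpar', hg1]) hrr,
      Mks_iff (g1 := g1) (r := r) (by rw [hpar, hpar', hg1]) hrr, hF, hF', hF, hF'] at h1
    exact h1)
  -- the given hyperplanes
  have hx : ∃ i, hv M x = hv M (e i • y) := by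
    have h1 : orb A x = orb A y := congrArg Nd.A hDr
    obtain ⟨n, hn, rfl⟩ := orb_eq_iff.1 h1
    refine ⟨l n, ?_⟩
    rw [hPD'.m.hv_eq hs hPD'.c hn (hPD'.ea _), hPD'.le]
  have hx' : ∃ i, hv M x' = hv M (e i • y') := by
    have h1 : orb A x' = orb A y' := congrArg Nd.A hDr'
    obtain ⟨n, hn, rfl⟩ := orb_eq_iff.1 h1
    refine ⟨l n, ?_⟩
    rw [hPD'.m'.hv_eq hs hPD'.c hn (hPD'.ea _), hPD'.le]
  obtain ⟨i, hi⟩ := hx
  obtain ⟨i', hi'⟩ := hx'
  obtain ⟨g, -, h1, h2⟩ := key i i'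
  rw [← hF, ← hF] at h1
  rw [← hF', ← hF'] at h2
  refine ⟨g1⁻¹ * g * g1, ?_, ?_⟩
  · rw [hi, haff, mul_smul (g1⁻¹ * g) g1, mul_smul g1⁻¹ g, ← h1, inv_smul_smul]
  · rw [hi', haff', mul_smul (g1⁻¹ * g) g1, mul_smul g1⁻¹ g, ← h2, inv_smul_smul]

/-- **An automorphism moves pairs of hyperplanes with the same subgroup inside their orbits.** -/
theorem three (R : Raw p A side (Mks A S))
    (hside : ∀ (g : G) x, side (g • x) = side x) {x x' : X} {M : Subgroup G}
    (h0 : side x = true) (h0' : side x' = false) (hM : Mx p A x M) (hM' : Mx p A x' M) :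
    ∃ g : G, R.H .hy (hv M x) = g • hv M x ∧ R.H .hy (hv M x') = g • hv M x' := by
  have hA := hs.nA
  obtain ⟨g0, h1, h2⟩ := R.pair (dv A M x) (ov A x') (.inr ⟨x, M, h0, hM, rfl⟩) (.inl ⟨x', rfl⟩)
    ((sdA_orb hside A x).2 h0) (by
      intro h
      have := (sdA_orb hside A x').1 h
      rw [h0'] at this
      exact absurd this (by simp))
  have h3 := R.Tdr x M hM h0
  rw [h1] at h3
  have h4 := R.Tdr' x' M hM' h0'
  rw [h2] at h4
  have hv1 : vd p A .dr (dv A M x) := ⟨x, M, hM, rfl⟩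
  have hv2 : vd p A .dr (dv A M x') := ⟨x', M, hM', rfl⟩
  have h5 : (R.H .dr (dv A M x)).M = (R.H .dr (dv A M x')).M :=
    (R.rel 0 .dr .dr _ _ (by norm_num) hv1 hv2).2 rfl
  rw [h3] at h5
  have h6 : R.H .dr (dv A M x') = g0 • dv A M x' := by
    obtain ⟨x1, M1, -, h7⟩ := R.val .dr _ hv2
    apply Nd.ext
    · exact h5.symm
    · exact h4
    · rw [h7]
      ext n
      rw [mem_smul_E]
      show n ∈ (∅ : Set G) ↔ g0⁻¹ * n * g0 ∈ (∅ : Set G)
      simp
  have hMk : ∀ (g : G) i (v w : Nd G X), Mks A S i v w → Mks A S i (g • v) (g • w) :=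
    fun g i v w h => Mks_smul g i v w h
  obtain ⟨g, h7, h8⟩ := three_fixed hs hS (R.smul hs hside hMk g0⁻¹) hside h0 h0' hM hM' (by
    show g0⁻¹ • R.H .dr (dv A M x) = _
    rw [h3, inv_smul_smul]) (by
    show g0⁻¹ • R.H .dr (dv A M x') = _
    rw [h6, inv_smul_smul])
  have h7' : g0⁻¹ • R.H .hy (hv M x) = g • hv M x := h7
  have h8' : g0⁻¹ • R.H .hy (hv M x') = g • hv M x' := h8
  rw [inv_smul_eq_iff] at h7' h8'
  exact ⟨g0 * g, by rw [h7', mul_smul], by rw [h8', mul_smul]⟩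

end Raw

end Pool.Agent.SV
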